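import Mathlib

/-!
Bijections of words that carry occurrences of an unbordered word `P` to occurrences of an
unbordered word `Q`, compatibly with changes of the letters next to the occurrences.
-/

namespace Pool.Agent.V11244.KwBij

/-- no border, in the form used -/
def Unb (P : List Bool) : Prop := ∀ a c : List Bool, a ≠ [] → c ≠ [] → P = a ++ c → ¬ c <+: P

/-- the middle of a word -/
def mid (w : List Bool) : List Bool := w.tail.dropLast

theorem dl_tl (w : List Bool) : w.dropLast.tail = w.tail.dropLast := by
  cases w with
  | nil => rfl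
  | cons x l =>
    cases l with
    | nil => rfl
    | cons y l => simp [List.dropLast]

structure Good (P Q : List Bool) (n : ℕ) (F : List Bool → List Bool) : Prop where
  len : ∀ w, w.length ≤ n → (F w).length = w.length
  hd : ∀ w, w.length ≤ n → (F w).head? = w.head?
  lt : ∀ w, w.length ≤ n → (F w).getLast? = w.getLast?
  tl : ∀ w w', w.length ≤ n → w.length = w'.length → w.tail = w'.tail → (F w).tail = (F w').tail
  dl : ∀ w w', w.length ≤ n → w.length = w'.length → w.dropLast = w'.dropLast →
    (F w).dropLast = (F w').dropLast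
  ap : ∀ g h, (g ++ (P ++ h)).length ≤ n → F (g ++ (P ++ h)) = F g ++ (Q ++ F h)

theorem mid_congr_left (g g' z : List Bool) (hl : g.length = g'.length) (ht : g.tail = g'.tail) :
    mid (g ++ z) = mid (g' ++ z) := by
  cases g with
  | nil =>
    cases g' with
    | nil => rfl
    | cons x l => simp at hl
  | cons x l =>
    cases g' with
    | nil => simp at hl
    | cons x' l' =>
      simp only [List.tail_cons] at ht
      subst ht
      rfl

theorem dl_append (z h : List Bool) (hh : h ≠ []) : (z ++ h).dropLast = z ++ h.dropLast :=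
  List.dropLast_append_of_ne_nil hh

theorem mid_congr_right (z h h' : List Bool) (hl : h.length = h'.length)
    (ht : h.dropLast = h'.dropLast) : mid (z ++ h) = mid (z ++ h') := by
  unfold mid
  rw [← dl_tl, ← dl_tl]
  by_cases hh : h = []
  · subst hh
    have : h' = [] := by
      apply List.eq_nil_of_length_eq_zero
      simpa using hl.symm
    rw [this]
  · have hh' : h' ≠ [] := by
      intro h0
      apply hh
      apply List.eq_nil_of_length_eq_zero
      rw [hl, h0]; rfl
    rw [dl_append z h hh, dl_append z h' hh', ht]

theorem mid_inj (P g g' h h' : List Bool) (hP : P ≠ []) (hg : g.length = g'.length)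
    (hh : h.length = h'.length) (hm : mid (g ++ (P ++ h)) = mid (g' ++ (P ++ h'))) :
    g.tail = g'.tail ∧ h.dropLast = h'.dropLast := by
  have key : ∀ A B : List Bool, A.length = B.length →
      (A ++ (P ++ h)).dropLast = (B ++ (P ++ h')).dropLast → A = B ∧ h.dropLast = h'.dropLast := by
    intro A B hAB hd
    by_cases hh0 : h = []
    · subst hh0
      have h0' : h' = [] := by
        apply List.eq_nil_of_length_eq_zero
        simpa using hh.symm
      subst h0'
      rw [List.append_nil, dl_append _ _ hP, dl_append _ _ hP] at hd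
      exact ⟨(List.append_inj hd hAB).1, rfl⟩
    · have hh0' : h' ≠ [] := by
        intro h0
        apply hh0
        apply List.eq_nil_of_length_eq_zero
        rw [hh, h0]; rfl
      rw [dl_append A _ (by simp [hP]), dl_append B _ (by simp [hP]), dl_append P _ hh0,
        dl_append P _ hh0'] at hd
      obtain ⟨h1, h2⟩ := List.append_inj hd hAB
      exact ⟨h1, List.append_cancel_left h2⟩
  cases g with
  | nil =>
    cases g' with
    | cons x l => simp at hg
    | nil =>
      refine ⟨rfl, ?_⟩
      cases P with
      | nil => exact absurd rfl hP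
      | cons p P0 =>
        unfold mid at hm
        simp only [List.nil_append, List.cons_append, List.tail_cons] at hm
        by_cases hh0 : h = []
        · subst hh0
          have h0' : h' = [] := by
            apply List.eq_nil_of_length_eq_zero
            simpa using hh.symm
          rw [h0']
        · have hh0' : h' ≠ [] := by
            intro h0
            apply hh0
            apply List.eq_nil_of_length_eq_zero
            rw [hh, h0]; rfl
          rw [dl_append _ _ hh0, dl_append _ _ hh0'] at hm
          exact List.append_cancel_left hm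
  | cons x l =>
    cases g' with
    | nil => simp at hg
    | cons x' l' =>
      unfold mid at hm
      simp only [List.cons_append, List.tail_cons] at hm
      have := key l l' (by simpa using hg) hm
      exact ⟨this.1, this.2⟩

theorem head_mid (u : List Bool) (hu : 2 ≤ u.length) : u.dropLast = u.headD false :: mid u := by
  match u, hu with
  | x :: y :: l, _ => simp [mid, List.dropLast]

theorem mid_last (u : List Bool) (hu : 2 ≤ u.length) : u.tail = mid u ++ [u.getLastD false] := by
  match u, hu with
  | x :: y :: l, _ =>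
    simp only [mid, List.tail_cons]
    have h := List.dropLast_append_getLast (l := y :: l) (by simp)
    conv_lhs => rw [← h]
    congr 1

theorem func_lt {P Q : List Bool} {n : ℕ} {F : List Bool → List Bool} (hF : Good P Q n F)
    (hu : Unb P) (hP : P ≠ []) {N : ℕ} (hN : N = n + 1) (hN2 : 2 ≤ N)
    (g h g' h' : List Bool) (h1 : (g ++ (P ++ h)).length = N) (h2 : (g' ++ (P ++ h')).length = N)
    (hm : mid (g ++ (P ++ h)) = mid (g' ++ (P ++ h'))) (hlt : g.length < g'.length) :
    mid (F g ++ (Q ++ F h)) = mid (F g' ++ (Q ++ F h')) := by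
  have hPl : 1 ≤ P.length := List.length_pos_iff.2 hP
  have l1 : g.length + (P.length + h.length) = N := by simpa using h1
  have l2 : g'.length + (P.length + h'.length) = N := by simpa using h2
  have hh : h ≠ [] := by
    intro h0; rw [h0] at l1; simp only [List.length_nil] at l1; omega
  have hg' : g' ≠ [] := by
    intro h0; rw [h0] at hlt; simp at hlt
  set u := g ++ (P ++ h) with hudef
  set v := g' ++ (P ++ h') with hvdef
  set y := v.getLastD false with hy
  set x := u.headD false with hx
  have e1 : u.dropLast = x :: mid u := head_mid u (by rw [h1]; exact hN2)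
  have e2 : v.tail = mid v ++ [y] := mid_last v (by rw [h2]; exact hN2)
  have e3 : u.dropLast = g ++ (P ++ h.dropLast) := by
    rw [hudef, dl_append _ _ (by simp [hP]), dl_append _ _ hh]
  have e4 : v.tail = g'.tail ++ (P ++ h') := by
    rw [hvdef]
    cases g' with
    | nil => exact absurd rfl hg'
    | cons a l => rfl
  set k1 := h.dropLast ++ [y] with hk1
  set g1 := x :: g'.tail with hg1
  have e5 : g ++ (P ++ k1) = g1 ++ (P ++ h') := by
    calc g ++ (P ++ k1) = (g ++ (P ++ h.dropLast)) ++ [y] := by rw [hk1]; simp
      _ = u.dropLast ++ [y] := by rw [e3]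
      _ = x :: (mid v ++ [y]) := by rw [e1, hm]; rfl
      _ = x :: v.tail := by rw [e2]
      _ = g1 ++ (P ++ h') := by rw [e4, hg1]; rfl
  have lg1 : g1.length = g'.length := by
    rw [hg1, List.length_cons, List.length_tail]
    have := List.length_pos_iff.2 hg'
    omega
  have lk1 : k1.length = h.length := by
    rw [hk1, List.length_append, List.length_dropLast]
    have := List.length_pos_iff.2 hh
    simp only [List.length_singleton]
    omega
  -- find the middle piece
  have hk : ∃ k, g1 = g ++ (P ++ k) ∧ k1 = k ++ (P ++ h') := by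
    rcases List.append_eq_append_iff.1 e5 with ⟨a, ha1, ha2⟩ | ⟨c, hc1, hc2⟩
    · have ha0 : a ≠ [] := by
        intro h0
        rw [h0, List.append_nil] at ha1
        rw [ha1] at lg1
        omega
      rcases List.append_eq_append_iff.1 ha2 with ⟨b, hb1, hb2⟩ | ⟨c, hc1, hc2⟩
      · exact ⟨b, by rw [ha1, hb1], hb2⟩
      · by_cases hc0 : c = []
        · refine ⟨[], ?_, ?_⟩
          · rw [ha1, hc1, hc0]; simp
          · rw [hc0] at hc2
            simpa using hc2.symm
        · exfalso
          apply hu a c ha0 hc0 hc1
          have p1 : c <+: P ++ h' := ⟨k1, hc2.symm⟩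
          have p2 : P <+: P ++ h' := ⟨h', rfl⟩
          apply List.prefix_of_prefix_length_le p1 p2
          rw [hc1]; simp
    · exfalso
      have := congrArg List.length hc1
      rw [List.length_append] at this
      omega
  obtain ⟨k, hk2, hk3⟩ := hk
  have hle_h : h.length ≤ n := by omega
  have hle_g' : g'.length ≤ n := by omega
  have hd1 : h.dropLast = k1.dropLast := by rw [hk1, List.dropLast_concat]
  have s1 : (F h).dropLast = (F k1).dropLast := hF.dl h k1 hle_h lk1.symm hd1
  have s2 : (F g1).tail = (F g').tail := hF.tl g1 g' (by omega) lg1 (by rw [hg1]; rfl)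
  have lF1 : (F h).length = (F k1).length := by
    rw [hF.len h hle_h, hF.len k1 (by omega), lk1]
  have lF2 : (F g1).length = (F g').length := by
    rw [hF.len g1 (by omega), hF.len g' hle_g', lg1]
  calc mid (F g ++ (Q ++ F h)) = mid (F g ++ Q ++ F h) := by rw [List.append_assoc]
    _ = mid (F g ++ Q ++ F k1) := mid_congr_right _ _ _ lF1 s1
    _ = mid (F g ++ Q ++ (F k ++ (Q ++ F h'))) := by
        rw [hk3, hF.ap k h' (by rw [← hk3]; omega)]
    _ = mid ((F g ++ (Q ++ F k)) ++ (Q ++ F h')) := by simp only [List.append_assoc]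
    _ = mid (F g1 ++ (Q ++ F h')) := by
        rw [hk2, hF.ap g k (by rw [← hk2]; omega)]
    _ = mid (F g' ++ (Q ++ F h')) := mid_congr_left _ _ _ lF2 s2

theorem func {P Q : List Bool} {n : ℕ} {F : List Bool → List Bool} (hF : Good P Q n F)
    (hu : Unb P) (hP : P ≠ []) {N : ℕ} (hN : N = n + 1) (hN2 : 2 ≤ N)
    (g h g' h' : List Bool) (h1 : (g ++ (P ++ h)).length = N) (h2 : (g' ++ (P ++ h')).length = N)
    (hm : mid (g ++ (P ++ h)) = mid (g' ++ (P ++ h'))) :
    mid (F g ++ (Q ++ F h)) = mid (F g' ++ (Q ++ F h')) := by
  rcases lt_trichotomy g.length g'.length with hlt | heq | hgt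
  · exact func_lt hF hu hP hN hN2 g h g' h' h1 h2 hm hlt
  · have hPl : 1 ≤ P.length := List.length_pos_iff.2 hP
    have l1 : g.length + (P.length + h.length) = N := by simpa using h1
    have l2 : g'.length + (P.length + h'.length) = N := by simpa using h2
    have hh : h.length = h'.length := by omega
    obtain ⟨a1, a2⟩ := mid_inj P g g' h h' hP heq hh hm
    have s1 : (F g).tail = (F g').tail := hF.tl g g' (by omega) heq a1
    have s2 : (F h).dropLast = (F h').dropLast := hF.dl h h' (by omega) hh a2
    have lF1 : (F h).length = (F h').length := by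
      rw [hF.len h (by omega), hF.len h' (by omega), hh]
    have lF2 : (F g).length = (F g').length := by
      rw [hF.len g (by omega), hF.len g' (by omega), heq]
    calc mid (F g ++ (Q ++ F h)) = mid (F g' ++ (Q ++ F h)) := mid_congr_left _ _ _ lF2 s1
      _ = mid (F g' ++ Q ++ F h) := by rw [List.append_assoc]
      _ = mid (F g' ++ Q ++ F h') := mid_congr_right _ _ _ lF1 s2
      _ = mid (F g' ++ (Q ++ F h')) := by rw [List.append_assoc]
  · exact (func_lt hF hu hP hN hN2 g' h' g h h2 h1 hm.symm hgt).symm

theorem extend_partial {W : Type} [Fintype W] [DecidableEq W] (R : W → W → Prop)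
    (hf : ∀ m a b, R m a → R m b → a = b) (hi : ∀ m m' a, R m a → R m' a → m = m') :
    ∃ θ : W ≃ W, ∀ m a, R m a → θ m = a := by
  classical
  let p : W → Prop := fun m => ∃ a, R m a
  let q : W → Prop := fun a => ∃ m, R m a
  let e : {m // p m} ≃ {a // q a} :=
    { toFun := fun m => ⟨m.2.choose, ⟨m.1, m.2.choose_spec⟩⟩
      invFun := fun a => ⟨a.2.choose, ⟨a.1, a.2.choose_spec⟩⟩
      left_inv := by
        intro m
        apply Subtype.ext
        have h1 := m.2.choose_spec
        have h2 := (⟨m.1, h1⟩ : q m.2.choose).choose_spec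
        exact hi _ _ _ h2 h1
      right_inv := by
        intro a
        apply Subtype.ext
        have h1 := a.2.choose_spec
        have h2 := (⟨a.1, h1⟩ : p a.2.choose).choose_spec
        exact hf _ _ _ h2 h1 }
  refine ⟨e.extendSubtype, ?_⟩
  intro m a hR
  have hm : p m := ⟨a, hR⟩
  rw [Equiv.extendSubtype_apply_of_mem e m hm]
  exact hf _ _ _ hm.choose_spec hR

/-- extension of a map to words of length `N` -/
def ext (N : ℕ) (T F : List Bool → List Bool) (w : List Bool) : List Bool :=
  if w.length = N then w.headD false :: (T (mid w) ++ [w.getLastD false]) else F w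

theorem ext_top (N : ℕ) (T F : List Bool → List Bool) (x y : Bool) (m : List Bool)
    (h : m.length + 2 = N) : ext N T F (x :: (m ++ [y])) = x :: (T m ++ [y]) := by
  unfold ext
  rw [if_pos (by simp; omega)]
  have h1 : mid (x :: (m ++ [y])) = m := by
    unfold mid
    rw [List.tail_cons, List.dropLast_concat]
  have h2 : (x :: (m ++ [y])).getLastD false = y := by
    rw [List.getLastD_eq_getLast?, ← List.cons_append, List.getLast?_concat]
    rfl
  rw [h1, h2]
  rfl

theorem ext_low (N : ℕ) (T F : List Bool → List Bool) (w : List Bool) (h : w.length < N) :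
    ext N T F w = F w := by
  unfold ext
  rw [if_neg (by omega)]

theorem shape (w : List Bool) {N : ℕ} (hw : w.length = N) (hN : 2 ≤ N) :
    ∃ x m y, w = x :: (m ++ [y]) ∧ m.length + 2 = N ∧ mid w = m := by
  match w, hw with
  | x :: z :: l, hw =>
    refine ⟨x, (z :: l).dropLast, (z :: l).getLast (by simp), ?_, ?_, ?_⟩
    · rw [List.dropLast_append_getLast (by simp)]
    · rw [List.length_dropLast]
      simp only [List.length_cons] at hw ⊢
      omega
    · rfl
  | [], hw => simp at hw; omega
  | [x], hw => simp at hw; omega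

theorem head_append_congr (g X P Y Q h : List Bool) (hgX : X.head? = g.head?)
    (hPQ : P.head? = Q.head?) (hP : P ≠ []) (hQ : Q ≠ []) (hg : g.length = X.length) :
    (X ++ (Q ++ Y)).head? = (g ++ (P ++ h)).head? := by
  cases g with
  | nil =>
    have : X = [] := by
      apply List.eq_nil_of_length_eq_zero
      rw [← hg]; rfl
    subst this
    cases P with
    | nil => exact absurd rfl hP
    | cons p P =>
      cases Q with
      | nil => exact absurd rfl hQ
      | cons q Q =>
        simp only [List.head?_cons] at hPQ
        simp only [List.nil_append, List.cons_append, List.head?_cons]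
        exact hPQ.symm
  | cons x l =>
    cases X with
    | nil => simp at hg
    | cons x' l' =>
      simp only [List.head?_cons] at hgX
      simpa using hgX

theorem last_append_congr (g X P Y Q h : List Bool) (hgX : Y.getLast? = h.getLast?)
    (hPQ : P.getLast? = Q.getLast?) (_hP : P ≠ []) (hQ : Q ≠ []) :
    (X ++ (Q ++ Y)).getLast? = (g ++ (P ++ h)).getLast? := by
  rw [List.getLast?_append, List.getLast?_append, List.getLast?_append, List.getLast?_append,
    hgX, hPQ]
  have : ∃ q, Q.getLast? = some q := by
    rw [List.getLast?_eq_getLast_of_ne_nil hQ]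
    exact ⟨_, rfl⟩
  obtain ⟨q, hq⟩ := this
  rw [hq]
  cases h.getLast? <;> simp

theorem good_ext {P Q : List Bool} {n : ℕ} {F T : List Bool → List Bool} (hF : Good P Q n F)
    (hn : 1 ≤ n) (hP : P ≠ []) (hQ : Q ≠ []) (hl : P.length = Q.length)
    (hhd : P.head? = Q.head?) (hlt : P.getLast? = Q.getLast?)
    (hT : ∀ m, m.length = n - 1 → (T m).length = m.length)
    (hR : ∀ g h, (g ++ (P ++ h)).length = n + 1 →
      T (mid (g ++ (P ++ h))) = mid (F g ++ (Q ++ F h))) :
    Good P Q (n + 1) (ext (n + 1) T F) := by
  have hPl : 1 ≤ P.length := List.length_pos_iff.2 hP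
  constructor
  · intro w hw
    rcases Nat.lt_or_ge w.length (n + 1) with h | h
    · rw [ext_low _ _ _ _ h]; exact hF.len w (by omega)
    · obtain ⟨x, m, y, hw', hm, -⟩ := shape w (le_antisymm hw h) (by omega)
      rw [hw', ext_top _ _ _ _ _ _ hm]
      simp [hT m (by omega)]
  · intro w hw
    rcases Nat.lt_or_ge w.length (n + 1) with h | h
    · rw [ext_low _ _ _ _ h]; exact hF.hd w (by omega)
    · obtain ⟨x, m, y, hw', hm, -⟩ := shape w (le_antisymm hw h) (by omega)
      rw [hw', ext_top _ _ _ _ _ _ hm]
      rfl
  · intro w hw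
    rcases Nat.lt_or_ge w.length (n + 1) with h | h
    · rw [ext_low _ _ _ _ h]; exact hF.lt w (by omega)
    · obtain ⟨x, m, y, hw', hm, -⟩ := shape w (le_antisymm hw h) (by omega)
      rw [hw', ext_top _ _ _ _ _ _ hm, ← List.cons_append, ← List.cons_append,
        List.getLast?_concat, List.getLast?_concat]
  · intro w w' hw hww ht
    rcases Nat.lt_or_ge w.length (n + 1) with h | h
    · rw [ext_low _ _ _ _ h, ext_low _ _ _ _ (by omega)]
      exact hF.tl w w' (by omega) hww ht
    · obtain ⟨x, m, y, hw1, hm, -⟩ := shape w (le_antisymm hw h) (by omega)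
      obtain ⟨x', m', y', hw2, hm', -⟩ := shape w' (hww.symm.trans (le_antisymm hw h)) (by omega)
      rw [hw1, hw2] at ht
      simp only [List.tail_cons] at ht
      obtain ⟨a1, a2⟩ := List.append_inj ht (by omega)
      rw [hw1, hw2, ext_top _ _ _ _ _ _ hm, ext_top _ _ _ _ _ _ hm', a1, a2]
      rfl
  · intro w w' hw hww ht
    rcases Nat.lt_or_ge w.length (n + 1) with h | h
    · rw [ext_low _ _ _ _ h, ext_low _ _ _ _ (by omega)]
      exact hF.dl w w' (by omega) hww ht
    · obtain ⟨x, m, y, hw1, hm, -⟩ := shape w (le_antisymm hw h) (by omega)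
      obtain ⟨x', m', y', hw2, hm', -⟩ := shape w' (hww.symm.trans (le_antisymm hw h)) (by omega)
      rw [hw1, hw2, ← List.cons_append, ← List.cons_append, List.dropLast_concat,
        List.dropLast_concat] at ht
      injection ht with a1 a2
      rw [hw1, hw2, ext_top _ _ _ _ _ _ hm, ext_top _ _ _ _ _ _ hm', a1, a2,
        ← List.cons_append, ← List.cons_append, List.dropLast_concat, List.dropLast_concat]
  · intro g h hgh
    have l1 : (g ++ (P ++ h)).length = g.length + (P.length + h.length) := by simp
    rw [ext_low _ _ _ g (by omega), ext_low _ _ _ h (by omega)]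
    rcases Nat.lt_or_ge (g ++ (P ++ h)).length (n + 1) with hl' | hl'
    · rw [ext_low _ _ _ _ hl']
      exact hF.ap g h (by omega)
    · have hN : (g ++ (P ++ h)).length = n + 1 := le_antisymm hgh hl'
      have lg := hF.len g (by omega)
      have lh := hF.len h (by omega)
      have hN' : (F g ++ (Q ++ F h)).length = n + 1 := by
        rw [List.length_append, List.length_append, lg, lh, ← hl]; omega
      have hR' := hR g h hN
      have hhead := head_append_congr g (F g) P (F h) Q h (hF.hd g (by omega)) hhd hP hQ lg.symm
      have hlast := last_append_congr g (F g) P (F h) Q h (hF.lt h (by omega)) hlt hP hQ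
      obtain ⟨x, m, y, hw1, hm, hmid⟩ := shape _ hN (by omega)
      obtain ⟨x', m', y', hw2, hm', hmid'⟩ := shape _ hN' (by omega)
      rw [hmid, hmid'] at hR'
      rw [hw1, hw2] at hhead hlast
      rw [hw1, hw2, ext_top _ _ _ _ _ _ hm, hR']
      simp only [List.head?_cons, Option.some.injEq] at hhead
      rw [← List.cons_append, ← List.cons_append, List.getLast?_concat, List.getLast?_concat,
        Option.some.injEq] at hlast
      rw [hhead, hlast]

/-- the pair of mutually inverse maps -/
def Both (P Q : List Bool) (n : ℕ) (F F' : List Bool → List Bool) : Prop :=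
  Good P Q n F ∧ Good Q P n F' ∧ (∀ w, w.length ≤ n → F' (F w) = w) ∧
    (∀ w, w.length ≤ n → F (F' w) = w)

theorem exists_both {P Q : List Bool} (hP : P ≠ []) (hQ : Q ≠ []) (hl : P.length = Q.length)
    (hP2 : 2 ≤ P.length) (hhd : P.head? = Q.head?) (hlt : P.getLast? = Q.getLast?)
    (uP : Unb P) (uQ : Unb Q) (n : ℕ) (hn : 1 ≤ n) : ∃ F F', Both P Q n F F' := by
  induction n, hn using Nat.le_induction with
  | base =>
    have key : ∀ P Q : List Bool, 2 ≤ P.length → Good P Q 1 (fun w => w) := by
      intro P Q hP2
      constructor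
      · intro w _; rfl
      · intro w _; rfl
      · intro w _; rfl
      · intro w w' _ _ h; exact h
      · intro w w' _ _ h; exact h
      · intro g h hgh
        exfalso
        simp only [List.length_append] at hgh
        omega
    exact ⟨fun w => w, fun w => w, key P Q hP2, key Q P (hl ▸ hP2), fun _ _ => rfl,
      fun _ _ => rfl⟩
  | succ n hn ih =>
    classical
    obtain ⟨F, F', hF, hF', hi1, hi2⟩ := ih
    let W := List.Vector Bool (n - 1)
    let R : W → W → Prop := fun m m' => ∃ g h, (g ++ (P ++ h)).length = n + 1 ∧
      m.1 = mid (g ++ (P ++ h)) ∧ m'.1 = mid (F g ++ (Q ++ F h))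
    have hfun : ∀ m a b : W, R m a → R m b → a = b := by
      rintro m a b ⟨g, h, h1, h2, h3⟩ ⟨g', h', h1', h2', h3'⟩
      apply Subtype.ext
      rw [h3, h3']
      exact func hF uP hP rfl (by omega) g h g' h' h1 h1' (h2.symm.trans h2')
    have hlenF : ∀ g h, (g ++ (P ++ h)).length = n + 1 →
        (F g ++ (Q ++ F h)).length = n + 1 := by
      intro g h hgh
      have l1 : (g ++ (P ++ h)).length = g.length + (P.length + h.length) := by simp
      have lg := hF.len g (by omega)
      have lh := hF.len h (by omega)
      rw [List.length_append, List.length_append, lg, lh, ← hl]; omega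
    have hinj : ∀ m m' a : W, R m a → R m' a → m = m' := by
      rintro m m' a ⟨g, h, h1, h2, h3⟩ ⟨g', h', h1', h2', h3'⟩
      apply Subtype.ext
      have l1 : (g ++ (P ++ h)).length = g.length + (P.length + h.length) := by simp
      have l1' : (g' ++ (P ++ h')).length = g'.length + (P.length + h'.length) := by simp
      have := func hF' uQ hQ rfl (by omega) (F g) (F h) (F g') (F h') (hlenF g h h1)
        (hlenF g' h' h1') (h3.symm.trans h3')
      rw [hi1 g (by omega), hi1 h (by omega), hi1 g' (by omega), hi1 h' (by omega)] at this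
      rw [h2, h2', this]
    obtain ⟨θ, hθ⟩ := extend_partial R hfun hinj
    let T : List Bool → List Bool := fun m => if h : m.length = n - 1 then (θ ⟨m, h⟩).1 else m
    let T' : List Bool → List Bool :=
      fun m => if h : m.length = n - 1 then (θ.symm ⟨m, h⟩).1 else m
    have hTl : ∀ m, m.length = n - 1 → (T m).length = m.length := by
      intro m hm
      simp only [T, hm, dif_pos]
      exact (θ ⟨m, hm⟩).2
    have hTl' : ∀ m, m.length = n - 1 → (T' m).length = m.length := by
      intro m hm
      simp only [T', hm, dif_pos]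
      exact (θ.symm ⟨m, hm⟩).2
    have hTT : ∀ m, m.length = n - 1 → T' (T m) = m := by
      intro m hm
      have h1 : (T m).length = n - 1 := by rw [hTl m hm, hm]
      have h2 : T m = (θ ⟨m, hm⟩).1 := by simp only [T, hm, dif_pos]
      have h3 : T' (T m) = (θ.symm ⟨T m, h1⟩).1 := by simp only [T', h1, dif_pos]
      rw [h3]
      have h4 : (⟨T m, h1⟩ : W) = θ ⟨m, hm⟩ := Subtype.ext h2
      rw [h4, Equiv.symm_apply_apply]
    have hTT' : ∀ m, m.length = n - 1 → T (T' m) = m := by
      intro m hm
      have h1 : (T' m).length = n - 1 := by rw [hTl' m hm, hm]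
      have h2 : T' m = (θ.symm ⟨m, hm⟩).1 := by simp only [T', hm, dif_pos]
      have h3 : T (T' m) = (θ ⟨T' m, h1⟩).1 := by simp only [T, h1, dif_pos]
      rw [h3]
      have h4 : (⟨T' m, h1⟩ : W) = θ.symm ⟨m, hm⟩ := Subtype.ext h2
      rw [h4, Equiv.apply_symm_apply]
    have hml : ∀ w : List Bool, w.length = n + 1 → (mid w).length = n - 1 := by
      intro w hw
      simp only [mid, List.length_dropLast, List.length_tail, hw]
      omega
    have hRT : ∀ g h, (g ++ (P ++ h)).length = n + 1 →
        T (mid (g ++ (P ++ h))) = mid (F g ++ (Q ++ F h)) := by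
      intro g h hgh
      have h1 := hml _ hgh
      have h2 := hml _ (hlenF g h hgh)
      have h3 := hθ ⟨_, h1⟩ ⟨_, h2⟩ ⟨g, h, hgh, rfl, rfl⟩
      have h4 : T (mid (g ++ (P ++ h))) = (θ ⟨mid (g ++ (P ++ h)), h1⟩).1 := by
        simp only [T, h1, dif_pos]
      rw [h4, h3]
    have hRT' : ∀ g h, (g ++ (Q ++ h)).length = n + 1 →
        T' (mid (g ++ (Q ++ h))) = mid (F' g ++ (P ++ F' h)) := by
      intro g h hgh
      have l1 : (g ++ (Q ++ h)).length = g.length + (Q.length + h.length) := by simp
      have hQl : 1 ≤ Q.length := List.length_pos_iff.2 hQ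
      have lg := hF'.len g (by omega)
      have lh := hF'.len h (by omega)
      have hlen : (F' g ++ (P ++ F' h)).length = n + 1 := by
        rw [List.length_append, List.length_append, lg, lh, hl]; omega
      have h5 := hRT (F' g) (F' h) hlen
      rw [hi2 g (by omega), hi2 h (by omega)] at h5
      rw [← h5, hTT _ (hml _ hlen)]
    refine ⟨ext (n + 1) T F, ext (n + 1) T' F', ?_, ?_, ?_, ?_⟩
    · exact good_ext hF hn hP hQ hl hhd hlt hTl hRT
    · exact good_ext hF' hn hQ hP hl.symm hhd.symm hlt.symm hTl' hRT'
    · intro w hw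
      rcases Nat.lt_or_ge w.length (n + 1) with h | h
      · rw [ext_low _ _ _ _ h, ext_low _ _ _ _ (by rw [hF.len w (by omega)]; omega)]
        exact hi1 w (by omega)
      · obtain ⟨x, m, y, hw', hm, -⟩ := shape w (le_antisymm hw h) (by omega)
        rw [hw', ext_top _ _ _ _ _ _ hm,
          ext_top _ _ _ _ _ _ (by rw [hTl m (by omega)]; exact hm), hTT m (by omega)]
    · intro w hw
      rcases Nat.lt_or_ge w.length (n + 1) with h | h
      · rw [ext_low _ _ _ _ h, ext_low _ _ _ _ (by rw [hF'.len w (by omega)]; omega)]
        exact hi2 w (by omega)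
      · obtain ⟨x, m, y, hw', hm, -⟩ := shape w (le_antisymm hw h) (by omega)
        rw [hw', ext_top _ _ _ _ _ _ hm,
          ext_top _ _ _ _ _ _ (by rw [hTl' m (by omega)]; exact hm), hTT' m (by omega)]

end Pool.Agent.V11244.KwBij
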