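import Pool.Agent.V11244.ChooseX

/-!
# The strong countable fan tightness game in transitive models of ZFC

Everything takes place inside the type `ZFSet.{0}` of all sets. A class `M : Set ZFSet.{0}` is
viewed as the structure `(M, ∈)`; the transitive models `IsZFC M` of ZFC are those of
`Pool.Agent.W868.Defs`.
-/

set_option autoImplicit false
set_option linter.unreachableTactic false
set_option linter.unusedTactic false
set_option linter.unusedSectionVars false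

namespace Pool.Agent.V11244.InnerGame

open Pool.Agent.W868
open ZFSet (pair)

/-! ### Definitions -/

/-- The finite sequence `⟨v 0, …, v (n-1)⟩`: the set of the pairs `(k, v k)` for `k < n`. -/
noncomputable def sq (v : ℕ → ZFSet.{0}) : ℕ → ZFSet.{0}
  | 0 => ∅
  | n + 1 => insert (pair (nat n) (v n)) (sq v n)

/-- The infinite sequence `⟨v n : n ∈ ω⟩`: the set of the pairs `(n, v n)` for `n ∈ ω`. -/
noncomputable def sqω (v : ℕ → ZFSet.{0}) : ZFSet.{0} :=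
  ZFSet.range fun n : ℕ => pair (nat n) (v n)

/-- In `M`, the set `A` is a legal move of player I in the game at the point `x` of the set `X`
with the topology which has `τ` as a base: `A` is a subset of `X` in `M` which meets all the sets
in `τ` that contain `x`, that is, `x` is in the closure of `A`. -/
def Legal (M : Set ZFSet.{0}) (X τ x A : ZFSet.{0}) : Prop :=
  A ∈ M ∧ A ⊆ X ∧ ∀ U ∈ τ, x ∈ U → ∃ y ∈ A, y ∈ U

/-- In `M`, player II has a winning strategy `σ` in the strong countable fan tightness game at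
the point `x` of the set `X` with the topology which has `τ` as a base. The strategy answers
every finite sequence `⟨A_0, …, A_n⟩` of legal moves in `M` with a point of `A_n`, and for every
infinite sequence in `M` of legal moves in `M`, every set `U` in `τ` which contains `x` contains
one of the answers, that is, `x` is in the closure of the set of the answers. -/
def WinsIn (M : Set ZFSet.{0}) (X τ x : ZFSet.{0}) : Prop :=
  ∃ σ ∈ M,
    (∀ (v : ℕ → ZFSet.{0}) (n : ℕ), (∀ k ≤ n, Legal M X τ x (v k)) →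
      ∃ y ∈ v n, ∀ z, pair (sq v (n + 1)) z ∈ σ ↔ z = y) ∧
    ∀ v : ℕ → ZFSet.{0}, (∀ n, Legal M X τ x (v n)) → sqω v ∈ M →
      ∀ U ∈ τ, x ∈ U → ∃ n, ∃ y ∈ U, pair (sq v (n + 1)) y ∈ σ

/-! ### Finite sequences -/

theorem mem_nat {x : ZFSet.{0}} {n : ℕ} : x ∈ nat n ↔ ∃ k < n, x = nat k := by
  induction n with
  | zero => simp [nat]
  | succ n ih =>
    rw [nat, ZFSet.mem_insert_iff, ih]
    constructor
    · rintro (rfl | ⟨k, hk, rfl⟩)
      · exact ⟨n, Nat.lt_succ_self n, rfl⟩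
      · exact ⟨k, hk.trans (Nat.lt_succ_self n), rfl⟩
    · rintro ⟨k, hk, rfl⟩
      rcases Nat.lt_succ_iff_lt_or_eq.1 hk with h | rfl
      · exact Or.inr ⟨k, h, rfl⟩
      · exact Or.inl rfl

theorem mem_sq {v : ℕ → ZFSet.{0}} {n : ℕ} {p : ZFSet.{0}} :
    p ∈ sq v n ↔ ∃ k < n, p = pair (nat k) (v k) := by
  induction n with
  | zero => simp [sq]
  | succ n ih =>
    rw [sq, ZFSet.mem_insert_iff, ih]
    constructor
    · rintro (rfl | ⟨k, hk, rfl⟩)
      · exact ⟨n, Nat.lt_succ_self n, rfl⟩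
      · exact ⟨k, hk.trans (Nat.lt_succ_self n), rfl⟩
    · rintro ⟨k, hk, rfl⟩
      rcases Nat.lt_succ_iff_lt_or_eq.1 hk with h | rfl
      · exact Or.inr ⟨k, h, rfl⟩
      · exact Or.inl rfl

theorem mem_sqω {v : ℕ → ZFSet.{0}} {p : ZFSet.{0}} :
    p ∈ sqω v ↔ ∃ k, p = pair (nat k) (v k) := by
  rw [sqω, ZFSet.mem_range]
  exact ⟨fun ⟨k, h⟩ => ⟨k, h.symm⟩, fun ⟨k, h⟩ => ⟨k, h.symm⟩⟩

theorem sq_subset {v w : ℕ → ZFSet.{0}} {n m : ℕ} :
    sq v n ⊆ sq w m ↔ n ≤ m ∧ ∀ k < n, v k = w k := by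
  constructor
  · intro h
    have key : ∀ k < n, k < m ∧ v k = w k := by
      intro k hk
      obtain ⟨j, hj, h1⟩ := mem_sq.1 (h (mem_sq.2 ⟨k, hk, rfl⟩))
      obtain ⟨h2, h3⟩ := ZFSet.pair_inj.1 h1
      have := nat_injective h2
      subst this
      exact ⟨hj, h3⟩
    refine ⟨?_, fun k hk => (key k hk).2⟩
    by_contra hlt
    push Not at hlt
    exact lt_irrefl _ (key m hlt).1
  · rintro ⟨h1, h2⟩ p hp
    obtain ⟨k, hk, rfl⟩ := mem_sq.1 hp
    exact mem_sq.2 ⟨k, hk.trans_le h1, by rw [h2 k hk]⟩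

theorem sq_congr {v w : ℕ → ZFSet.{0}} {n : ℕ} (h : ∀ k < n, v k = w k) : sq v n = sq w n := by
  ext p
  rw [mem_sq, mem_sq]
  exact exists_congr fun k => and_congr_right fun hk => by rw [h k hk]

theorem sq_inj {v w : ℕ → ZFSet.{0}} {n m : ℕ} (h : sq v n = sq w m) :
    n = m ∧ ∀ k < n, v k = w k := by
  have h1 := sq_subset.1 (show sq v n ⊆ sq w m by rw [h])
  have h2 := sq_subset.1 (show sq w m ⊆ sq v n by rw [h])
  exact ⟨le_antisymm h1.1 h2.1, h1.2⟩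

theorem im_fs_sq (v : ℕ → ZFSet.{0}) (n : ℕ) : im fs (sq v n) = nat n := by
  ext x
  rw [mem_im, mem_nat]
  constructor
  · rintro ⟨p, hp, rfl⟩
    obtain ⟨k, hk, rfl⟩ := mem_sq.1 hp
    exact ⟨k, hk, by rw [fs_pair]⟩
  · rintro ⟨k, hk, rfl⟩
    exact ⟨_, mem_sq.2 ⟨k, hk, rfl⟩, by rw [fs_pair]⟩

/-- Appending an element to a sequence. -/
noncomputable def cat (s B : ZFSet.{0}) : ZFSet.{0} := insert (pair (im fs s) B) s

theorem cat_sq (v : ℕ → ZFSet.{0}) (n : ℕ) : cat (sq v n) (v n) = sq v (n + 1) := by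
  rw [cat, im_fs_sq, sq]

theorem cat_sq' (v : ℕ → ZFSet.{0}) (n : ℕ) (B : ZFSet.{0}) :
    cat (sq v n) B = sq (Function.update v n B) (n + 1) := by
  have h : sq v n = sq (Function.update v n B) n :=
    sq_congr fun k hk => by rw [Function.update_of_ne hk.ne]
  rw [h]
  conv_lhs => rw [show B = Function.update v n B n by simp]
  have h2 := cat_sq (Function.update v n B) n
  simpa using h2

/-- The set of the finite sequences of elements of `L`. -/
noncomputable def SEQ (L : ZFSet.{0}) : ZFSet.{0} :=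
  itr (fun z => im (fun p => cat (fs p) (sn p)) (ZFSet.prod z L)) {∅} ZFSet.omega

theorem mem_SEQ {L s : ZFSet.{0}} :
    s ∈ SEQ L ↔ ∃ (n : ℕ) (v : ℕ → ZFSet.{0}), (∀ k < n, v k ∈ L) ∧ s = sq v n := by
  constructor
  · intro h
    obtain ⟨k, hk⟩ := mem_itr_omega h
    clear h
    induction k using Nat.strong_induction_on generalizing s with
    | _ k ih =>
    rcases mem_itr.1 hk with h | ⟨u, hu, h⟩
    · rw [ZFSet.mem_singleton] at h
      exact ⟨0, fun _ => ∅, fun k hk => absurd hk (Nat.not_lt_zero k), h⟩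
    · obtain ⟨j, hj, rfl⟩ := mem_nat.1 hu
      obtain ⟨p, hp, rfl⟩ := mem_im.1 h
      obtain ⟨t, ht, B, hB, rfl⟩ := ZFSet.mem_prod.1 hp
      obtain ⟨n, v, hv, rfl⟩ := ih j hj ht
      rw [fs_pair, sn_pair, cat_sq']
      refine ⟨n + 1, Function.update v n B, fun i hi => ?_, rfl⟩
      rcases Nat.lt_succ_iff_lt_or_eq.1 hi with h | rfl
      · rw [Function.update_of_ne h.ne]; exact hv i h
      · simpa using hB
  · rintro ⟨n, v, hv, rfl⟩
    induction n with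
    | zero => exact itr_base (ZFSet.mem_singleton.2 rfl)
    | succ n ih =>
      have h1 := ih fun k hk => hv k (hk.trans (Nat.lt_succ_self n))
      obtain ⟨k, hk⟩ := mem_itr_omega h1
      refine itr_step (nat_mem_omega k) (mem_im.2 ⟨pair (sq v n) (v n), ?_, ?_⟩)
      · exact ZFSet.pair_mem_prod.2 ⟨hk, hv n (Nat.lt_succ_self n)⟩
      · rw [fs_pair, sn_pair, cat_sq]

section

variable {M : Set ZFSet.{0}} (hM : IsZF M) {n : ℕ} {F G : (Fin n → ZFSet.{0}) → ZFSet.{0}}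

include hM

theorem cat' (hF : DfnF M M F) (hG : DfnF M M G) : DfnF M M fun v => cat (F v) (G v) := by
  unfold cat
  refine hM.base.insert' (hM.base.pair' ?_ hG) hF
  exact hM.im' (h := fun p _ => fs p) hF (hM.fs' (DfnF.proj 0))

theorem cat_mem {s B : ZFSet.{0}} (hs : s ∈ M) (hB : B ∈ M) : cat s B ∈ M :=
  (cat' hM (DfnF.const hs) (DfnF.const hB)).1 Fin.elim0 fun i => i.elim0

theorem SEQ_mem {L : ZFSet.{0}} (hL : L ∈ M) : SEQ L ∈ M := by
  refine itr_mem_M hM (hM.single_mem hM.empty_mem) hM.infinity ?_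
  refine hM.im' (h := fun p _ => cat (fs p) (sn p)) (hM.prod' (DfnF.proj 0) (DfnF.const hL)) ?_
  exact cat' hM (hM.fs' (DfnF.proj 0)) (hM.sn' (DfnF.proj 0))

/-! ### Well-founded sets of sets -/

/-- If in `M` every nonempty subset of `T` has a maximal element, then there is no strictly
increasing sequence in `T`, even outside `M`. -/
theorem no_chain {T : ZFSet.{0}} (hT : T ∈ M)
    (hwf : ∀ S ∈ M, S ⊆ T → (∃ s, s ∈ S) → ∃ s ∈ S, ∀ t ∈ S, s ⊆ t → t = s) :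
    ¬ ∃ s : ℕ → ZFSet.{0}, (∀ n, s n ∈ T) ∧ ∀ n, s n ⊆ s (n + 1) ∧ s (n + 1) ≠ s n := by
  have hB := hM.base
  set Γ : ZFSet.{0} → ZFSet.{0} := fun Z => ZFSet.sep (fun s => ∀ t ∈ T, s ⊆ t → t ≠ s → t ∈ Z) T
    with hΓ
  have hΓd : DfnF M M fun w : Fin 1 → ZFSet.{0} => Γ (w 0) := by
    refine hM.sep' (Q := fun s w => ∀ t ∈ T, s ⊆ t → t ≠ s → t ∈ w 0) (DfnF.const hT) ?_
    apply hB.ball (DfnF.const hT)
    exact (hB.subset' (DfnF.proj 1) (DfnF.proj 0)).imp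
      ((Dfn.eq (DfnF.proj 0) (DfnF.proj 1)).not.imp (Dfn.mem (DfnF.proj 0) (DfnF.proj 2)))
  set W : ZFSet.{0} → ZFSet.{0} := itr Γ ∅ with hW
  have hWd : DfnF M M fun w : Fin 1 → ZFSet.{0} => W (w 0) := dfn_itr hM hM.empty_mem hΓd
  have hWmem : ∀ {z s}, s ∈ W z ↔ ∃ u ∈ z, s ∈ T ∧ ∀ t ∈ T, s ⊆ t → t ≠ s → t ∈ W u := by
    intro z s
    rw [hW, mem_itr]
    simp only [ZFSet.notMem_empty, false_or, hΓ, ZFSet.mem_sep]
  -- the well-founded part
  set T' := ZFSet.sep (fun s => ∃ z ∈ M, s ∈ W z) T with hT'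
  have hd1 : Dfn M M fun w : Fin 1 → ZFSet.{0} => ∃ z ∈ M, w 0 ∈ W z := by
    apply Dfn.ex
    exact Dfn.mem (DfnF.proj 1) (DfnF.comp1 (f := W) hWd (DfnF.proj 0))
  have hT'M : T' ∈ M := hM.sep_mem (Q := fun s => ∃ z ∈ M, s ∈ W z) hd1 hT
  obtain ⟨Y, hY, hY1⟩ := hM.collectX hT'M (Q := fun z s => s ∈ W z)
    (Dfn.mem (DfnF.proj 1) (DfnF.comp1 (f := W) hWd (DfnF.proj 0)))
    (fun s hs => (ZFSet.mem_sep.1 hs).2)
  set δ := ZFSet.sUnion Y with hδ
  have hδM : δ ∈ M := hM.union _ hY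
  have hsub : ∀ s ∈ T', s ∈ W δ := by
    intro s hs
    obtain ⟨z, hz, h1⟩ := hY1 s hs
    exact itr_mono (fun u hu => ZFSet.mem_sUnion.2 ⟨z, hz, hu⟩) h1
  set S := ZFSet.sep (fun s => s ∉ T') T with hS
  have hSM : S ∈ M := hM.sep_mem (Q := fun s => s ∉ T')
    (Dfn.mem (DfnF.proj 0) (DfnF.const hT'M)).not hT
  have hempty : ¬ ∃ s, s ∈ S := by
    intro hne
    obtain ⟨s, hs, hmax⟩ := hwf S hSM (fun s hs => (ZFSet.mem_sep.1 hs).1) hne
    obtain ⟨hsT, hsT'⟩ := ZFSet.mem_sep.1 hs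
    apply hsT'
    refine ZFSet.mem_sep.2 ⟨hsT, {δ}, hM.single_mem hδM, ?_⟩
    rw [hWmem]
    refine ⟨δ, ZFSet.mem_singleton.2 rfl, hsT, fun t ht hst hne' => hsub t ?_⟩
    by_contra htT'
    exact hne' (hmax t (ZFSet.mem_sep.2 ⟨ht, htT'⟩) hst)
  have hall : ∀ s ∈ T, s ∈ W δ := by
    intro s hs
    by_contra h
    exact hempty ⟨s, ZFSet.mem_sep.2 ⟨hs, fun h' => h (hsub s h')⟩⟩
  -- no chains
  have hno : ∀ z : ZFSet.{0}, ∀ s : ℕ → ZFSet.{0}, (∀ n, s n ∈ T) →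
      (∀ n, s n ⊆ s (n + 1) ∧ s (n + 1) ≠ s n) → s 0 ∉ W z := by
    intro z
    induction z using ZFSet.inductionOn with
    | _ z ih =>
    intro s h1 h2 h3
    obtain ⟨u, hu, -, h4⟩ := hWmem.1 h3
    have h5 := h4 (s 1) (h1 1) (h2 0).1 (h2 0).2
    exact ih u hu (fun n => s (n + 1)) (fun n => h1 _) (fun n => h2 _) h5
  rintro ⟨s, h1, h2⟩
  exact hno δ s h1 h2 (hall _ (h1 0))

end

/-! ### The tree of bad positions -/

section

variable {M : Set ZFSet.{0}} {X τ x : ZFSet.{0}}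

/-- The set of the legal moves in `M`. -/
noncomputable def leg (M : Set ZFSet.{0}) (X τ x : ZFSet.{0}) : ZFSet.{0} :=
  ZFSet.sep (fun A => ∀ U ∈ τ, x ∈ U → ∃ y ∈ A, y ∈ U) (pwWX M X)

theorem mem_leg {A : ZFSet.{0}} : A ∈ leg M X τ x ↔ Legal M X τ x A := by
  rw [leg, ZFSet.mem_sep, mem_pwWX, Legal]
  tauto

theorem leg_mem (hM : IsZF M) (hX : X ∈ M) (hτ : τ ∈ M) (hx : x ∈ M) : leg M X τ x ∈ M := by
  have hB := hM.base
  refine hM.sep_mem (Q := fun A => ∀ U ∈ τ, x ∈ U → ∃ y ∈ A, y ∈ U) ?_ (hM.pwWX_mem hX)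
  apply hB.ball (DfnF.const hτ)
  refine (Dfn.mem (DfnF.const hx) (DfnF.proj 0)).imp ?_
  apply hB.bex (DfnF.proj 1)
  exact Dfn.mem (DfnF.proj 0) (DfnF.proj 1)

/-- The tree of the sequences of legal moves with all answers outside `U`. -/
noncomputable def tree (L σ U : ZFSet.{0}) : ZFSet.{0} :=
  ZFSet.sep (fun s => ∀ t ∈ SEQ L, t ⊆ s → t ≠ ∅ → ∀ y ∈ U, pair t y ∉ σ) (SEQ L)

theorem tree_mem (hM : IsZF M) {L σ U : ZFSet.{0}} (hL : L ∈ M) (hσ : σ ∈ M) (hU : U ∈ M) :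
    tree L σ U ∈ M := by
  have hB := hM.base
  have hS := SEQ_mem hM hL
  refine hM.sep_mem (Q := fun s => ∀ t ∈ SEQ L, t ⊆ s → t ≠ ∅ → ∀ y ∈ U, pair t y ∉ σ) ?_ hS
  apply hB.ball (DfnF.const hS)
  refine (hB.subset' (DfnF.proj 0) (DfnF.proj 1)).imp
    ((Dfn.eq (DfnF.proj 0) (DfnF.const hM.empty_mem)).not.imp ?_)
  apply hB.ball (DfnF.const hU)
  exact (Dfn.mem (hB.pair' (DfnF.proj 1) (DfnF.proj 0)) (DfnF.const hσ)).not

/-- A set of sequences in `M` without maximal element gives an infinite sequence in `M`. -/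
theorem exists_run (hM : IsZFC M) {L S : ZFSet.{0}} (hS : S ∈ M) (hSL : S ⊆ SEQ L)
    (hne : ∃ s, s ∈ S) (hmax : ¬ ∃ s ∈ S, ∀ t ∈ S, s ⊆ t → t = s) :
    ∃ v : ℕ → ZFSet.{0}, (∀ n, v n ∈ L) ∧ sqω v ∈ M ∧ ∀ n, ∃ s ∈ S, sq v n ⊆ s := by
  have hZ := hM.toIsZF
  have hB := hZ.base
  obtain ⟨s0, hs0⟩ := hne
  push Not at hmax
  obtain ⟨F, hF, -, -, hF1⟩ := hM.chooseX hS (Q := fun t s => t ∈ S ∧ s ⊆ t ∧ t ≠ s) (by
    exact (Dfn.mem (DfnF.proj 0) (DfnF.const hS)).and ((hB.subset' (DfnF.proj 1)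
      (DfnF.proj 0)).and (Dfn.eq (DfnF.proj 0) (DfnF.proj 1)).not)) (by
    intro s hs
    obtain ⟨t, ht, h1, h2⟩ := hmax s hs
    exact ⟨t, hZ.trans _ hS _ ht, ht, h1, h2⟩)
  let s : ℕ → ZFSet.{0} := fun n => Nat.rec s0 (fun _ t => ap F t) n
  have hs : ∀ n, s n ∈ S := by
    intro n
    induction n with
    | zero => exact hs0
    | succ n ih => exact (hF1 (s n) ih).1
  have hstep : ∀ n, s n ⊆ s (n + 1) ∧ s (n + 1) ≠ s n := fun n => (hF1 (s n) (hs n)).2
  have hmono : ∀ {n m}, n ≤ m → s n ⊆ s m := by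
    intro n m h
    induction m, h using Nat.le_induction with
    | base => exact fun _ h => h
    | succ m _ ih => exact fun p hp => (hstep m).1 (ih hp)
  have hitr : ∀ k, itr (fun t => ap F t) s0 (nat k) = s k := by
    intro k
    induction k using Nat.strong_induction_on with
    | _ k ih =>
    ext p
    rw [mem_itr]
    constructor
    · rintro (h | ⟨u, hu, h⟩)
      · exact hmono (Nat.zero_le k) h
      · obtain ⟨j, hj, rfl⟩ := mem_nat.1 hu
        rw [ih j hj] at h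
        exact hmono (Nat.succ_le_of_lt hj) h
    · intro hp
      cases k with
      | zero => exact Or.inl hp
      | succ k =>
        right
        refine ⟨nat k, mem_nat.2 ⟨k, Nat.lt_succ_self k, rfl⟩, ?_⟩
        rw [ih k (Nat.lt_succ_self k)]
        exact hp
  set f := itr (fun t => ap F t) s0 ZFSet.omega with hf
  have hfM : f ∈ M := by
    refine itr_mem_M hZ (hZ.trans _ hS _ hs0) hZ.infinity ?_
    exact hZ.ap' (DfnF.const hF) (DfnF.proj 0)
  have hmemf : ∀ p, p ∈ f ↔ ∃ k, p ∈ s k := by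
    intro p
    constructor
    · intro h
      obtain ⟨k, hk⟩ := mem_itr_omega h
      rw [hitr] at hk
      exact ⟨k, hk⟩
    · rintro ⟨k, hk⟩
      rw [← hitr] at hk
      exact itr_mono nat_subset_omega hk
  -- the sequences
  have hseq : ∀ k, ∃ (n : ℕ) (v : ℕ → ZFSet.{0}), (∀ i < n, v i ∈ L) ∧ s k = sq v n :=
    fun k => mem_SEQ.1 (hSL (hs k))
  choose n v hvL hv using hseq
  have hn : ∀ k, n k < n (k + 1) := by
    intro k
    obtain ⟨h1, h2⟩ := hstep k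
    rw [hv k, hv (k + 1)] at h1 h2
    obtain ⟨h3, h4⟩ := sq_subset.1 h1
    refine lt_of_le_of_ne h3 fun h5 => h2 ?_
    rw [← h5]
    exact (sq_congr h4).symm
  have hnk : ∀ k, k ≤ n k := by
    intro k
    induction k with
    | zero => exact Nat.zero_le _
    | succ k ih => exact Nat.succ_le_of_lt (ih.trans_lt (hn k))
  have hagree : ∀ {j k}, j ≤ k → ∀ i < n j, v j i = v k i := by
    intro j k h
    have := hmono h
    rw [hv j, hv k] at this
    exact (sq_subset.1 this).2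
  let w : ℕ → ZFSet.{0} := fun i => v (i + 1) i
  have hw : ∀ k, ∀ i < n k, v k i = w i := by
    intro k i hi
    rcases le_total k (i + 1) with h | h
    · exact hagree h i hi
    · exact (hagree h i (hnk (i + 1))).symm
  have hsw : ∀ k, s k = sq w (n k) := fun k => by rw [hv k]; exact sq_congr (hw k)
  refine ⟨w, fun i => hvL (i + 1) i (hnk (i + 1)), ?_, fun k => ⟨s k, hs k, ?_⟩⟩
  · have : sqω w = f := by
      ext p
      rw [mem_sqω, hmemf]
      constructor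
      · rintro ⟨k, rfl⟩
        refine ⟨k + 1, ?_⟩
        rw [show s (k + 1) = _ from hsw (k + 1)]
        exact mem_sq.2 ⟨k, hnk (k + 1), rfl⟩
      · rintro ⟨k, hk⟩
        rw [hsw] at hk
        obtain ⟨i, -, rfl⟩ := mem_sq.1 hk
        exact ⟨i, rfl⟩
    rw [this]
    exact hfM
  · rw [hsw]
    exact sq_subset.2 ⟨hnk k, fun _ _ => rfl⟩

/-- The tree of the bad positions has no branch, even outside `M`. -/
theorem tree_no_chain (hM : IsZFC M) (hX : X ∈ M) (hτ : τ ∈ M) (hx : x ∈ M) {σ U : ZFSet.{0}}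
    (hσ : σ ∈ M) (hU : U ∈ τ) (hxU : x ∈ U)
    (hwin : ∀ v : ℕ → ZFSet.{0}, (∀ n, Legal M X τ x (v n)) → sqω v ∈ M →
      ∀ U ∈ τ, x ∈ U → ∃ n, ∃ y ∈ U, pair (sq v (n + 1)) y ∈ σ) :
    ¬ ∃ s : ℕ → ZFSet.{0}, (∀ n, s n ∈ tree (leg M X τ x) σ U) ∧
      ∀ n, s n ⊆ s (n + 1) ∧ s (n + 1) ≠ s n := by
  have hZ := hM.toIsZF
  have hL := leg_mem hZ hX hτ hx
  have hUM := hZ.trans _ hτ _ hU
  refine no_chain hZ (tree_mem hZ hL hσ hUM) ?_
  intro S hS hST hne
  by_contra hmax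
  obtain ⟨v, hv, hvM, hvS⟩ := exists_run hM hS (fun s hs => (ZFSet.mem_sep.1 (hST hs)).1) hne hmax
  obtain ⟨n, y, hy, h1⟩ := hwin v (fun n => mem_leg.1 (hv n)) hvM U hU hxU
  obtain ⟨s, hs, hsub⟩ := hvS (n + 1)
  have h2 := (ZFSet.mem_sep.1 (hST hs)).2 (sq v (n + 1)) (mem_SEQ.2 ⟨n + 1, v, fun k _ => hv k, rfl⟩)
    hsub ?_ y hy
  · exact h2 h1
  · intro h
    have : pair (nat n) (v n) ∈ sq v (n + 1) := mem_sq.2 ⟨n, Nat.lt_succ_self n, rfl⟩
    rw [h] at this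
    exact ZFSet.notMem_empty _ this

/-! ### The strategy in the larger model -/

/-- The simulation: the sequence of moves in `M`. -/
noncomputable def sim (h : ZFSet.{0}) (v : ℕ → ZFSet.{0}) : ℕ → ZFSet.{0}
  | 0 => ∅
  | n + 1 => cat (sim h v n) (ap h (pair (sim h v n) (v n)))

theorem sim_eq (h : ZFSet.{0}) (v : ℕ → ZFSet.{0}) (n : ℕ) :
    sim h v n = sq (fun k => ap h (pair (sim h v k) (v k))) n := by
  induction n with
  | zero => rfl
  | succ n ih =>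
    have h1 : im fs (sim h v n) = nat n := by rw [ih, im_fs_sq]
    rw [sim, cat, h1, sq, ← ih]

theorem sim_congr (h : ZFSet.{0}) {v w : ℕ → ZFSet.{0}} {n : ℕ} (hvw : ∀ k < n, v k = w k) :
    sim h v n = sim h w n := by
  induction n with
  | zero => rfl
  | succ n ih =>
    rw [sim, sim, ih fun k hk => hvw k (hk.trans (Nat.lt_succ_self n)),
      hvw n (Nat.lt_succ_self n)]

/-- One step of the simulation. -/
noncomputable def stp (h L' Z : ZFSet.{0}) : ZFSet.{0} :=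
  im (fun p => pair (cat (fs (fs p)) (sn p))
    (cat (sn (fs p)) (ap h (pair (sn (fs p)) (sn p))))) (ZFSet.prod Z L')

/-- The set of pairs of a sequence and its simulation. -/
noncomputable def SIM (h L' : ZFSet.{0}) : ZFSet.{0} := itr (stp h L') {pair ∅ ∅} ZFSet.omega

theorem mem_SIM {h L' p : ZFSet.{0}} : p ∈ SIM h L' ↔
    ∃ (n : ℕ) (v : ℕ → ZFSet.{0}), (∀ k < n, v k ∈ L') ∧ p = pair (sq v n) (sim h v n) := by
  constructor
  · intro hp
    obtain ⟨k, hk⟩ := mem_itr_omega hp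
    clear hp
    induction k using Nat.strong_induction_on generalizing p with
    | _ k ih =>
    rcases mem_itr.1 hk with h1 | ⟨u, hu, h1⟩
    · rw [ZFSet.mem_singleton] at h1
      exact ⟨0, fun _ => ∅, fun k hk => absurd hk (Nat.not_lt_zero k), h1⟩
    · obtain ⟨j, hj, rfl⟩ := mem_nat.1 hu
      obtain ⟨q, hq, rfl⟩ := mem_im.1 h1
      obtain ⟨t, ht, B, hB, rfl⟩ := ZFSet.mem_prod.1 hq
      obtain ⟨n, v, hv, rfl⟩ := ih j hj ht
      simp only [fs_pair, sn_pair]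
      refine ⟨n + 1, Function.update v n B, fun i hi => ?_, ?_⟩
      · rcases Nat.lt_succ_iff_lt_or_eq.1 hi with h | rfl
        · rw [Function.update_of_ne h.ne]; exact hv i h
        · simpa using hB
      · have h3 : sim h (Function.update v n B) n = sim h v n :=
          sim_congr h fun k hk => by rw [Function.update_of_ne hk.ne]
        rw [cat_sq', sim, h3, Function.update_self]
  · rintro ⟨n, v, hv, rfl⟩
    induction n with
    | zero => exact itr_base (ZFSet.mem_singleton.2 rfl)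
    | succ n ih =>
      have h1 := ih fun k hk => hv k (hk.trans (Nat.lt_succ_self n))
      obtain ⟨k, hk⟩ := mem_itr_omega h1
      refine itr_step (nat_mem_omega k) (mem_im.2 ⟨pair (pair (sq v n) (sim h v n)) (v n), ?_, ?_⟩)
      · exact ZFSet.pair_mem_prod.2 ⟨hk, hv n (Nat.lt_succ_self n)⟩
      · simp only [fs_pair, sn_pair]
        rw [cat_sq, sim]

theorem SIM_mem (hM : IsZF M) {h L' : ZFSet.{0}} (hh : h ∈ M) (hL' : L' ∈ M) :
    SIM h L' ∈ M := by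
  refine itr_mem_M hM (hM.single_mem (hM.pair_mem hM.empty_mem hM.empty_mem)) hM.infinity ?_
  unfold stp
  refine hM.im' (h := fun p _ => pair (cat (fs (fs p)) (sn p))
    (cat (sn (fs p)) (ap h (pair (sn (fs p)) (sn p))))) (hM.prod' (DfnF.proj 0) (DfnF.const hL')) ?_
  have h1 : DfnF M M fun w : Fin 2 → ZFSet.{0} => sn (fs (w 0)) :=
    hM.sn' (hM.fs' (DfnF.proj 0))
  have h2 : DfnF M M fun w : Fin 2 → ZFSet.{0} => sn (w 0) := hM.sn' (DfnF.proj 0)
  exact hM.base.pair' (cat' hM (hM.fs' (hM.fs' (DfnF.proj 0))) h2)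
    (cat' hM h1 (hM.ap' (DfnF.const hh) (hM.base.pair' h1 h2)))

end

/-- **Main theorem.** -/
theorem main {M N : Set ZFSet.{0}} (hM : IsZFC M) (hN : IsZFC N) (hMN : M ⊆ N)
    {X τ x : ZFSet.{0}} (hX : X ∈ M) (hτ : τ ∈ M) (hx : x ∈ M) (hwin : WinsIn M X τ x) :
    WinsIn N X τ x := by
  obtain ⟨σ, hσ, hσ1, hσ2⟩ := hwin
  have hZ := hM.toIsZF
  have hZN := hN.toIsZF
  have hB := hZ.base
  have hBN := hZN.base
  set L := leg M X τ x with hLdef
  set L' := leg N X τ x with hL'def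
  have hL : L ∈ M := leg_mem hZ hX hτ hx
  have hL' : L' ∈ N := leg_mem hZN (hMN hX) (hMN hτ) (hMN hx)
  have hS : SEQ L ∈ M := SEQ_mem hZ hL
  -- one step
  have hone : ∀ s ∈ SEQ L, ∀ A ∈ L', ∃ B ∈ L, ∃ y ∈ A, pair (cat s B) y ∈ σ := by
    intro s hs A hA
    set D := ZFSet.sep (fun y => ¬ ∃ B ∈ L, pair (cat s B) y ∈ σ) X with hD
    have hsM : s ∈ M := hZ.trans _ hS _ hs
    have hDM : D ∈ M := by
      refine hZ.sep_mem (Q := fun y => ¬ ∃ B ∈ L, pair (cat s B) y ∈ σ) ?_ hX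
      apply Dfn.not
      apply hB.bex (DfnF.const hL)
      exact Dfn.mem (hB.pair' (cat' hZ (DfnF.const hsM) (DfnF.proj 0)) (DfnF.proj 1))
        (DfnF.const hσ)
    have hDL : ¬ Legal M X τ x D := by
      intro hDL
      obtain ⟨n, v, hv, rfl⟩ := mem_SEQ.1 hs
      obtain ⟨y, hy, hy1⟩ := hσ1 (Function.update v n D) n (by
        intro k hk
        rcases hk.lt_or_eq with h | rfl
        · rw [Function.update_of_ne h.ne]; exact mem_leg.1 (hv k h)
        · simpa using hDL)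
      rw [Function.update_self] at hy
      apply (ZFSet.mem_sep.1 hy).2
      refine ⟨D, mem_leg.2 hDL, ?_⟩
      rw [cat_sq']
      exact (hy1 y).2 rfl
    have h1 : ∃ U ∈ τ, x ∈ U ∧ ∀ y ∈ D, y ∉ U := by
      by_contra hcon
      push Not at hcon
      exact hDL ⟨hDM, fun y hy => (ZFSet.mem_sep.1 hy).1, hcon⟩
    obtain ⟨U, hU, hxU, hDU⟩ := h1
    obtain ⟨-, hAX, hA1⟩ := mem_leg.1 hA
    obtain ⟨y, hy, hyU⟩ := hA1 U hU hxU
    have hyD : y ∉ D := fun h => hDU y h hyU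
    have h2 : ∃ B ∈ L, pair (cat s B) y ∈ σ := by
      by_contra hcon
      exact hyD (ZFSet.mem_sep.2 ⟨hAX hy, hcon⟩)
    obtain ⟨B, hB1, hB2⟩ := h2
    exact ⟨B, hB1, y, hy, hB2⟩
  -- the choice function
  have hLN : L ∈ N := hMN hL
  have hσN : σ ∈ N := hMN hσ
  have hSN : SEQ L ∈ N := hMN hS
  obtain ⟨h, hhN, -, -, hh⟩ := hN.chooseX (hZN.prod_mem hSN hL')
    (Q := fun B z => B ∈ L ∧ ∃ y ∈ sn z, pair (cat (fs z) B) y ∈ σ) (by
      refine (Dfn.mem (DfnF.proj 0) (DfnF.const hLN)).and ?_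
      apply hBN.bex (hZN.sn' (DfnF.proj 1))
      exact Dfn.mem (hBN.pair' (cat' hZN (hZN.fs' (DfnF.proj 2)) (DfnF.proj 1)) (DfnF.proj 0))
        (DfnF.const hσN)) (by
      intro z hz
      obtain ⟨s, hs, A, hA, rfl⟩ := ZFSet.mem_prod.1 hz
      obtain ⟨B, hB1, h2⟩ := hone s hs A hA
      refine ⟨B, hZN.trans _ hLN _ hB1, hB1, ?_⟩
      rw [fs_pair, sn_pair]
      exact h2)
  have hh' : ∀ s ∈ SEQ L, ∀ A ∈ L', ap h (pair s A) ∈ L ∧
      ∃ y ∈ A, pair (cat s (ap h (pair s A))) y ∈ σ := by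
    intro s hs A hA
    have := hh (pair s A) (ZFSet.pair_mem_prod.2 ⟨hs, hA⟩)
    rwa [fs_pair, sn_pair] at this
  -- simulations
  have hsim : ∀ (v : ℕ → ZFSet.{0}) (n : ℕ), (∀ k < n, v k ∈ L') → sim h v n ∈ SEQ L ∧
      ∀ k < n, ap h (pair (sim h v k) (v k)) ∈ L := by
    intro v n
    induction n with
    | zero =>
      intro _
      exact ⟨mem_SEQ.2 ⟨0, v, fun k hk => absurd hk (Nat.not_lt_zero k), rfl⟩,
        fun k hk => absurd hk (Nat.not_lt_zero k)⟩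
    | succ n ih =>
      intro hv
      obtain ⟨h1, h2⟩ := ih fun k hk => hv k (hk.trans (Nat.lt_succ_self n))
      have h3 : ∀ k < n + 1, ap h (pair (sim h v k) (v k)) ∈ L := by
        intro k hk
        rcases Nat.lt_succ_iff_lt_or_eq.1 hk with h4 | rfl
        · exact h2 k h4
        · exact (hh' _ h1 _ (hv k (Nat.lt_succ_self k))).1
      refine ⟨?_, h3⟩
      rw [sim_eq]
      exact mem_SEQ.2 ⟨n + 1, _, h3, rfl⟩
  have hans : ∀ (v : ℕ → ZFSet.{0}) (n : ℕ), (∀ k ≤ n, v k ∈ L') →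
      ∃ y ∈ v n, y ∈ X ∧ ∀ z, pair (sim h v (n + 1)) z ∈ σ ↔ z = y := by
    intro v n hv
    obtain ⟨h1, h2⟩ := hsim v (n + 1) fun k hk => hv k (Nat.lt_succ_iff.1 hk)
    obtain ⟨h3, -⟩ := hsim v n fun k hk => hv k hk.le
    obtain ⟨y, hy, hy1⟩ := hσ1 (fun k => ap h (pair (sim h v k) (v k))) n
      (fun k hk => mem_leg.1 (h2 k (Nat.lt_succ_iff.2 hk)))
    rw [← sim_eq] at hy1
    obtain ⟨-, y', hy', h4⟩ := hh' _ h3 _ (hv n le_rfl)
    have h5 : y' = y := (hy1 y').1 h4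
    subst h5
    refine ⟨y', hy', ?_, hy1⟩
    exact (mem_leg.1 (hv n le_rfl)).2.1 hy'
  -- the strategy
  have hSIM : SIM h L' ∈ N := SIM_mem hZN hhN hL'
  have hSN' : SEQ L' ∈ N := SEQ_mem hZN hL'
  set σ' := ZFSet.sep (fun p => ∃ q ∈ SIM h L', fs q = fs p ∧ pair (sn q) (sn p) ∈ σ)
    (ZFSet.prod (SEQ L') X) with hσ'
  have hσ'N : σ' ∈ N := by
    refine hZN.sep_mem (Q := fun p => ∃ q ∈ SIM h L', fs q = fs p ∧ pair (sn q) (sn p) ∈ σ) ?_
      (hZN.prod_mem hSN' (hMN hX))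
    apply hBN.bex (DfnF.const hSIM)
    exact (Dfn.eq (hZN.fs' (DfnF.proj 0)) (hZN.fs' (DfnF.proj 1))).and
      (Dfn.mem (hBN.pair' (hZN.sn' (DfnF.proj 0)) (hZN.sn' (DfnF.proj 1))) (DfnF.const hσN))
  have hmem : ∀ (v : ℕ → ZFSet.{0}) (n : ℕ), (∀ k < n, v k ∈ L') → ∀ y,
      (pair (sq v n) y ∈ σ' ↔ y ∈ X ∧ pair (sim h v n) y ∈ σ) := by
    intro v n hv y
    rw [hσ', ZFSet.mem_sep, ZFSet.pair_mem_prod, fs_pair, sn_pair]
    constructor
    · rintro ⟨⟨-, hy⟩, q, hq, h1, h2⟩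
      obtain ⟨m, w, hw, rfl⟩ := mem_SIM.1 hq
      rw [fs_pair] at h1
      rw [sn_pair] at h2
      obtain ⟨rfl, h3⟩ := sq_inj h1
      rw [sim_congr h h3] at h2
      exact ⟨hy, h2⟩
    · rintro ⟨hy, h1⟩
      refine ⟨⟨mem_SEQ.2 ⟨n, v, hv, rfl⟩, hy⟩, pair (sq v n) (sim h v n),
        mem_SIM.2 ⟨n, v, hv, rfl⟩, ?_, ?_⟩
      · rw [fs_pair]
      · rwa [sn_pair]
  refine ⟨σ', hσ'N, ?_, ?_⟩
  · intro v n hv
    obtain ⟨y, hy, hyX, hy1⟩ := hans v n fun k hk => mem_leg.2 (hv k hk)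
    refine ⟨y, hy, fun z => ?_⟩
    rw [hmem v (n + 1) (fun k hk => mem_leg.2 (hv k (Nat.lt_succ_iff.1 hk))), hy1]
    constructor
    · exact fun h => h.2
    · rintro rfl
      exact ⟨hyX, rfl⟩
  · intro v hv hvN U hU hxU
    by_contra hcon
    push Not at hcon
    have hv' : ∀ k, v k ∈ L' := fun k => mem_leg.2 (hv k)
    refine tree_no_chain hM hX hτ hx hσ hU hxU hσ2 ⟨fun n => sim h v n, ?_, ?_⟩
    · intro n
      refine ZFSet.mem_sep.2 ⟨(hsim v n fun k _ => hv' k).1, ?_⟩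
      intro t ht hts hne y hy hcon'
      obtain ⟨m, w, hw, rfl⟩ := mem_SEQ.1 ht
      change sq w m ⊆ sim h v n at hts
      rw [sim_eq] at hts
      obtain ⟨h1, h2⟩ := sq_subset.1 hts
      rw [sq_congr h2, ← sim_eq] at hcon'
      cases m with
      | zero => exact hne rfl
      | succ m =>
        obtain ⟨y', hy', hyX, hy1⟩ := hans v m fun k _ => hv' k
        have h3 := (hy1 y).1 hcon'
        subst h3
        refine hcon m y hy ?_
        rw [hmem v (m + 1) fun k _ => hv' k]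
        exact ⟨hyX, hcon'⟩
    · intro n
      change sim h v n ⊆ sim h v (n + 1) ∧ sim h v (n + 1) ≠ sim h v n
      rw [sim_eq, sim_eq]
      refine ⟨sq_subset.2 ⟨Nat.le_succ n, fun _ _ => rfl⟩, fun h => ?_⟩
      exact absurd (sq_inj h).1 (Nat.succ_ne_self n)

end Pool.Agent.V11244.InnerGame
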