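import Mathlib

/-! # Tree forcings and measurability: definitions, and a tree forcing with a nonmeasurable
Borel set -/

namespace Pool.Agent.V11244.TreeF

open Set Filter

/-! ### Definitions -/

section defs

variable {Λ : Type}

/-- The initial segment `x ↾ n`. -/
def res (x : ℕ → Λ) (n : ℕ) : List Λ := (List.range n).map x

/-- A tree: a set of finite sequences closed under initial segments. -/
def IsTree (T : Set (List Λ)) : Prop := ∀ s t, s <+: t → t ∈ T → s ∈ T

/-- The branches `[T]`. -/
def br (T : Set (List Λ)) : Set (ℕ → Λ) := {x | ∀ n, res x n ∈ T}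

/-- A perfect tree: nonempty, and each node has two incomparable extensions in the tree. -/
def IsPerfectTree (T : Set (List Λ)) : Prop :=
  T.Nonempty ∧ ∀ s ∈ T, ∃ u ∈ T, ∃ v ∈ T, s <+: u ∧ s <+: v ∧ ¬ u <+: v ∧ ¬ v <+: u

/-- The tree `T_s`. -/
def sub (T : Set (List Λ)) (s : List Λ) : Set (List Λ) := {t | t ∈ T ∧ (t <+: s ∨ s <+: t)}

/-- A tree forcing. -/
def IsTreeForcing (P : Set (Set (List Λ))) : Prop :=
  (∀ T ∈ P, IsTree T ∧ IsPerfectTree T) ∧ univ ∈ P ∧ ∀ T ∈ P, ∀ s ∈ T, sub T s ∈ P

/-- `P`-nowhere dense sets. -/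
def NowhereDense (P : Set (Set (List Λ))) (A : Set (ℕ → Λ)) : Prop :=
  ∀ T ∈ P, ∃ S ∈ P, S ⊆ T ∧ br S ∩ A = ∅

/-- The `σ`-ideal generated by the `P`-nowhere dense sets. -/
def InIdeal (P : Set (Set (List Λ))) (A : Set (ℕ → Λ)) : Prop :=
  ∃ N : ℕ → Set (ℕ → Λ), (∀ k, NowhereDense P (N k)) ∧ A ⊆ ⋃ k, N k

/-- `P`-measurable sets. -/
def PMeasurable (P : Set (Set (List Λ))) (A : Set (ℕ → Λ)) : Prop :=
  ∀ T ∈ P, ∃ S ∈ P, S ⊆ T ∧ (InIdeal P (br S \ A) ∨ InIdeal P (br S ∩ A))

/-! ### Initial segments -/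

theorem res_length (x : ℕ → Λ) (n : ℕ) : (res x n).length = n := by simp [res]

theorem res_get (x : ℕ → Λ) {n i : ℕ} (h : i < (res x n).length) : (res x n)[i] = x i := by
  simp [res]

theorem res_prefix (x : ℕ → Λ) {n m : ℕ} (h : n ≤ m) : res x n <+: res x m := by
  obtain ⟨k, rfl⟩ := Nat.exists_eq_add_of_le h
  refine ⟨(List.range k).map fun i => x (n + i), ?_⟩
  simp [res, List.range_add, Function.comp_def]

theorem res_succ (x : ℕ → Λ) (n : ℕ) : res x (n + 1) = res x n ++ [x n] := by
  simp [res, List.range_succ]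

theorem prefix_res {x : ℕ → Λ} {s : List Λ} {n : ℕ} (h : s <+: res x n) :
    s = res x s.length := by
  have h1 : s.length ≤ n := by simpa [res_length] using h.length_le
  exact (List.prefix_of_prefix_length_le h (res_prefix x h1) (by rw [res_length])).eq_of_length
    (by rw [res_length])

theorem res_of_prefix {x : ℕ → Λ} {s t : List Λ} (h : res x t.length = t) (hs : s <+: t) :
    res x s.length = s := by
  rw [← h] at hs
  exact (prefix_res hs).symm

theorem eq_of_res {x y : ℕ → Λ} (h : ∀ n, ∃ m ≥ n, res x m = res y m) : x = y := by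
  funext i
  obtain ⟨m, hm, h1⟩ := h (i + 1)
  have h2 : i < (res x m).length := by rw [res_length]; omega
  have h3 : i < (res y m).length := by rw [res_length]; omega
  rw [← res_get x h2, ← res_get y h3]
  simp only [h1]

theorem res_eq_of_le {x y : ℕ → Λ} {n m : ℕ} (h : res x m = res y m) (hn : n ≤ m) :
    res x n = res y n := by
  have h1 : res x n <+: res y m := h ▸ res_prefix x hn
  have h2 := prefix_res h1
  rwa [res_length] at h2

/-- Limits of sequences of nodes. -/
theorem exists_limit {t : ℕ → List Λ} (h1 : ∀ k, t k <+: t (k + 1))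
    (h2 : ∀ k, k ≤ (t k).length) : ∃ x : ℕ → Λ, ∀ k, res x (t k).length = t k := by
  have hmono : ∀ {j k}, j ≤ k → t j <+: t k := by
    intro j k h
    induction k, h using Nat.le_induction with
    | base => exact List.prefix_refl _
    | succ k _ ih => exact ih.trans (h1 k)
  refine ⟨fun i => (t (i + 1))[i]'(lt_of_lt_of_le (Nat.lt_succ_self i) (h2 (i + 1))), fun k => ?_⟩
  apply List.ext_getElem (by rw [res_length])
  intro i h3 h4
  rw [res_get]
  have h5 : i < (t (i + 1)).length := lt_of_lt_of_le (Nat.lt_succ_self i) (h2 (i + 1))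
  rcases le_total (i + 1) k with h | h
  · exact (hmono h).getElem h5
  · exact ((hmono h).getElem h4).symm

theorem mem_br_of {T : Set (List Λ)} (hT : IsTree T) {x : ℕ → Λ}
    (h : ∀ n, ∃ m ≥ n, res x m ∈ T) : x ∈ br T := by
  intro n
  obtain ⟨m, hm, h1⟩ := h n
  exact hT _ _ (res_prefix x hm) h1

end defs

/-! ### Letters -/

theorem exists_dec : Nonempty (ℕ ≃ (ℕ →₀ ℕ)) := by
  have : Infinite (ℕ →₀ ℕ) := inferInstance
  exact nonempty_equiv_of_countable

/-- Letters are finitely supported vectors. -/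
noncomputable def dec : ℕ ≃ (ℕ →₀ ℕ) := exists_dec.some

/-- The coordinate number `r` of the letter `a`. -/
noncomputable def co (r a : ℕ) : ℕ := dec a r

theorem co_symm (r : ℕ) (v : ℕ →₀ ℕ) : co r (dec.symm v) = v r := by simp [co]

/-- The coordinate `r` of `x` tends to infinity. -/
def Inf (r : ℕ) (x : ℕ → ℕ) : Prop := ∀ N, ∃ M, ∀ i ≥ M, N ≤ co r (x i)

/-- The set `Z j`. -/
def Z (j : ℕ) : Set (ℕ → ℕ) := {x | Inf j x ∧ ∀ r < j, ¬ Inf r x}

/-- The Borel set. -/
def A : Set (ℕ → ℕ) := {x | ∃ j, Inf j x}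

theorem Z_sub_A (j : ℕ) : Z j ⊆ A := fun _ h => ⟨j, h.1⟩

theorem Z_disj {i j : ℕ} {x : ℕ → ℕ} (h : x ∈ Z i) (h' : x ∈ Z j) : i = j := by
  rcases lt_trichotomy i j with h1 | h1 | h1
  · exact absurd h.1 (h'.2 i h1)
  · exact h1
  · exact absurd h'.1 (h.2 j h1)

/-- The coordinate `r` of `x` is equal to `c` infinitely often. -/
def Often (r c : ℕ) (x : ℕ → ℕ) : Prop := ∀ n, ∃ i ≥ n, co r (x i) = c

theorem not_inf_of_often {r c : ℕ} {x : ℕ → ℕ} (h : Often r c x) : ¬ Inf r x := by
  intro h'
  obtain ⟨M, hM⟩ := h' (c + 1)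
  obtain ⟨i, hi, h1⟩ := h M
  have := hM i hi
  omega

/-! ### The classes of trees -/

/-- `T` is in the class number `n`, with stem `t`, vector `c` and the countable set of
exceptional branches enumerated by `e`. -/
structure Cls (n : ℕ) (T : Set (List ℕ)) (t : List ℕ) (c : ℕ →₀ ℕ) (e : ℕ → ℕ → ℕ) : Prop where
  tree : IsTree T
  mem : t ∈ T
  comp : ∀ s ∈ T, s <+: t ∨ t <+: s
  low : ∀ s ∈ T, ∀ i (h : i < s.length), t.length ≤ i → ∀ r, c r ≤ co r s[i]
  reset : ∀ s ∈ T, t <+: s → ∀ a, (∀ r < n, co r a = c r) → (∀ r, c r ≤ co r a) → s ++ [a] ∈ T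
  spec : ∀ s ∈ T, t <+: s → ∀ j < n, ∀ b : ℕ →₀ ℕ, ∃ x ∈ br T, res x s.length = s ∧ x ∈ Z j ∧
    ∀ i ≥ s.length, ∀ r ≥ n, b r ≤ co r (x i)
  exc : ∀ x ∈ br T, (∀ l, x ≠ e l) → ∀ r < n, Often r (c r) x

/-- The tree forcing. -/
def P : Set (Set (List ℕ)) := {T | ∃ n t c e, Cls n T t c e}

theorem univ_mem_P : univ ∈ P := by
  refine ⟨0, [], 0, fun _ _ => 0, ?_⟩
  exact
    { tree := fun _ _ _ _ => trivial
      mem := trivial
      comp := fun s _ => Or.inr List.nil_prefix
      low := fun s _ i h _ r => by simp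
      reset := fun s _ _ a _ _ => trivial
      spec := fun s _ _ j hj => absurd hj (Nat.not_lt_zero j)
      exc := fun x _ _ r hr => absurd hr (Nat.not_lt_zero r) }

section cls

variable {n : ℕ} {T : Set (List ℕ)} {t : List ℕ} {c : ℕ →₀ ℕ} {e : ℕ → ℕ → ℕ}

theorem isTree_sub (hT : IsTree T) (s : List ℕ) : IsTree (sub T s) := by
  rintro u v huv ⟨hv, h⟩
  refine ⟨hT _ _ huv hv, ?_⟩
  rcases h with h | h
  · exact Or.inl (huv.trans h)
  · exact List.prefix_or_prefix_of_prefix huv h

theorem Cls.sub (h : Cls n T t c e) {s : List ℕ} (hs : s ∈ T) (hts : t <+: s) :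
    Cls n (sub T s) s c e where
  tree := isTree_sub h.tree s
  mem := ⟨hs, Or.inl (List.prefix_refl s)⟩
  comp := fun u hu => hu.2
  low := fun u hu i hi hsi r => h.low u hu.1 i hi (hts.length_le.trans hsi) r
  reset := fun u hu hsu a h1 h2 => ⟨h.reset u hu.1 (hts.trans hsu) a h1 h2,
    Or.inr (hsu.trans (List.prefix_append _ _))⟩
  spec := by
    intro u hu hsu j hj b
    obtain ⟨x, hx, h1, h2, h3⟩ := h.spec u hu.1 (hts.trans hsu) j hj b
    refine ⟨x, fun m => ⟨hx m, ?_⟩, h1, h2, h3⟩
    have h4 : res x s.length = s := res_of_prefix h1 hsu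
    rcases le_total m s.length with h5 | h5
    · left
      rw [← h4]
      exact res_prefix x h5
    · right
      have := res_prefix x h5
      rwa [h4] at this
  exc := fun x hx hne r hr => h.exc x (fun m => (hx m).1) hne r hr

theorem sub_mem_P {T : Set (List ℕ)} (hT : T ∈ P) {s : List ℕ} (hs : s ∈ T) : sub T s ∈ P := by
  obtain ⟨n, t, c, e, h⟩ := hT
  rcases h.comp s hs with h1 | h1
  · have : sub T s = T := by
      ext u
      refine ⟨fun hu => hu.1, fun hu => ⟨hu, ?_⟩⟩
      rcases h.comp u hu with h2 | h2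
      · exact List.prefix_or_prefix_of_prefix h2 h1
      · exact Or.inr (h1.trans h2)
    rw [this]
    exact ⟨n, t, c, e, h⟩
  · exact ⟨n, s, c, e, h.sub hs h1⟩

/-- The reset letters `a v`. -/
theorem exists_letter (h : Cls n T t c e) {s : List ℕ} (hs : s ∈ T) (hts : t <+: s) (v : ℕ) :
    s ++ [dec.symm (c + Finsupp.single n v)] ∈ T := by
  refine h.reset s hs hts _ (fun r hr => ?_) fun r => ?_
  · rw [co_symm, Finsupp.add_apply, Finsupp.single_apply, if_neg hr.ne', add_zero]
  · rw [co_symm, Finsupp.add_apply]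
    exact Nat.le_add_right _ _

theorem letter_inj {v w : ℕ} (h : dec.symm (c + Finsupp.single n v) =
    dec.symm (c + Finsupp.single n w)) : v = w := by
  have h1 := dec.symm.injective h
  have h2 := DFunLike.congr_fun h1 n
  simpa using h2

theorem perfect_of_cls (h : Cls n T t c e) : IsPerfectTree T := by
  refine ⟨⟨t, h.mem⟩, fun s hs => ?_⟩
  have key : ∀ s ∈ T, t <+: s → ∃ u ∈ T, ∃ v ∈ T, s <+: u ∧ s <+: v ∧ ¬ u <+: v ∧ ¬ v <+: u := by
    intro s hs hts
    have hne : dec.symm (c + Finsupp.single n 0) ≠ dec.symm (c + Finsupp.single n 1) :=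
      fun h => absurd (letter_inj h) (by norm_num)
    refine ⟨_, exists_letter h hs hts 0, _, exists_letter h hs hts 1, List.prefix_append _ _,
      List.prefix_append _ _, fun h1 => ?_, fun h1 => ?_⟩
    · have h2 := h1.eq_of_length (by simp)
      have h3 := List.append_cancel_left h2
      simp only [List.cons.injEq, and_true] at h3
      exact hne h3
    · have h2 := h1.eq_of_length (by simp)
      have h3 := List.append_cancel_left h2
      simp only [List.cons.injEq, and_true] at h3
      exact hne h3.symm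
  rcases h.comp s hs with h1 | h1
  · obtain ⟨u, hu, v, hv, h2, h3, h4, h5⟩ := key t h.mem (List.prefix_refl t)
    exact ⟨u, hu, v, hv, h1.trans h2, h1.trans h3, h4, h5⟩
  · exact key s hs h1

theorem isTreeForcing_P : IsTreeForcing P :=
  ⟨fun _ ⟨_, _, _, _, h⟩ => ⟨h.tree, perfect_of_cls h⟩, univ_mem_P, fun _ hT _ hs => sub_mem_P hT hs⟩

/-- Comparison of the levels. -/
theorem level_le {m : ℕ} {R : Set (List ℕ)} {t' : List ℕ} {c' : ℕ →₀ ℕ} {e' : ℕ → ℕ → ℕ}
    (h : Cls n T t c e) (h' : Cls m R t' c' e') (hRT : R ⊆ T) : n ≤ m := by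
  by_contra hlt
  push Not at hlt
  -- the branches
  let y : (ℕ → Bool) → ℕ → ℕ := fun f i =>
    if hi : i < t'.length then t'[i] else
      dec.symm (c' + Finsupp.single m (2 * (i - t'.length) + (f (i - t'.length)).toNat))
  have hyt : ∀ f, res (y f) t'.length = t' := by
    intro f
    apply List.ext_getElem (by rw [res_length])
    intro i h1 h2
    rw [res_get]
    simp only [y, h2, dif_pos]
  have hyR : ∀ f k, res (y f) (t'.length + k) ∈ R := by
    intro f k
    induction k with
    | zero => rw [add_zero, hyt]; exact h'.mem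
    | succ k ih =>
      rw [← add_assoc, res_succ]
      have h1 : ¬ t'.length + k < t'.length := by omega
      simp only [y, h1, dif_neg, not_false_iff]
      refine exists_letter h' ih ?_ _
      have h2 := res_prefix (y f) (show t'.length ≤ t'.length + k by omega)
      rwa [hyt] at h2
  have hyb : ∀ f, y f ∈ br R := fun f => mem_br_of h'.tree fun k => ⟨t'.length + k, by omega, hyR f k⟩
  have hinj : Function.Injective y := by
    intro f g hfg
    funext k
    have h1 := congrFun hfg (t'.length + k)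
    have h2 : ¬ t'.length + k < t'.length := by omega
    simp only [y, h2, dif_neg, not_false_iff, Nat.add_sub_cancel_left] at h1
    have h3 := letter_inj h1
    cases hf : f k <;> cases hg : g k <;> simp [hf, hg] at h3 ⊢
  have hex : ∃ f, ∀ l, y f ≠ e l := by
    by_contra hcon
    push Not at hcon
    have h1 : (univ : Set (ℕ → Bool)).Countable := by
      have h2 : (range y).Countable := by
        refine (countable_range e).mono ?_
        rintro _ ⟨f, rfl⟩
        obtain ⟨l, hl⟩ := hcon f
        exact ⟨l, hl.symm⟩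
      have h3 := h2.preimage_of_injOn (f := y) hinj.injOn
      simpa using h3
    obtain ⟨g, hg⟩ := (countable_iff_exists_subset_range).1 h1
    obtain ⟨k, hk⟩ := hg (mem_univ (fun k => !(g k k)))
    have := congrFun hk k
    simp at this
  obtain ⟨f, hf⟩ := hex
  have h1 := h.exc (y f) (fun k => hRT (hyb f k)) hf m hlt
  refine not_inf_of_often h1 ?_
  intro N
  refine ⟨t'.length + N, fun i hi => ?_⟩
  have h2 : ¬ i < t'.length := by omega
  simp only [y, h2, dif_neg, not_false_iff]
  rw [co_symm, Finsupp.add_apply, Finsupp.single_apply, if_pos rfl]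
  omega

end cls

/-! ### The step -/

/-- Codes of the nodes where the special branches start. -/
inductive Rn (n : ℕ) (s0 : List ℕ) (Rs : ℕ → Prop) (sp : List ℕ → ℕ → ℕ → ℕ → ℕ) :
    List ℕ → ℕ → Prop
  | base (a : ℕ) (h : Rs a) : Rn n s0 Rs sp s0 a
  | step (w : List ℕ) (a j m a' : ℕ) (h : Rn n s0 Rs sp w a) (hj : j ≤ n)
      (hm : w.length + 1 ≤ m) (h' : Rs a') : Rn n s0 Rs sp (res (sp w a j) m) a'

/-- The tree generated by the special branches. -/
def TT (n : ℕ) (s0 : List ℕ) (Rs : ℕ → Prop) (sp : List ℕ → ℕ → ℕ → ℕ → ℕ) : Set (List ℕ) :=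
  {s | s <+: s0 ∨ ∃ w a, Rn n s0 Rs sp w a ∧ ∃ j ≤ n, ∃ m ≥ w.length + 1, s = res (sp w a j) m}

/-- The pigeonhole part. -/
theorem pigeon {n : ℕ} {T : Set (List ℕ)} {t : List ℕ} {c : ℕ →₀ ℕ} {e : ℕ → ℕ → ℕ}
    (h : Cls n T t c e) (N : ℕ → Set (ℕ → ℕ)) (hN : br T ∩ Z n ⊆ ⋃ k, N k) :
    ∃ k, ∃ s0 ∈ T, ∃ d0 : ℕ →₀ ℕ, t <+: s0 ∧ c ≤ d0 ∧ (∀ r < n, d0 r = c r) ∧
      ∀ s ∈ T, ∀ d : ℕ →₀ ℕ, s0 <+: s → d0 ≤ d → (∀ r < n, d r = c r) →
        (∀ i (hi : i < s.length), s0.length ≤ i → ∀ r ≥ n, d0 r ≤ co r s[i]) →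
        ∃ x ∈ br T, x ∈ Z n ∧ x ∈ N k ∧ res x s.length = s ∧
          ∀ i ≥ s.length, ∀ r ≥ n, d r ≤ co r (x i) := by
  by_contra hcon
  push Not at hcon
  -- the steps
  let C : Type := {p : List ℕ × (ℕ →₀ ℕ) // p.1 ∈ T ∧ t <+: p.1 ∧ c ≤ p.2 ∧ ∀ r < n, p.2 r = c r}
  have hstep : ∀ (k : ℕ) (p : C), ∃ q : C, p.1.1 <+: q.1.1 ∧ p.1.1.length < q.1.1.length ∧
      p.1.2 ≤ q.1.2 ∧ p.1.2 n < q.1.2 n ∧
      (∀ i (hi : i < q.1.1.length), p.1.1.length ≤ i → ∀ r ≥ n, p.1.2 r ≤ co r q.1.1[i]) ∧
      (∃ i, ∃ (hi : i < q.1.1.length), p.1.1.length ≤ i ∧ ∀ r < n, co r q.1.1[i] = c r) ∧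
      (∀ x ∈ br T, x ∈ Z n → res x q.1.1.length = q.1.1 →
        (∀ i ≥ q.1.1.length, ∀ r ≥ n, q.1.2 r ≤ co r (x i)) → x ∉ N k) := by
    rintro k ⟨⟨s0, d0⟩, h1, h2, h3, h4⟩
    obtain ⟨s, hs, d, h5, h6, h7, h8, h9⟩ := hcon k s0 h1 d0 h2 h3 h4
    have hd : ∀ r < n, (d + Finsupp.single n 1 : ℕ →₀ ℕ) r = c r := by
      intro r hr
      rw [Finsupp.add_apply, Finsupp.single_apply, if_neg hr.ne', add_zero, h7 r hr]
    have hd' : d ≤ d + Finsupp.single n 1 := by
      intro r
      rw [Finsupp.add_apply]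
      exact Nat.le_add_right _ _
    refine ⟨⟨(s ++ [dec.symm (d + Finsupp.single n 1)], d + Finsupp.single n 1), ?_, ?_, ?_, ?_⟩,
      ?_, ?_, ?_, ?_, ?_, ?_, ?_⟩
    · refine h.reset s hs (h2.trans h5) _ (fun r hr => ?_) fun r => ?_
      · rw [co_symm, hd r hr]
      · rw [co_symm]
        exact ((h3.trans h6).trans hd') r
    · exact (h2.trans h5).trans (List.prefix_append _ _)
    · exact (h3.trans h6).trans hd'
    · exact hd
    · exact h5.trans (List.prefix_append _ _)
    · have := h5.length_le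
      simp only [List.length_append, List.length_singleton]
      omega
    · exact h6.trans hd'
    · have := h6 n
      simp only [Finsupp.add_apply, Finsupp.single_apply, if_true]
      omega
    · intro i hi h10 r hr
      simp only [List.length_append, List.length_singleton] at hi
      rcases Nat.lt_succ_iff_lt_or_eq.1 hi with h11 | h11
      · rw [List.getElem_append_left h11]
        exact h8 i h11 h10 r hr
      · subst h11
        rw [List.getElem_concat_length rfl, co_symm]
        exact (h6.trans hd') r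
    · refine ⟨s.length, by simp, h5.length_le, fun r hr => ?_⟩
      rw [List.getElem_concat_length rfl, co_symm, hd r hr]
    · intro x hx hxZ hxr hxd hxN
      simp only [List.length_append, List.length_singleton] at hxr hxd
      obtain ⟨i, hi, r, hr, h10⟩ := h9 x hx hxZ hxN (by
        rw [res_succ] at hxr
        exact List.append_inj_left hxr (by rw [res_length]))
      rcases Nat.lt_or_ge s.length i with h11 | h11
      · have h12 := hxd i h11 r hr
        have h13 := hd' r
        omega
      · have h12 : i = s.length := le_antisymm h11 hi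
        subst h12
        rw [res_succ] at hxr
        have h13 := List.append_inj_right hxr (by rw [res_length])
        simp only [List.cons.injEq, and_true] at h13
        rw [h13, co_symm] at h10
        have h14 := hd' r
        omega
  choose f hf using hstep
  let p0 : C := ⟨(t, c), h.mem, List.prefix_refl t, le_refl c, fun _ _ => rfl⟩
  let q : ℕ → C := fun k => Nat.rec p0 (fun k p => f k p) k
  have hq : ∀ k, q (k + 1) = f k (q k) := fun k => rfl
  have hq1 : ∀ k, (q k).1.1 <+: (q (k + 1)).1.1 := fun k => by rw [hq]; exact (hf k (q k)).1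
  have hq2 : ∀ k, k ≤ (q k).1.1.length := by
    intro k
    induction k with
    | zero => exact Nat.zero_le _
    | succ k ih =>
      have := (hf k (q k)).2.1
      rw [← hq] at this
      omega
  have hlen : ∀ {j k}, j ≤ k → (q j).1.1.length ≤ (q k).1.1.length := by
    intro j k hjk
    induction k, hjk using Nat.le_induction with
    | base => exact le_rfl
    | succ k _ ih => exact ih.trans (hq1 k).length_le
  have hd : ∀ {j k}, j ≤ k → (q j).1.2 ≤ (q k).1.2 := by
    intro j k hjk
    induction k, hjk using Nat.le_induction with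
    | base => exact le_rfl
    | succ k _ ih => 
      refine ih.trans ?_
      rw [hq]
      exact (hf k (q k)).2.2.1
  have hdn : ∀ k, k ≤ (q k).1.2 n := by
    intro k
    induction k with
    | zero => exact Nat.zero_le _
    | succ k ih =>
      have := (hf k (q k)).2.2.2.1
      rw [← hq] at this
      omega
  obtain ⟨x, hx⟩ := exists_limit hq1 hq2
  have hget : ∀ k i (hi : i < (q k).1.1.length), (q k).1.1[i] = x i := by
    intro k i hi
    have h1 : i < (res x (q k).1.1.length).length := by rw [res_length]; exact hi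
    rw [← res_get x h1]
    simp only [hx k]
  have hxb : x ∈ br T := mem_br_of h.tree fun k => ⟨(q k).1.1.length, hq2 k, by
    rw [hx k]; exact (q k).2.1⟩
  have hent : ∀ k, ∀ i ≥ (q k).1.1.length, ∀ r ≥ n, (q k).1.2 r ≤ co r (x i) := by
    intro k i hi r hr
    -- the least `m` with `i < length`
    have hex : ∃ m, i < (q m).1.1.length := ⟨i + 1, hq2 (i + 1)⟩
    have h1 := Nat.find_spec hex
    have h2 : ∀ m < Nat.find hex, (q m).1.1.length ≤ i := fun m hm => by
      have := Nat.find_min hex hm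
      omega
    have hkm : k < Nat.find hex := by
      by_contra hle
      push Not at hle
      have := hlen hle
      omega
    obtain ⟨m, hm⟩ := Nat.exists_eq_succ_of_ne_zero (Nat.ne_zero_of_lt hkm)
    rw [hm] at h1 hkm h2
    have h3 := (hf m (q m)).2.2.2.2.1
    rw [← hq] at h3
    have h4 := h3 i h1 (h2 m (Nat.lt_succ_self m)) r hr
    have h5 := hget (m + 1) i h1
    exact ((hd (Nat.lt_succ_iff.1 hkm) r).trans h4).trans_eq (congrArg (co r) h5)
  have hxZ : x ∈ Z n := by
    refine ⟨fun M => ⟨(q M).1.1.length, fun i hi => ?_⟩, fun r hr => ?_⟩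
    · exact (hdn M).trans (hent M i hi n le_rfl)
    · refine not_inf_of_often (c := c r) fun M => ?_
      obtain ⟨i, hi, h1, h2⟩ := (hf M (q M)).2.2.2.2.2.1
      refine ⟨i, (hq2 M).trans h1, ?_⟩
      rw [← hget (M + 1) i hi]
      exact h2 r hr
  obtain ⟨k, hk⟩ := mem_iUnion.1 (hN ⟨hxb, hxZ⟩)
  have h1 := (hf k (q k)).2.2.2.2.2.2 x hxb hxZ
  rw [← hq] at h1
  exact h1 (hx (k + 1)) (hent (k + 1)) hk

theorem one_step {n : ℕ} {T : Set (List ℕ)} {t : List ℕ} {c : ℕ →₀ ℕ} {e : ℕ → ℕ → ℕ}
    (h : Cls n T t c e) (N : ℕ → Set (ℕ → ℕ)) (hN : br T ∩ Z n ⊆ ⋃ k, N k) :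
    ∃ k T' t' c' e', T' ⊆ T ∧ t <+: t' ∧ Cls (n + 1) T' t' c' e' ∧ br T' ∩ Z n ⊆ N k := by
  obtain ⟨k, s0, hs0, d0, hts, hcd, hcn, key⟩ := pigeon h N hN
  set Rs : ℕ → Prop := fun a => (∀ r < n + 1, co r a = d0 r) ∧ ∀ r, d0 r ≤ co r a with hRs
  let Ok : List ℕ → ℕ → Prop := fun w a => w ∈ T ∧ s0 <+: w ∧
    (∀ i (hi : i < w.length), s0.length ≤ i → ∀ r, d0 r ≤ co r w[i]) ∧ Rs a
  have hlast : ∀ (w : List ℕ) (a : ℕ), Ok w a → w ++ [a] ∈ T := by
    rintro w a ⟨h1, h2, h3, h4, h5⟩
    refine h.reset w h1 (hts.trans h2) a (fun r hr => ?_) fun r => (hcd r).trans (h5 r)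
    rw [h4 r (by omega), hcn r hr]
  -- the special branches
  have hsp : ∀ (w : List ℕ) (a j : ℕ), Ok w a → j ≤ n → ∃ x ∈ br T,
      res x (w ++ [a]).length = w ++ [a] ∧ x ∈ Z j ∧
      (∀ i ≥ (w ++ [a]).length, ∀ r ≥ n, co r a ≤ co r (x i)) ∧ (j = n → x ∈ N k) := by
    rintro w a j hok hj
    have hw := hlast w a hok
    obtain ⟨h1, h2, h3, h4, h5⟩ := hok
    rcases hj.lt_or_eq with hj | rfl
    · obtain ⟨x, hx, h6, h7, h8⟩ := h.spec _ hw ((hts.trans h2).trans (List.prefix_append _ _))
        j hj (dec a)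
      exact ⟨x, hx, h6, h7, h8, fun h => absurd h hj.ne⟩
    · obtain ⟨x, hx, h6, h7, h8, h9⟩ := key _ hw (dec a) (h2.trans (List.prefix_append _ _))
        (fun r => h5 r) (fun r hr => (h4 r (by omega)).trans (hcn r hr)) (by
          intro i hi h10 r hr
          simp only [List.length_append, List.length_singleton] at hi
          rcases Nat.lt_succ_iff_lt_or_eq.1 hi with h11 | h11
          · rw [List.getElem_append_left h11]
            exact h3 i h11 h10 r
          · subst h11
            rw [List.getElem_concat_length rfl]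
            exact h5 r)
      exact ⟨x, hx, h8, h6, h9, fun _ => h7⟩
  choose! sp hsp1 hsp2 hsp3 hsp4 hsp5 using hsp
  simp only [List.length_append, List.length_singleton] at hsp2 hsp4
  have hinit : ∀ {w : List ℕ} {a j : ℕ}, Ok w a → j ≤ n → res (sp w a j) w.length = w := by
    intro w a j hok hj
    exact res_of_prefix (t := w ++ [a]) (by
      simp only [List.length_append, List.length_singleton]; exact hsp2 w a j hok hj)
      (List.prefix_append _ _)
  have hletter : ∀ {w : List ℕ} {a j : ℕ}, Ok w a → j ≤ n → sp w a j w.length = a := by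
    intro w a j hok hj
    have h1 := hsp2 w a j hok hj
    rw [res_succ] at h1
    have h2 := List.append_inj_right h1 (by rw [res_length])
    simpa using h2
  -- all codes are good
  have hge : ∀ {w : List ℕ} {a j : ℕ}, Ok w a → j ≤ n → ∀ i ≥ s0.length, ∀ r,
      d0 r ≤ co r (sp w a j i) := by
    intro w a j hok hj i hi r
    rcases Nat.lt_or_ge i w.length with h1 | h1
    · have h2 : i < (res (sp w a j) w.length).length := by rw [res_length]; exact h1
      have h3 := hok.2.2.1 i h1 hi r
      rw [← res_get (sp w a j) h2]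
      simp only [hinit hok hj]
      exact h3
    · rcases h1.lt_or_eq with h1 | h1
      · rcases Nat.lt_or_ge r n with h2 | h2
        · rw [hcn r h2]
          have h3 : i < (res (sp w a j) (i + 1)).length := by rw [res_length]; omega
          have h4 := h.low _ (hsp1 w a j hok hj (i + 1)) i h3 (by
            have := hts.length_le; omega) r
          rwa [res_get] at h4
        · exact (hok.2.2.2.2 r).trans (hsp4 w a j hok hj i h1 r h2)
      · rw [← h1, hletter hok hj]
        exact hok.2.2.2.2 r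
  have hgood : ∀ {w a}, Rn n s0 Rs sp w a → Ok w a := by
    intro w a hR
    induction hR with
    | base a h1 => exact ⟨hs0, List.prefix_refl _, fun i hi h2 => absurd hi (by omega), h1⟩
    | step w a j m a' h1 hj hm h' ih =>
      refine ⟨hsp1 w a j ih hj m, ?_, ?_, h'⟩
      · refine ih.2.1.trans ?_
        have h2 := res_prefix (sp w a j) (show w.length ≤ m by omega)
        rwa [hinit ih hj] at h2
      · intro i hi h2 r
        rw [res_get]
        exact hge ih hj i h2 r
  set T' := TT n s0 Rs sp with hT'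
  have hmemT' : ∀ {w a j m}, Rn n s0 Rs sp w a → j ≤ n → w.length + 1 ≤ m →
      res (sp w a j) m ∈ T' := fun h1 h2 h3 => Or.inr ⟨_, _, h1, _, h2, _, h3, rfl⟩
  have hpre : ∀ {w a}, Rn n s0 Rs sp w a → ∀ s, s <+: w → s ∈ T' := by
    intro w a hR
    induction hR with
    | base a h1 => exact fun s hs => Or.inl hs
    | step w a j m a' h1 hj hm h' ih =>
      intro s hs
      rcases Nat.lt_or_ge w.length s.length with h2 | h2
      · rw [prefix_res hs]
        exact hmemT' h1 hj h2
      · apply ih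
        rw [prefix_res hs]
        have h3 := res_prefix (sp w a j) h2
        rwa [hinit (hgood h1) hj] at h3
  have htree : IsTree T' := by
    rintro s s' hss (h1 | ⟨w, a, h1, j, hj, m, hm, rfl⟩)
    · exact Or.inl (hss.trans h1)
    · rcases Nat.lt_or_ge w.length s.length with h2 | h2
      · rw [prefix_res hss]
        exact hmemT' h1 hj h2
      · apply hpre h1
        rw [prefix_res hss]
        have h3 := res_prefix (sp w a j) h2
        rwa [hinit (hgood h1) hj] at h3
  have hspbr : ∀ {w a j}, Rn n s0 Rs sp w a → j ≤ n → sp w a j ∈ br T' := by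
    intro w a j h1 hj
    exact mem_br_of htree fun m => ⟨max m (w.length + 1), le_max_left _ _,
      hmemT' h1 hj (le_max_right _ _)⟩
  have hcode : ∀ {w a}, Rn n s0 Rs sp w a → w ++ [a] ∈ T' := by
    intro w a h1
    have h2 := hsp2 w a 0 (hgood h1) (Nat.zero_le n)
    rw [← h2]
    exact hmemT' h1 (Nat.zero_le n) le_rfl
  have hext : ∀ s ∈ T', s0 <+: s → ∀ a, Rs a → Rn n s0 Rs sp s a := by
    rintro s (h1 | ⟨w, a', h1, j, hj, m, hm, rfl⟩) hs a ha
    · have : s = s0 := (h1.eq_of_length (le_antisymm h1.length_le hs.length_le))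
      subst this
      exact Rn.base a ha
    · exact Rn.step w a' j m a h1 hj hm ha
  -- the non-exceptional branches
  have hexc : ∀ x ∈ br T', (∀ w a j, Rn n s0 Rs sp w a → j ≤ n → x ≠ sp w a j) →
      ∀ M, ∃ i ≥ M, Rs (x i) := by
    intro x hx hne M
    by_contra hcon
    push Not at hcon
    have hfin : ∀ l j, ∃ B, ∀ m ≥ B, Rn n s0 Rs sp (res x l) (x l) → j ≤ n →
        res x m ≠ res (sp (res x l) (x l) j) m := by
      intro l j
      by_cases h1 : Rn n s0 Rs sp (res x l) (x l) ∧ j ≤ n
      · by_contra hc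
        push Not at hc
        refine hne _ _ _ h1.1 h1.2 (eq_of_res fun B => ?_)
        obtain ⟨m, hm, -, -, h2⟩ := hc B
        exact ⟨m, hm, h2⟩
      · exact ⟨0, fun m _ h2 h3 => absurd ⟨h2, h3⟩ h1⟩
    choose B hB using hfin
    let m := max (max M (s0.length + 1))
      ((Finset.range (M + 1) ×ˢ Finset.range (n + 1)).sup fun p => B p.1 p.2)
    have hm1 : M ≤ m := (le_max_left _ _).trans (le_max_left _ _)
    have hm2 : s0.length + 1 ≤ m := (le_max_right _ _).trans (le_max_left _ _)
    rcases hx m with h1 | ⟨w, a, h1, j, hj, m', hm', h2⟩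
    · have := h1.length_le
      rw [res_length] at this
      omega
    · have h3 : m' = m := by
        have := congrArg List.length h2
        rw [res_length, res_length] at this
        exact this.symm
      subst h3
      have hok := hgood h1
      have h4 : res x w.length = w := by
        have := res_eq_of_le h2 (show w.length ≤ m by omega)
        rw [this, hinit hok hj]
      have h5 : x w.length = a := by
        have := res_eq_of_le h2 hm'
        rw [hsp2 w a j hok hj, res_succ] at this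
        have := List.append_inj_right this (by rw [res_length])
        simpa using this
      have h6 : w.length < M := by
        by_contra h7
        push Not at h7
        refine hcon w.length h7 ?_
        rw [h5]
        exact hok.2.2.2
      have h7 : B w.length j ≤ m := by
        refine le_trans ?_ (le_max_right _ _)
        exact Finset.le_sup (f := fun p : ℕ × ℕ => B p.1 p.2) (b := (w.length, j))
          (by simp only [Finset.mem_product, Finset.mem_range]; omega)
      have h8 := hB w.length j m h7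
      rw [h4, h5] at h8
      exact h8 h1 hj h2
  obtain ⟨g, hg⟩ := exists_surjective_nat (List ℕ × ℕ × ℕ)
  have hoft : ∀ x ∈ br T', (∀ w a j, Rn n s0 Rs sp w a → j ≤ n → x ≠ sp w a j) →
      ∀ r < n + 1, Often r (d0 r) x := by
    intro x hx hne r hr M
    obtain ⟨i, hi, h1⟩ := hexc x hx hne M
    exact ⟨i, hi, h1.1 r hr⟩
  refine ⟨k, T', s0, d0, fun l => sp (g l).1 (g l).2.1 (g l).2.2, ?_, hts, ?_, ?_⟩
  · rintro s (h1 | ⟨w, a, h1, j, hj, m, hm, rfl⟩)
    · exact h.tree _ _ h1 hs0
    · exact hsp1 w a j (hgood h1) hj m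
  · exact
      { tree := htree
        mem := Or.inl (List.prefix_refl _)
        comp := by
          rintro s (h1 | ⟨w, a, h1, j, hj, m, hm, rfl⟩)
          · exact Or.inl h1
          · right
            refine (hgood h1).2.1.trans ?_
            have h2 := res_prefix (sp w a j) (show w.length ≤ m by omega)
            rwa [hinit (hgood h1) hj] at h2
        low := by
          rintro s (h1 | ⟨w, a, h1, j, hj, m, hm, rfl⟩) i hi h2 r
          · have := h1.length_le
            omega
          · rw [res_get]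
            exact hge (hgood h1) hj i h2 r
        reset := by
          intro s hs h1 a h2 h3
          exact hcode (hext s hs h1 a ⟨h2, h3⟩)
        spec := by
          intro s hs h1 j hj b
          have hj' : j ≤ n := by omega
          -- the letter
          let v : ℕ →₀ ℕ := d0 + b.filter (fun r => n < r)
          have hv : Rs (dec.symm v) := by
            refine ⟨fun r hr => ?_, fun r => ?_⟩
            · rw [co_symm, Finsupp.add_apply, Finsupp.filter_apply_neg _ _ (by omega), add_zero]
            · rw [co_symm, Finsupp.add_apply]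
              exact Nat.le_add_right _ _
          have hR := hext s hs h1 _ hv
          have hok := hgood hR
          refine ⟨sp s (dec.symm v) j, hspbr hR hj', hinit hok hj', hsp3 _ _ _ hok hj', ?_⟩
          intro i hi r hr
          have h3 : b r ≤ co r (dec.symm v) := by
            rw [co_symm, Finsupp.add_apply, Finsupp.filter_apply_pos _ _ (by omega)]
            exact Nat.le_add_left _ _
          rcases hi.lt_or_eq with h4 | h4
          · exact h3.trans (hsp4 _ _ _ hok hj' i h4 r (by omega))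
          · rw [← h4, hletter hok hj']
            exact h3
        exc := by
          intro x hx hne
          refine hoft x hx fun w a j _ _ => ?_
          obtain ⟨l, hl⟩ := hg (w, a, j)
          have := hne l
          simpa only [hl] using this }
  · rintro x ⟨hx, hxZ⟩
    by_contra hxN
    refine not_inf_of_often (hoft x hx ?_ n (Nat.lt_succ_self n)) hxZ.1
    rintro w a j hR hj rfl
    have h1 := Z_disj hxZ (hsp3 w a j (hgood hR) hj)
    exact hxN (hsp5 w a j (hgood hR) hj h1.symm)

/-- No member of `P` has its trace on `A` in the ideal. -/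
theorem not_inIdeal_inter {S : Set (List ℕ)} (hS : S ∈ P) : ¬ InIdeal P (br S ∩ A) := by
  rintro ⟨N, hN, hsub⟩
  obtain ⟨n, t, c, e, h⟩ := hS
  obtain ⟨k, T', t', c', e', hT', -, h', h1⟩ := one_step h N fun x hx =>
    hsub ⟨hx.1, Z_sub_A n hx.2⟩
  obtain ⟨R, ⟨m, t'', c'', e'', h''⟩, hRT, h2⟩ := hN k T' ⟨_, _, _, _, h'⟩
  have h3 := level_le h' h'' hRT
  obtain ⟨x, hx, -, h4, -⟩ := h''.spec t'' h''.mem (List.prefix_refl _) n (by omega) 0
  have h5 : x ∈ N k := h1 ⟨fun i => hRT (hx i), h4⟩
  have h6 : x ∈ br R ∩ N k := ⟨hx, h5⟩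
  rw [h2] at h6
  exact h6

/-! ### The fusion -/

/-- The step of the fusion. -/
theorem fusion_step {n : ℕ} {T : Set (List ℕ)} {t : List ℕ} {c : ℕ →₀ ℕ} {e : ℕ → ℕ → ℕ}
    (h : Cls n T t c e) {N : Set (ℕ → ℕ)} (hN : NowhereDense P N) (L : List (ℕ → ℕ)) :
    ∃ n' T' t' c' e', Cls n' T' t' c' e' ∧ n < n' ∧ T' ⊆ T ∧ t <+: t' ∧ t.length < t'.length ∧
      br T' ∩ N = ∅ ∧ ∀ y ∈ L, res y t'.length ≠ t' := by
  obtain ⟨-, T1, t1, c1, e1, hT1, ht1, h1, -⟩ := one_step h (fun _ => univ)
    (fun _ _ => mem_iUnion.2 ⟨0, trivial⟩)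
  obtain ⟨R, ⟨m, t2, c2, e2, h2⟩, hRT, h3⟩ := hN T1 ⟨_, _, _, _, h1⟩
  have hm := level_le h1 h2 hRT
  -- a long node of `R` that extends `t2` and is longer than `t`
  have hlong : ∀ k, ∃ s ∈ R, t2 <+: s ∧ k ≤ s.length := by
    intro k
    induction k with
    | zero => exact ⟨t2, h2.mem, List.prefix_refl _, Nat.zero_le _⟩
    | succ k ih =>
      obtain ⟨s, hs, h4, h5⟩ := ih
      refine ⟨_, exists_letter h2 hs h4 0, h4.trans (List.prefix_append _ _), ?_⟩
      simp only [List.length_append, List.length_singleton]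
      omega
  obtain ⟨s, hs, h4, h5⟩ := hlong t.length
  -- the letter
  obtain ⟨v, hv⟩ : ∃ v, ∀ y ∈ L, y s.length ≠ dec.symm (c2 + Finsupp.single m v) := by
    by_contra hcon
    push Not at hcon
    choose y hy hy2 using hcon
    have hinj : Function.Injective fun v => y v s.length := by
      intro v w hvw
      simp only [hy2] at hvw
      exact letter_inj hvw
    have hfin : (range fun v => y v s.length).Finite := by
      refine ((L.map fun y => y s.length).finite_toSet).subset ?_
      rintro _ ⟨v, rfl⟩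
      exact List.mem_map.2 ⟨y v, hy v, rfl⟩
    exact infinite_range_of_injective hinj hfin
  have hs' := exists_letter h2 hs h4 v
  have h6 := h2.sub hs' (h4.trans (List.prefix_append _ _))
  refine ⟨m, sub R _, _, c2, e2, h6, by omega, fun u hu => hT1 (hRT hu.1), ?_, ?_, ?_, ?_⟩
  · refine List.prefix_of_prefix_length_le (l₃ := s ++ [dec.symm (c2 + Finsupp.single m v)]) ?_
      (List.prefix_refl _) ?_
    · -- `t` is comparable with `s`
      have h7 := h.comp _ (hT1 (hRT hs'))
      rcases h7 with h8 | h8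
      · have h9 := h8.length_le
        simp only [List.length_append, List.length_singleton] at h9
        omega
      · exact h8
    · simp only [List.length_append, List.length_singleton]
      omega
  · simp only [List.length_append, List.length_singleton]
    omega
  · rw [eq_empty_iff_forall_notMem] at h3 ⊢
    rintro x ⟨hx, hxN⟩
    exact h3 x ⟨fun i => (hx i).1, hxN⟩
  · intro y hy h7
    simp only [List.length_append, List.length_singleton] at h7
    rw [res_succ] at h7
    have h8 := List.append_inj_right h7 (by rw [res_length])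
    simp only [List.cons.injEq, and_true] at h8
    exact hv y hy h8

/-- The states of the fusion. -/
structure St where
  n : ℕ
  T : Set (List ℕ)
  t : List ℕ
  c : ℕ →₀ ℕ
  e : ℕ → ℕ → ℕ
  h : Cls n T t c e
  /-- The enumerations used so far. -/
  hist : List (ℕ → ℕ → ℕ)

/-- No member of `P` has its trace on the complement of `A` in the ideal. -/
theorem not_inIdeal_diff {S : Set (List ℕ)} (hS : S ∈ P) : ¬ InIdeal P (br S \ A) := by
  rintro ⟨N, hN, hsub⟩
  obtain ⟨n, t, c, e, h⟩ := hS
  have hstep : ∀ (k : ℕ) (p : St), ∃ q : St, p.n < q.n ∧ q.T ⊆ p.T ∧ p.t <+: q.t ∧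
      p.t.length < q.t.length ∧ br q.T ∩ N k = ∅ ∧ q.hist = q.e :: p.hist ∧
      ∀ g ∈ p.hist, ∀ l ≤ k, res (g l) q.t.length ≠ q.t := by
    intro k p
    obtain ⟨n', T', t', c', e', h1, h2, h3, h4, h5, h6, h7⟩ := fusion_step p.h (hN k)
      (p.hist.flatMap fun g => (List.range (k + 1)).map g)
    refine ⟨⟨n', T', t', c', e', h1, e' :: p.hist⟩, h2, h3, h4, h5, h6, rfl, ?_⟩
    intro g hg l hl
    exact h7 _ (List.mem_flatMap.2 ⟨g, hg, List.mem_map.2 ⟨l, List.mem_range.2 (by omega), rfl⟩⟩)
  choose f hf using hstep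
  let p0 : St := ⟨n, S, t, c, e, h, [e]⟩
  let q : ℕ → St := fun k => Nat.rec p0 (fun k p => f k p) k
  have hq : ∀ k, q (k + 1) = f k (q k) := fun k => rfl
  have hn : ∀ k, (q k).n < (q (k + 1)).n := fun k => by rw [hq]; exact (hf k (q k)).1
  have hT : ∀ k, (q (k + 1)).T ⊆ (q k).T := fun k => by rw [hq]; exact (hf k (q k)).2.1
  have ht : ∀ k, (q k).t <+: (q (k + 1)).t := fun k => by rw [hq]; exact (hf k (q k)).2.2.1
  have htl : ∀ k, (q k).t.length < (q (k + 1)).t.length := fun k => by
    rw [hq]; exact (hf k (q k)).2.2.2.1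
  have hNk : ∀ k, br (q (k + 1)).T ∩ N k = ∅ := fun k => by
    rw [hq]; exact (hf k (q k)).2.2.2.2.1
  have hh : ∀ k, (q (k + 1)).hist = (q (k + 1)).e :: (q k).hist := fun k => by
    rw [hq]; exact (hf k (q k)).2.2.2.2.2.1
  have hav : ∀ k, ∀ g ∈ (q k).hist, ∀ l ≤ k, res (g l) (q (k + 1)).t.length ≠ (q (k + 1)).t :=
    fun k => by rw [hq]; exact (hf k (q k)).2.2.2.2.2.2
  have hlen : ∀ k, k ≤ (q k).t.length := by
    intro k
    induction k with
    | zero => exact Nat.zero_le _
    | succ k ih => have := htl k; omega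
  have hnk : ∀ k, k ≤ (q k).n := by
    intro k
    induction k with
    | zero => exact Nat.zero_le _
    | succ k ih => have := hn k; omega
  have hTT : ∀ {j k}, j ≤ k → (q k).T ⊆ (q j).T := by
    intro j k hjk
    induction k, hjk using Nat.le_induction with
    | base => exact subset_rfl
    | succ k _ ih => exact (hT k).trans ih
  have hmem : ∀ k, (q k).e ∈ (q k).hist := by
    intro k
    cases k with
    | zero => exact List.mem_singleton.2 rfl
    | succ k => rw [hh]; exact List.mem_cons_self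
  have hmem' : ∀ {j k}, j ≤ k → (q j).e ∈ (q k).hist := by
    intro j k hjk
    induction k, hjk using Nat.le_induction with
    | base => exact hmem j
    | succ k _ ih => rw [hh]; exact List.mem_cons_of_mem _ ih
  obtain ⟨x, hx⟩ := exists_limit ht hlen
  have hxb : ∀ k, x ∈ br (q k).T := by
    intro k
    refine mem_br_of (q k).h.tree fun m => ⟨(q (max k m)).t.length,
      (le_max_right k m).trans (hlen _), ?_⟩
    rw [hx]
    exact hTT (le_max_left k m) (q (max k m)).h.mem
  have hxe : ∀ k l, x ≠ (q k).e l := by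
    intro k l hl
    have h1 := hav (max k l) _ (hmem' (le_max_left k l)) l (le_max_right k l)
    rw [← hl] at h1
    exact h1 (hx (max k l + 1))
  have hxA : x ∉ A := by
    rintro ⟨r, hr⟩
    refine not_inf_of_often ((q (r + 1)).h.exc x (hxb (r + 1)) (hxe (r + 1)) r ?_) hr
    have := hnk (r + 1)
    omega
  obtain ⟨k, hk⟩ := mem_iUnion.1 (hsub ⟨hxb 0, hxA⟩)
  have h1 : x ∈ br (q (k + 1)).T ∩ N k := ⟨hxb (k + 1), hk⟩
  rw [hNk] at h1
  exact h1

theorem borel_A : @MeasurableSet (ℕ → ℕ) (borel (ℕ → ℕ)) A := by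
  have h1 : A = ⋃ j, ⋂ N, ⋃ M, ⋂ i, {x : ℕ → ℕ | M ≤ i → N ≤ co j (x i)} := by
    ext x
    simp only [A, Inf, mem_ofPred_eq, mem_iUnion, mem_iInter, ge_iff_le]
  rw [h1]
  refine @MeasurableSet.iUnion _ _ (borel (ℕ → ℕ)) _ _ fun j =>
    @MeasurableSet.iInter _ _ (borel (ℕ → ℕ)) _ _ fun N =>
    @MeasurableSet.iUnion _ _ (borel (ℕ → ℕ)) _ _ fun M =>
    @MeasurableSet.iInter _ _ (borel (ℕ → ℕ)) _ _ fun i => ?_
  refine MeasurableSpace.measurableSet_generateFrom ?_
  have h2 : {x : ℕ → ℕ | M ≤ i → N ≤ co j (x i)} =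
      (fun x : ℕ → ℕ => x i) ⁻¹' {a | M ≤ i → N ≤ co j a} := rfl
  rw [h2]
  exact (isOpen_discrete _).preimage (continuous_apply i)

/-- `A` is not measurable, and this holds below any condition. -/
theorem not_measurable_A : ¬ PMeasurable P A := by
  intro h
  obtain ⟨S, hS, -, h1 | h1⟩ := h univ univ_mem_P
  · exact not_inIdeal_diff hS h1
  · exact not_inIdeal_inter hS h1

end Pool.Agent.V11244.TreeF
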