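import Pool.Agent.V11244.CohGame
import Pool.Agent.V11244.TreeF

/-!
# Cohen forcing destroys winning strategies in the Menger games
-/

namespace Pool.Agent.V11244.CohCore

set_option linter.unusedSectionVars false

open Pool.Agent.Helper669.Forcing
open Pool.Agent.V11244.CohGame
open Pool.Agent.V11244.TreeF (res res_length res_of_prefix res_succ)
open Set TopologicalSpace

/-- Cohen forcing: finite sequences of bits, longer sequences are stronger. -/
def Coh : Type := List Bool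

instance : Preorder Coh where
  le s t := List.IsPrefix (α := Bool) t s
  le_refl s := List.prefix_refl (α := Bool) s
  le_trans _ _ _ h h' := List.IsPrefix.trans (α := Bool) h' h

instance : Countable Coh := inferInstanceAs (Countable (List Bool))

/-- The Cantor space. -/
abbrev Can : Type := ℕ → Bool

theorem polish_can : PolishSpace Can :=
  { (inferInstance : SecondCountableTopology Can), (inferInstance : IsCompletelyMetrizableSpace Can)
    with }

/-- The set of all sequences extending the condition. -/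
def cone (r : Coh) : Set Can := {c | res c (List.length (α := Bool) r) = r}

theorem cone_anti {s t : Coh} (h : t ≤ s) : cone t ⊆ cone s := fun _ hc => res_of_prefix hc h

theorem isClosed_cone (r : Coh) : IsClosed (cone r) := by
  have h1 : cone r = ⋂ (i : ℕ) (h : i < List.length (α := Bool) r),
      {c : Can | c i = List.get (α := Bool) r ⟨i, h⟩} := by
    ext c
    simp only [cone, mem_ofPred_eq, mem_iInter]
    constructor
    · intro h i hi
      have h2 : i < (res c (List.length (α := Bool) r)).length := by rw [res_length]; exact hi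
      rw [← TreeF.res_get c h2]
      simp only [List.get_eq_getElem, h]
    · intro h
      apply List.ext_getElem (by rw [res_length])
      intro i h2 h3
      rw [TreeF.res_get]
      exact h i h3
  rw [h1]
  exact isClosed_iInter fun i => isClosed_iInter fun h =>
    isClosed_eq (continuous_apply i) continuous_const

theorem cone_nonempty (r : Coh) : (cone r).Nonempty := by
  refine ⟨fun i => List.getD (α := Bool) r i false, ?_⟩
  apply List.ext_getElem (by rw [res_length])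
  intro i h2 h3
  rw [TreeF.res_get]
  simp [List.getD, h3]

theorem exists_avoid_list (r : List Bool) (c : Can) :
    ∃ b, res c (r ++ [b]).length ≠ r ++ [b] := by
  refine ⟨!(c r.length), fun h1 => ?_⟩
  rw [List.length_append, List.length_singleton, res_succ] at h1
  have h2 := List.append_inj_right h1 (by rw [res_length])
  simp at h2

theorem exists_avoid (r : Coh) (c : Can) : ∃ r' ≤ r, c ∉ cone r' := by
  obtain ⟨b, hb⟩ := exists_avoid_list r c
  exact ⟨List.append (α := Bool) r [b], List.prefix_append (α := Bool) _ _, hb⟩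

/-- Names for families of subsets of the Cantor space. -/
abbrev Nm : Type := Set Can → Set Coh

/-- The named family is a cover by ground model open sets, closed under finite unions. -/
def fLegal (A : Nm) : Set Coh :=
  fand (fOpenCover A) (fall fun F : Finset (Set Can) =>
    fimp (fall fun O : Set Can => fall fun _ : O ∈ F => meets (A O)) (meets (A (⋃ O ∈ F, O))))

theorem kcover_of_legal {A : Nm} {p : Coh} (h : p ∈ fLegal A) : p ∈ fKCover A := by
  obtain ⟨⟨h1, h2⟩, h3⟩ := h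
  refine ⟨h1, fun K => mem_fimp.2 fun q hq hK => ?_⟩
  obtain ⟨r, hr, h4⟩ := mem_fimp.1 (hK A) q le_rfl ⟨down_fall (fun _ => down_fimp _ _) _ h1 _ hq,
    fun x => mem_fimp.2 fun q' hq' _ => ⟨q', le_rfl,
      down_fex _ _ (h2 x) _ (hq'.trans hq)⟩⟩
  obtain ⟨r1, hr1, F, h5, h6⟩ := mem_fex.1 h4 r le_rfl
  obtain ⟨r2, hr2, h7⟩ := mem_fimp.1 (h3 F) r1 (hr1.trans (hr.trans hq)) h5
  refine ⟨r2, hr2.trans (hr1.trans hr), ?_⟩
  have h8 : r2 ∈ (fall fun x => fimp (meets (K x)) (fground (x ∈ ⋃ O ∈ F, O)) : Set Coh) := by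
    intro x
    refine mem_fimp.2 fun q' hq' hx => ?_
    obtain ⟨r', hr', h9⟩ := mem_fimp.1 (h6 x) q' (hq'.trans hr2) hx
    refine ⟨r', hr', ?_⟩
    obtain ⟨O, hO, hxO⟩ := h9
    exact mem_iUnion₂.2 ⟨O, hO, hxO⟩
  exact mem_fex_of_mem (⋃ O ∈ F, O) (down_fand (down_meets _)
    (down_fall fun _ => down_fimp _ _)) ⟨h7, h8⟩

/-- Legal moves: names that are legal below `q₀` and consist of clopen sets. -/
def Legal (q₀ : Coh) (A : Nm) : Prop :=
  (∀ p ≤ q₀, p ∈ fLegal A) ∧ ∀ O, (A O).Nonempty → IsClopen O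

/-- What we need from a strategy. -/
structure Strat (q₀ : Coh) (S : (n : ℕ) → (Fin (n + 1) → Nm) → Nm) : Prop where
  ext : ∀ n (A B : Fin (n + 1) → Nm), ∀ q ≤ q₀, (∀ i, q ∈ fSame (A i) (B i)) →
    ∃ r ≤ q, r ∈ fSame (S n A) (S n B)
  ans : ∀ n (A : Fin (n + 1) → Nm), (∀ i, ∀ p ≤ q₀, p ∈ fLegal (A i)) → ∀ q ≤ q₀,
    ∃ r ≤ q, ∃ F : Finset (Set Can),
      (∀ O, ∀ r' ≤ r, r' ∈ meets (S n A O) → O ∈ F ∧ ∃ r'' ≤ r', r'' ∈ meets (A (Fin.last n) O))
  cov : ∀ A : ℕ → Nm, (∀ n, ∀ p ≤ q₀, p ∈ fLegal (A n)) → ∀ x, ∀ q ≤ q₀,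
    ∃ r ≤ q, ∃ n O, x ∈ O ∧ r ∈ meets (S n (fun i => A i) O)

theorem meets_of_dense {N : Set Coh} {p : Coh} (h : ∀ q ≤ p, ∃ r ≤ q, r ∈ meets N) :
    p ∈ meets N := by
  intro q hq
  obtain ⟨r, hr, h1⟩ := h q hq
  obtain ⟨r', hr', s, hs, h2⟩ := h1 r le_rfl
  exact ⟨r', hr'.trans hr, s, hs, h2⟩

/-- Deciding finitely many statements. -/
theorem decide_fin (N : Nm) (G : Finset (Set Can)) (q : Coh) :
    ∃ r ≤ q, ∀ O ∈ G, r ∈ meets (N O) ∨ ∀ r' ≤ r, r' ∉ meets (N O) := by
  classical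
  induction G using Finset.induction_on with
  | empty => exact ⟨q, le_rfl, by simp⟩
  | insert O G _ ih =>
    obtain ⟨r, hr, h⟩ := ih
    by_cases h1 : ∃ r' ≤ r, r' ∈ meets (N O)
    · obtain ⟨r', hr', h2⟩ := h1
      refine ⟨r', hr'.trans hr, fun O' hO' => ?_⟩
      rcases Finset.mem_insert.1 hO' with rfl | hO'
      · exact Or.inl h2
      · rcases h O' hO' with h3 | h3
        · exact Or.inl (down_meets _ _ h3 _ hr')
        · exact Or.inr fun r'' hr'' => h3 r'' (hr''.trans hr')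
    · push Not at h1
      refine ⟨r, hr, fun O' hO' => ?_⟩
      rcases Finset.mem_insert.1 hO' with rfl | hO'
      · exact Or.inr h1
      · exact h O' hO'

section

variable {q₀ : Coh} {S : (n : ℕ) → (Fin (n + 1) → Nm) → Nm} (hS : Strat q₀ S)

/-- The answer to the move `U` after the moves in the list `l` (latest first). -/
def ans (S : (n : ℕ) → (Fin (n + 1) → Nm) → Nm) (l : List Nm) (U : Nm) : Nm :=
  S l.length (fun i => (U :: l)[l.length - i]'(by simp only [List.length_cons]; omega))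

/-- `r` decides the answer to be the finite set `G`. -/
def Dec (S : (n : ℕ) → (Fin (n + 1) → Nm) → Nm) (l : List Nm) (U : Nm) (r : Coh)
    (G : Finset {W : Set Can // IsClopen W}) : Prop :=
  (∀ O, ∀ r' ≤ r, r' ∈ meets (ans S l U O) → ∃ W ∈ G, W.1 = O) ∧
    ∀ W ∈ G, r ∈ meets (ans S l U W.1)

include hS

theorem exists_dec {l : List Nm} (hl : ∀ A ∈ l, Legal q₀ A) {U : Nm} (hU : Legal q₀ U) {q : Coh}
    (hq : q ≤ q₀) : ∃ r ≤ q, ∃ G, Dec S l U r G ∧ ∀ W ∈ G, r ∈ meets (U W.1) := by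
  classical
  obtain ⟨r, hr, F, h1⟩ := hS.ans l.length
    (fun i => (U :: l)[l.length - i]'(by simp only [List.length_cons]; omega)) (by
      intro i
      have : (U :: l)[l.length - (i : ℕ)]'(by simp only [List.length_cons]; omega) ∈ U :: l :=
        List.getElem_mem _
      rcases List.mem_cons.1 this with h | h
      · rw [h]
        exact hU.1
      · exact (hl _ h).1) q hq
  have hlast : (U :: l)[l.length - ((Fin.last l.length : Fin (l.length + 1)) : ℕ)]'(by
      simp only [List.length_cons]; omega) = U := by simp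
  simp only [hlast] at h1
  obtain ⟨r2, hr2, h2⟩ := decide_fin (ans S l U) F r
  obtain ⟨r3, hr3, h3⟩ := decide_fin U F r2
  have hcl : ∀ O, ∀ r' ≤ r3, r' ∈ meets (ans S l U O) → IsClopen O := by
    intro O r' hr' h4
    obtain ⟨-, r'', hr'', h5⟩ := h1 O r' (hr'.trans (hr3.trans hr2)) h4
    obtain ⟨-, -, s, hs, -⟩ := h5 r'' le_rfl
    exact hU.2 O ⟨s, hs⟩
  refine ⟨r3, hr3.trans (hr2.trans hr), (F.filter fun O => r3 ∈ meets (ans S l U O)).subtype
    IsClopen, ⟨fun O r' hr' h4 => ?_, fun W hW => ?_⟩, fun W hW => ?_⟩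
  · have h5 := (h1 O r' (hr'.trans (hr3.trans hr2)) h4).1
    refine ⟨⟨O, hcl O r' hr' h4⟩, ?_, rfl⟩
    rw [Finset.mem_subtype, Finset.mem_filter]
    refine ⟨h5, ?_⟩
    rcases h2 O h5 with h6 | h6
    · exact down_meets _ _ h6 _ hr3
    · exact absurd h4 (h6 r' (hr'.trans hr3))
  · rw [Finset.mem_subtype, Finset.mem_filter] at hW
    exact hW.2
  · rw [Finset.mem_subtype, Finset.mem_filter] at hW
    obtain ⟨-, r'', hr'', h5⟩ := h1 W.1 r3 (hr3.trans hr2) hW.2
    rcases h3 W.1 hW.1 with h6 | h6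
    · exact h6
    · exact absurd h5 (h6 r'' hr'')

omit hS in
/-- The points which are always covered. -/
def KK (q₀ : Coh) (S : (n : ℕ) → (Fin (n + 1) → Nm) → Nm) (l : List Nm) (q : Coh) : Set Can :=
  {x | ∀ U, Legal q₀ U → ∀ q' ≤ q, ∃ r ≤ q', ∃ O, x ∈ O ∧ r ∈ meets (ans S l U O)}

omit hS in
/-- The cover avoiding the image of the generic real. -/
def avoid (φ : Can → Can) : Nm := fun O => {r | IsClopen O ∧ Disjoint O (φ '' cone r)}

omit hS in
theorem legal_avoid {φ : Can → Can} (hφ : Continuous φ) (hi : Function.Injective φ) :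
    Legal q₀ (avoid φ) := by
  have hdown : ∀ O, Down (avoid φ O) := fun O r hr q hq =>
    ⟨hr.1, hr.2.mono_right (image_mono (cone_anti hq))⟩
  refine ⟨fun p _ => ⟨⟨fun O => mem_fimp.2 fun q _ h => ?_, fun x => mem_fex.2 fun q _ => ?_⟩,
    fun F => mem_fimp.2 fun q _ h => ?_⟩, fun O ⟨r, hr⟩ => hr.1⟩
  · obtain ⟨r, hr, h1⟩ := exists_of_meets (hdown O) h
    exact ⟨r, hr, h1.1.isOpen⟩
  · obtain ⟨r, hr, h1⟩ : ∃ r ≤ q, x ∉ φ '' cone r := by
      by_cases hx : ∃ c, φ c = x
      · obtain ⟨c, rfl⟩ := hx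
        obtain ⟨r, hr, h1⟩ := exists_avoid q c
        refine ⟨r, hr, ?_⟩
        rintro ⟨c', h2, h3⟩
        exact h1 (hi h3 ▸ h2)
      · exact ⟨q, le_rfl, fun ⟨c, _, h2⟩ => hx ⟨c, h2⟩⟩
    have h2 : IsClosed (φ '' cone r) := ((isClosed_cone r).isCompact.image hφ).isClosed
    obtain ⟨O, hO, hxO, h3⟩ := compact_exists_isClopen_in_isOpen h2.isOpen_compl h1
    refine ⟨r, hr, O, mem_fex_of_mem hxO (down_meets _) (meets_of_mem ⟨hO, ?_⟩)⟩
    exact disjoint_left.2 fun y hy hy' => h3 hy hy'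
  · -- finite unions
    have h1 : ∀ G : Finset (Set Can), G ⊆ F → ∃ r ≤ q, ∀ O ∈ G, r ∈ avoid φ O := by
      classical
      intro G
      induction G using Finset.induction_on with
      | empty => exact fun _ => ⟨q, le_rfl, by simp⟩
      | insert O G _ ih =>
        intro hG
        obtain ⟨r, hr, h2⟩ := ih ((Finset.subset_insert _ _).trans hG)
        obtain ⟨r', hr', h3⟩ := exists_of_meets (hdown O)
          (down_meets _ _ (h O (hG (Finset.mem_insert_self _ _))) _ hr)
        refine ⟨r', hr'.trans hr, fun O' hO' => ?_⟩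
        rcases Finset.mem_insert.1 hO' with rfl | hO'
        · exact h3
        · exact hdown _ _ (h2 O' hO') _ hr'
    obtain ⟨r, hr, h2⟩ := h1 F subset_rfl
    refine ⟨r, hr, meets_of_mem ⟨?_, ?_⟩⟩
    · exact isClopen_biUnion_finset fun O hO => (h2 O hO).1
    · rw [disjoint_iUnion₂_left]
      exact fun O hO => (h2 O hO).2

theorem countable_KK {l : List Nm} (hl : ∀ A ∈ l, Legal q₀ A) {q : Coh} (hq : q ≤ q₀) :
    (KK q₀ S l q).Countable := by
  by_contra hunc
  have hunc' : ¬ (closure (KK q₀ S l q)).Countable := fun h => hunc (h.mono subset_closure)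
  have := polish_can
  obtain ⟨φ, hφ1, hφ2, hφ3⟩ := isClosed_closure.exists_nat_bool_injection_of_not_countable hunc'
  have hU : Legal q₀ (avoid φ) := legal_avoid hφ2 hφ3
  obtain ⟨r, hr, G, ⟨h1, h2⟩, h3⟩ := exists_dec hS hl hU hq
  have hdown : ∀ O, Down (avoid φ O) := fun O r hr q hq =>
    ⟨hr.1, hr.2.mono_right (image_mono (cone_anti hq))⟩
  obtain ⟨r1, hr1, h4⟩ : ∃ r1 ≤ r, ∀ W ∈ G, r1 ∈ avoid φ W.1 := by
    classical
    clear h1 h2
    induction G using Finset.induction_on with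
    | empty => exact ⟨r, le_rfl, by simp⟩
    | insert W G _ ih =>
      obtain ⟨r1, hr1, h4⟩ := ih fun W' hW' => h3 W' (Finset.mem_insert_of_mem hW')
      obtain ⟨r2, hr2, h5⟩ := exists_of_meets (hdown W.1)
        (down_meets _ _ (h3 W (Finset.mem_insert_self _ _)) _ hr1)
      refine ⟨r2, hr2.trans hr1, fun W' hW' => ?_⟩
      rcases Finset.mem_insert.1 hW' with rfl | hW'
      · exact h5
      · exact hdown _ _ (h4 W' hW') _ hr2
  have hKW : closure (KK q₀ S l q) ⊆ ⋃ W ∈ G, W.1 := by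
    refine closure_minimal (fun x hx => ?_) (isClosed_biUnion_finset fun W _ => W.2.isClosed)
    obtain ⟨r2, hr2, O, hxO, h5⟩ := hx (avoid φ) hU r1 (hr1.trans hr)
    obtain ⟨W, hW, rfl⟩ := h1 O r2 (hr2.trans hr1) h5
    exact mem_iUnion₂.2 ⟨W, hW, hxO⟩
  obtain ⟨c, hc⟩ := cone_nonempty r1
  obtain ⟨W, hW, h5⟩ := mem_iUnion₂.1 (hKW (hφ1 (mem_range_self c)))
  exact disjoint_left.1 (h4 W hW).2 h5 (mem_image_of_mem φ hc)

end

/-! ### The play -/

/-- Countably many indices. -/
abbrev Idx : Type := Coh × Finset {W : Set Can // IsClopen W}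

theorem countable_idx : Countable Idx := by
  have h1 : Countable (Clopens Can) := (Clopens.countable_iff_secondCountable (X := Can)).2
    inferInstance
  have h2 : Countable {W : Set Can // IsClopen W} := by
    refine Function.Injective.countable (f := fun W => (⟨W.1, W.2⟩ : Clopens Can)) ?_
    intro W W' h
    exact Subtype.ext (congrArg (fun C : Clopens Can => (C : Set Can)) h)
  have h3 : Countable (Finset {W : Set Can // IsClopen W}) := inferInstance
  have h4 : Countable Coh := inferInstance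
  exact inferInstance

section

variable (q₀ : Coh) (S : (n : ℕ) → (Fin (n + 1) → Nm) → Nm)

/-- There are a move and a condition as described by the index. -/
def Sel (l : List Nm) (d : Idx) : Prop :=
  ∃ U : Nm, Legal q₀ U ∧ ∃ r ≤ d.1, Dec S l U r d.2

open Classical in
/-- The chosen move. -/
noncomputable def Uo (l : List Nm) (d : Idx) : Nm :=
  if h : Sel q₀ S l d then h.choose else avoid id

open Classical in
/-- The chosen condition. -/
noncomputable def ro (l : List Nm) (d : Idx) : Coh :=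
  if h : Sel q₀ S l d then h.choose_spec.2.choose else q₀

theorem legal_Uo (l : List Nm) (d : Idx) : Legal q₀ (Uo q₀ S l d) := by
  unfold Uo
  split_ifs with h
  · exact h.choose_spec.1
  · exact legal_avoid continuous_id Function.injective_id

theorem ro_spec {l : List Nm} {d : Idx} (h : Sel q₀ S l d) :
    ro q₀ S l d ≤ d.1 ∧ Dec S l (Uo q₀ S l d) (ro q₀ S l d) d.2 := by
  unfold Uo ro
  rw [dif_pos h, dif_pos h]
  exact h.choose_spec.2.choose_spec

/-- The positions (latest move first). -/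
noncomputable def pos : List Idx → List Nm
  | [] => []
  | d :: m => Uo q₀ S (pos m) d :: pos m

theorem length_pos (m : List Idx) : (pos q₀ S m).length = m.length := by
  induction m with
  | nil => rfl
  | cons d m ih => simp [pos, ih]

theorem legal_pos (m : List Idx) : ∀ A ∈ pos q₀ S m, Legal q₀ A := by
  induction m with
  | nil => intro A hA; simp [pos] at hA
  | cons d m ih =>
    intro A hA
    rcases List.mem_cons.1 hA with rfl | hA
    · exact legal_Uo q₀ S _ d
    · exact ih A hA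

variable (x : Can)

/-- The index gives an answer not containing `x`. -/
def Good (m : List Idx) (d : Idx) : Prop := Sel q₀ S (pos q₀ S m) d ∧ ∀ W ∈ d.2, x ∉ W.1

variable (en : Idx → ℕ)

/-- The conditions forcing that `d` is chosen after `m`. -/
def Ch (m : List Idx) (d : Idx) : Set Coh :=
  {r | Good q₀ S x m d ∧ r ≤ ro q₀ S (pos q₀ S m) d ∧
    ∀ d', en d' < en d → Good q₀ S x m d' → ∀ r' ≤ r, ¬ r' ≤ ro q₀ S (pos q₀ S m) d'}

/-- The conditions forcing that the list of the chosen indices is `m` (latest first). -/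
def EE : List Idx → Set Coh
  | [] => univ
  | d :: m => EE m ∩ Ch q₀ S x en m d

/-- The play. -/
def play (n : ℕ) : Nm := fun O =>
  {r | ∃ m d, m.length = n ∧ r ∈ EE q₀ S x en (d :: m) ∧
    r ∈ meets (Uo q₀ S (pos q₀ S m) d O)}

variable {q₀ S x en}

theorem down_Ch (m : List Idx) (d : Idx) : Down (Ch q₀ S x en m d) :=
  fun _ hr _ hq => ⟨hr.1, hq.trans hr.2.1, fun d' h1 h2 r' hr' => hr.2.2 d' h1 h2 r' (hr'.trans hq)⟩

theorem down_EE (m : List Idx) : Down (EE q₀ S x en m) := by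
  induction m with
  | nil => exact fun _ _ _ _ => trivial
  | cons d m ih => exact fun r hr q hq => ⟨ih r hr.1 q hq, down_Ch m d r hr.2 q hq⟩

theorem Ch_unique (hen : Function.Injective en) {m : List Idx} {d d' : Idx} {r : Coh}
    (h : r ∈ Ch q₀ S x en m d) (h' : r ∈ Ch q₀ S x en m d') : d = d' := by
  rcases lt_trichotomy (en d) (en d') with h1 | h1 | h1
  · exact absurd h.2.1 (h'.2.2 d h1 h.1 r le_rfl)
  · exact hen h1
  · exact absurd h'.2.1 (h.2.2 d' h1 h'.1 r le_rfl)

theorem EE_unique (hen : Function.Injective en) {r : Coh} : ∀ {m m' : List Idx},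
    m.length = m'.length → r ∈ EE q₀ S x en m → r ∈ EE q₀ S x en m' → m = m'
  | [], [], _, _, _ => rfl
  | [], _ :: _, h, _, _ => by simp at h
  | _ :: _, [], h, _, _ => by simp at h
  | d :: m, d' :: m', h, h1, h2 => by
    have h3 : m = m' := EE_unique hen (by simpa using h) h1.1 h2.1
    subst h3
    rw [Ch_unique hen h1.2 h2.2]

theorem exists_Ch (hS : Strat q₀ S) (hx : ∀ m, ∀ q ≤ q₀, x ∉ KK q₀ S (pos q₀ S m) q)
    (m : List Idx) {q : Coh} (hq : q ≤ q₀) : ∃ r ≤ q, ∃ d, r ∈ Ch q₀ S x en m d := by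
  classical
  -- a good index with a stronger condition
  have h1 : ∃ d, Good q₀ S x m d ∧ ro q₀ S (pos q₀ S m) d ≤ q := by
    have h2 := hx m q hq
    simp only [KK, mem_ofPred_eq, not_forall] at h2
    obtain ⟨U, hU, q', hq', h3⟩ := h2
    push Not at h3
    obtain ⟨r, hr, G, h4, -⟩ := exists_dec hS (legal_pos q₀ S m) hU (hq'.trans hq)
    have h5 : Sel q₀ S (pos q₀ S m) (q, G) := ⟨U, hU, r, hr.trans hq', h4⟩
    refine ⟨(q, G), ⟨h5, fun W hW hxW => ?_⟩, (ro_spec q₀ S h5).1⟩
    exact h3 r hr W.1 hxW (h4.2 W hW)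
  have h2 : ∃ k, ∃ d, en d = k ∧ Good q₀ S x m d ∧ ∃ r ≤ q, r ≤ ro q₀ S (pos q₀ S m) d := by
    obtain ⟨d, h3, h4⟩ := h1
    exact ⟨en d, d, rfl, h3, _, h4, le_rfl⟩
  obtain ⟨d, h3, h4, r, h5, h6⟩ := Nat.find_spec h2
  refine ⟨r, h5, d, h4, h6, fun d' h7 h8 r' hr' h9 => ?_⟩
  rw [h3] at h7
  exact Nat.find_min h2 h7 ⟨d', rfl, h8, r', hr'.trans h5, h9⟩

theorem exists_EE (hS : Strat q₀ S) (hx : ∀ m, ∀ q ≤ q₀, x ∉ KK q₀ S (pos q₀ S m) q)
    (n : ℕ) {q : Coh} (hq : q ≤ q₀) : ∃ r ≤ q, ∃ m, m.length = n ∧ r ∈ EE q₀ S x en m := by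
  induction n with
  | zero => exact ⟨q, le_rfl, [], rfl, trivial⟩
  | succ n ih =>
    obtain ⟨r, hr, m, hm, h1⟩ := ih
    obtain ⟨r', hr', d, h2⟩ := exists_Ch (en := en) hS hx m (hr.trans hq)
    exact ⟨r', hr'.trans hr, d :: m, by simp [hm], down_EE m _ h1 _ hr', h2⟩

theorem meets_play (hen : Function.Injective en) {m : List Idx} {d : Idx} {r : Coh}
    (h : r ∈ EE q₀ S x en (d :: m)) (O : Set Can) :
    r ∈ meets (play q₀ S x en m.length O) ↔ r ∈ meets (Uo q₀ S (pos q₀ S m) d O) := by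
  constructor
  · intro h1
    refine meets_of_dense fun q hq => ?_
    obtain ⟨r', hr', s, ⟨m', d', h2, h3, h4⟩, h5⟩ := h1 q hq
    have h6 : d' :: m' = d :: m := EE_unique hen (by simp [h2]) (down_EE _ _ h3 _ h5)
      (down_EE _ _ h _ (hr'.trans hq))
    obtain ⟨rfl, rfl⟩ := List.cons.inj h6
    exact ⟨r', hr', down_meets _ _ h4 _ h5⟩
  · intro h1
    exact meets_of_mem ⟨m, d, rfl, h, h1⟩

theorem legal_play (hen : Function.Injective en) (hS : Strat q₀ S)
    (hx : ∀ m, ∀ q ≤ q₀, x ∉ KK q₀ S (pos q₀ S m) q) (n : ℕ) :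
    ∀ p ≤ q₀, p ∈ fLegal (play q₀ S x en n) := by
  intro p hp
  -- below `p` the play agrees with a legal move
  have key : ∀ q ≤ p, ∃ r ≤ q, ∃ U : Nm, Legal q₀ U ∧ ∀ r' ≤ r, ∀ O,
      (r' ∈ meets (play q₀ S x en n O) ↔ r' ∈ meets (U O)) := by
    intro q hq
    obtain ⟨r, hr, m, hm, h1⟩ := exists_EE (en := en) hS hx (n + 1) (hq.trans hp)
    cases m with
    | nil => simp at hm
    | cons d m =>
      have hm' : m.length = n := by simpa using hm
      subst hm'
      exact ⟨r, hr, _, legal_Uo q₀ S (pos q₀ S m) d, fun r' hr' O =>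
        meets_play hen (down_EE _ _ h1 _ hr') O⟩
  refine ⟨⟨fun O => mem_fimp.2 fun q hq h => ?_, fun y => mem_fex.2 fun q hq => ?_⟩,
    fun F => mem_fimp.2 fun q hq h => ?_⟩
  · obtain ⟨r, hr, U, hU, h1⟩ := key q hq
    have h2 := (h1 r le_rfl O).1 (down_meets _ _ h _ hr)
    obtain ⟨r', hr', h3⟩ := mem_fimp.1 ((hU.1 r (hr.trans (hq.trans hp))).1.1 O) r le_rfl h2
    exact ⟨r', hr'.trans hr, h3⟩
  · obtain ⟨r, hr, U, hU, h1⟩ := key q hq
    obtain ⟨r', hr', O, h2⟩ := mem_fex.1 ((hU.1 r (hr.trans (hq.trans hp))).1.2 y) r le_rfl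
    obtain ⟨r'', hr'', hyO, h3⟩ := mem_fex.1 h2 r' le_rfl
    exact ⟨r'', hr''.trans (hr'.trans hr), O, mem_fex_of_mem hyO (down_meets _)
      ((h1 r'' (hr''.trans hr') O).2 h3)⟩
  · obtain ⟨r, hr, U, hU, h1⟩ := key q hq
    obtain ⟨r', hr', h2⟩ := mem_fimp.1 ((hU.1 r (hr.trans (hq.trans hp))).2 F) r le_rfl
      fun O hO => (h1 r le_rfl O).1 (down_meets _ _ (h O hO) _ hr)
    exact ⟨r', hr'.trans hr, (h1 r' hr' _).2 h2⟩

theorem same_play (hen : Function.Injective en) : ∀ (m : List Idx) {r : Coh},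
    r ∈ EE q₀ S x en m → ∀ (i : ℕ) (h : m.length - 1 - i < (pos q₀ S m).length), i < m.length →
      r ∈ fSame (play q₀ S x en i) ((pos q₀ S m)[m.length - 1 - i])
  | [], _, _, i, _, hi => by simp at hi
  | d :: m, r, hr, i, h, hi => by
    rcases Nat.lt_succ_iff_lt_or_eq.1 hi with h1 | h1
    · have h2 := same_play hen m hr.1 i (by rw [length_pos]; omega) h1
      have h3 : (d :: m).length - 1 - i = (m.length - 1 - i) + 1 := by
        simp only [List.length_cons]
        omega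
      have h4 : (pos q₀ S (d :: m))[(d :: m).length - 1 - i] =
          (pos q₀ S m)[m.length - 1 - i]'(by rw [length_pos]; omega) := by
        simp only [h3, pos, List.getElem_cons_succ]
      rw [h4]
      exact h2
    · subst h1
      have h4 : (pos q₀ S (d :: m))[(d :: m).length - 1 - m.length] =
          Uo q₀ S (pos q₀ S m) d := by
        simp [pos]
      rw [h4]
      intro O
      refine ⟨mem_fimp.2 fun q hq h5 => ⟨q, le_rfl, ?_⟩, mem_fimp.2 fun q hq h5 =>
        ⟨q, le_rfl, ?_⟩⟩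
      · exact (meets_play hen (down_EE _ _ hr _ hq) O).1 h5
      · exact (meets_play hen (down_EE _ _ hr _ hq) O).2 h5

end

/-- There is no winning strategy. -/
theorem no_strat {q₀ : Coh} {S : (n : ℕ) → (Fin (n + 1) → Nm) → Nm} (hS : Strat q₀ S) : False := by
  have hc := countable_idx
  obtain ⟨en, hen⟩ := exists_injective_nat Idx
  -- the point
  have h1 : (⋃ (m : List Idx) (q : {q : Coh // q ≤ q₀}), KK q₀ S (pos q₀ S m) q.1).Countable := by
    refine countable_iUnion fun m => ?_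
    have : Countable {q : Coh // q ≤ q₀} := inferInstance
    exact countable_iUnion fun q => countable_KK hS (legal_pos q₀ S m) q.2
  obtain ⟨x, hx⟩ : ∃ x, x ∉ ⋃ (m : List Idx) (q : {q : Coh // q ≤ q₀}),
      KK q₀ S (pos q₀ S m) q.1 := by
    by_contra hcon
    push Not at hcon
    rw [← eq_univ_iff_forall] at hcon
    rw [hcon] at h1
    have h2 : Countable Can := countable_univ_iff.1 h1
    obtain ⟨g, hg⟩ := (countable_iff_exists_surjective (α := Can)).1 h2
    obtain ⟨k, hk⟩ := hg fun k => !(g k k)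
    have := congrFun hk k
    simp at this
  have hx' : ∀ m, ∀ q ≤ q₀, x ∉ KK q₀ S (pos q₀ S m) q := fun m q hq h =>
    hx (mem_iUnion₂.2 ⟨m, ⟨q, hq⟩, h⟩)
  obtain ⟨r, hr, n, O, hxO, h2⟩ := hS.cov (play q₀ S x en) (legal_play hen hS hx') x q₀ le_rfl
  obtain ⟨r1, hr1, m', hm', h3⟩ := exists_EE (en := en) hS hx' (n + 1) hr
  cases m' with
  | nil => simp at hm'
  | cons d m =>
    have hn : m.length = n := by simpa using hm'
    rw [← length_pos q₀ S m] at hn
    subst hn
    obtain ⟨r2, hr2, h4⟩ := hS.ext (pos q₀ S m).length (fun i => play q₀ S x en i)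
      (fun i => (Uo q₀ S (pos q₀ S m) d :: pos q₀ S m)[(pos q₀ S m).length - i]'(by
        simp only [List.length_cons]; omega)) r1 (hr1.trans hr) (by
        intro i
        have hL := length_pos q₀ S m
        have hL' := length_pos q₀ S (d :: m)
        have hi : (i : ℕ) < (pos q₀ S m).length + 1 := i.2
        obtain ⟨k, hk⟩ : ∃ k : ℕ, k = (i : ℕ) := ⟨_, rfl⟩
        have h5 := same_play hen (d :: m) h3 k (by
          rw [hL']
          simp only [List.length_cons]
          omega) (by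
          simp only [List.length_cons]
          omega)
        have h6 : (d :: m).length - 1 - k = (pos q₀ S m).length - k := by
          simp only [List.length_cons]
          omega
        simp only [h6] at h5
        subst hk
        exact h5)
    obtain ⟨r3, hr3, h5⟩ := mem_fimp.1 (h4 O).1 r2 le_rfl
      (down_meets _ _ h2 _ (hr2.trans hr1))
    have h6 := h3.2
    obtain ⟨W, hW, h7⟩ := ((ro_spec q₀ S h6.1.1).2.1 O r3 ((hr3.trans hr2).trans h6.2.1)) h5
    exact h6.1.2 W hW (h7 ▸ hxO)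

/-! ### The games -/

theorem strat_of_winning {𝒜 𝒞 ℬ : Nm → Set Coh} (hA : ∀ A p, p ∈ fLegal A → p ∈ 𝒜 A)
    (hC : ∀ A p, p ∈ 𝒞 A → p ∈ fFinite A) (hB : ∀ A p, p ∈ ℬ A → p ∈ fCovers A) {q₀ : Coh}
    {S : (n : ℕ) → (Fin (n + 1) → Nm) → Nm} (h : q₀ ∈ fWinning 𝒜 𝒞 ℬ S) : Strat q₀ S where
  ext := fun n A B q hq hAB => mem_fimp.1 (h.1 n A B) q hq hAB
  ans := by
    intro n A hAl q hq
    obtain ⟨r, hr, h1, h2⟩ := mem_fimp.1 (h.2.1 n A) q hq fun i => hA _ _ (hAl i q hq)
    obtain ⟨r1, hr1, F, h3⟩ := mem_fex.1 (hC _ _ h1) r le_rfl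
    refine ⟨r1, hr1.trans hr, F, fun O r' hr' h4 => ⟨?_, ?_⟩⟩
    · obtain ⟨_, _, h5⟩ := mem_fimp.1 (h3 O) r' hr' h4
      exact h5
    · exact mem_fimp.1 (h2 O) r' (hr'.trans hr1) h4
  cov := by
    intro A hAl x q hq
    obtain ⟨r, hr, h1⟩ := mem_fimp.1 (h.2.2 A) q hq fun n => hA _ _ (hAl n q hq)
    obtain ⟨r1, hr1, O, h2⟩ := mem_fex.1 (hB _ _ h1 x) r le_rfl
    obtain ⟨r2, hr2, hxO, h3⟩ := mem_fex.1 h2 r1 le_rfl
    obtain ⟨r3, hr3, s, hs, h4⟩ := h3 r2 le_rfl
    obtain ⟨n, hn⟩ := mem_iUnion.1 hs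
    exact ⟨r3, hr3.trans (hr2.trans (hr1.trans hr)), n, O, hxO, meets_of_le hn h4⟩

theorem finite_of_single {A : Nm} {p : Coh} (h : p ∈ fSingle A) : p ∈ fFinite A := by
  refine mem_fex.2 fun q hq => ?_
  obtain ⟨r, hr, O, h1⟩ := mem_fex.1 h.1 q hq
  refine ⟨r, hr, {O}, fun O' => mem_fimp.2 fun q' hq' h2 => ?_⟩
  obtain ⟨r', hr', h3⟩ := mem_fimp.1 (h.2 O O') q' (hq'.trans (hr.trans hq))
    ⟨down_meets _ _ h1 _ hq', h2⟩
  refine ⟨r', hr', ?_⟩
  rw [mem_fground, Finset.mem_singleton]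
  exact (mem_fground.1 h3).symm

theorem covers_of_kcover {A : Nm} {p : Coh} (h : p ∈ fKCover A) : p ∈ fCovers A := by
  intro x
  -- the named singleton
  have hmem : ∀ (q : Coh) (y : Can), q ∈ meets ({r | y = x} : Set Coh) → y = x := by
    intro q y hq
    obtain ⟨-, -, s, hs, -⟩ := hq q le_rfl
    exact hs
  have hK : p ∈ fCompact (fun y : Can => ({r | y = x} : Set Coh)) := by
    intro B
    refine mem_fimp.2 fun q hq hB => ?_
    obtain ⟨r, hr, h1⟩ := mem_fimp.1 (hB.2 x) q le_rfl (meets_of_mem rfl)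
    obtain ⟨r1, hr1, O, h2⟩ := mem_fex.1 h1 r le_rfl
    obtain ⟨r2, hr2, hxO, h3⟩ := mem_fex.1 h2 r1 le_rfl
    refine ⟨r2, hr2.trans (hr1.trans hr), mem_fex_of_mem {O} (down_fand
      (down_fall fun _ => down_fall fun _ => down_meets _) (down_fall fun _ => down_fimp _ _))
      ⟨fun O' hO' => ?_, fun y => mem_fimp.2 fun q' hq' h4 => ⟨q', le_rfl, ?_⟩⟩⟩
    · rw [Finset.mem_singleton] at hO'
      subst hO'
      exact h3
    · have := hmem q' y h4
      subst this
      exact ⟨O, Finset.mem_singleton_self O, hxO⟩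
  refine mem_fex.2 fun q hq => ?_
  obtain ⟨r, hr, h1⟩ := mem_fimp.1 (h.2 _) q hq (down_fall (fun _ => down_fimp _ _) _ hK _ hq)
  obtain ⟨r1, hr1, O, h2, h3⟩ := mem_fex.1 h1 r le_rfl
  obtain ⟨r2, hr2, h4⟩ := mem_fimp.1 (h3 x) r1 le_rfl (meets_of_mem rfl)
  refine ⟨r2, hr2.trans (hr1.trans hr), O, mem_fex_of_mem h4 (down_meets _) ?_⟩
  exact down_meets _ _ h2 _ hr2

/-- II has no winning strategy in the Menger game in the extension. -/
theorem no_menger (p : Coh) : p ∈ fnot (fIIWinsFin (P := Coh) (X := Can) fOpenCover fOpenCover) := by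
  intro q _ hq
  obtain ⟨r, _, S, hS⟩ := mem_fex.1 hq q le_rfl
  exact no_strat (strat_of_winning (fun A p h => h.1) (fun A p h => h) (fun A p h => h.2) hS)

/-- II has no winning strategy in the `k`-Menger game in the extension. -/
theorem no_kmenger (p : Coh) : p ∈ fnot (fIIWinsFin (P := Coh) (X := Can) fKCover fKCover) := by
  intro q _ hq
  obtain ⟨r, _, S, hS⟩ := mem_fex.1 hq q le_rfl
  exact no_strat (strat_of_winning (fun A p h => kcover_of_legal h) (fun A p h => h)
    (fun A p h => covers_of_kcover h) hS)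

/-- II has no winning strategy in the `k`-Rothberger game in the extension. -/
theorem no_krothberger (p : Coh) :
    p ∈ fnot (fIIWinsOne (P := Coh) (X := Can) fKCover fKCover) := by
  intro q _ hq
  obtain ⟨r, _, S, hS⟩ := mem_fex.1 hq q le_rfl
  exact no_strat (strat_of_winning (fun A p h => kcover_of_legal h)
    (fun A p h => finite_of_single h) (fun A p h => covers_of_kcover h) hS)

end Pool.Agent.V11244.CohCore
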