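import Pool.Agent.Helper669.Forcing

/-!
# Selection games on ground model spaces, in the ground model and in the extension

Sentences of the forcing language are sets of conditions (see `Helper669.Forcing`). A name for a
subset of a ground model set `Y` is a map `Y → Set P`, the sentence `y ∈ A` is `meets (A y)`. In
particular, the names for the families of ground model subsets of `X` are the maps
`Set X → Set P`.
-/

namespace Pool.Agent.V11244.CohGame

set_option linter.unusedSectionVars false

open Pool.Agent.Helper669.Forcing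
open Set

universe u v w

/-! ### Strongly proper forcing -/

/-- `q` is strongly generic for `M`, where `M` stands for the intersection of a model with the
forcing. -/
def StronglyGeneric {P : Type u} [Preorder P] (M : Set P) (q : P) : Prop :=
  ∀ r ≤ q, ∃ r' ∈ M, ∀ s ∈ M, s ≤ r' → ∃ t, t ≤ s ∧ t ≤ r

/-- `P` is strongly proper for stationarily many models: for every set `Z` containing the
conditions and every `F : [Z]^{<ω} → Z` there is a countable `M ⊆ Z` closed under `F` such that
all conditions in `M` have extensions that are strongly generic for `M ∩ P`. -/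
def StronglyProper (P : Type u) [Preorder P] : Prop :=
  ∀ (Z : Type u) (e : P → Z) (F : List Z → Z), Function.Injective e →
    ∃ M : Set Z, M.Countable ∧ (∀ l : List Z, (∀ z ∈ l, z ∈ M) → F l ∈ M) ∧
      ∀ p, e p ∈ M → ∃ q ≤ p, StronglyGeneric {p | e p ∈ M} q

/-! ### The games in the ground model -/

section ground

variable (X : Type v) [TopologicalSpace X]

/-- Open covers. -/
def OpenCovers : Set (Set (Set X)) := {𝒰 | (∀ O ∈ 𝒰, IsOpen O) ∧ ∀ x, ∃ O ∈ 𝒰, x ∈ O}

/-- `k`-covers. -/
def KCovers : Set (Set (Set X)) :=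
  {𝒰 | (∀ O ∈ 𝒰, IsOpen O) ∧ ∀ K, IsCompact K → ∃ O ∈ 𝒰, K ⊆ O}

variable {X}

/-- II has a winning strategy in `G_fin(𝒜,ℬ)`. The value `σ n A` is the answer of II in round `n`,
when I has played `A 0, …, A n`. -/
def IIWinsFin (𝒜 ℬ : Set (Set (Set X))) : Prop :=
  ∃ σ : (n : ℕ) → (Fin (n + 1) → Set (Set X)) → Set (Set X),
    (∀ (n : ℕ) (A : Fin (n + 1) → Set (Set X)), (∀ i, A i ∈ 𝒜) →
      (σ n A).Finite ∧ σ n A ⊆ A (Fin.last n)) ∧
    ∀ A : ℕ → Set (Set X), (∀ n, A n ∈ 𝒜) → (⋃ n, σ n (fun i => A i)) ∈ ℬ

/-- II has a winning strategy in `G_1(𝒜,ℬ)`. -/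
def IIWinsOne (𝒜 ℬ : Set (Set (Set X))) : Prop :=
  ∃ σ : (n : ℕ) → (Fin (n + 1) → Set (Set X)) → Set X,
    (∀ (n : ℕ) (A : Fin (n + 1) → Set (Set X)), (∀ i, A i ∈ 𝒜) → σ n A ∈ A (Fin.last n)) ∧
    ∀ A : ℕ → Set (Set X), (∀ n, A n ∈ 𝒜) → {O | ∃ n, O = σ n (fun i => A i)} ∈ ℬ

end ground

/-! ### The games in the extension -/

section

variable {P : Type u} [Preorder P] {X : Type v}

/-- The named families `A` and `B` are equal. -/
def fSame (A B : Set X → Set P) : Set P :=
  fall fun O => fand (fimp (meets (A O)) (meets (B O))) (fimp (meets (B O)) (meets (A O)))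

/-- The named family `A` is contained in `B`. -/
def fSub (A B : Set X → Set P) : Set P := fall fun O => fimp (meets (A O)) (meets (B O))

/-- The named family `A` is finite. -/
def fFinite (A : Set X → Set P) : Set P :=
  fex fun F : Finset (Set X) => fall fun O => fimp (meets (A O)) (fground (O ∈ F))

/-- The named family `A` has exactly one element. -/
def fSingle (A : Set X → Set P) : Set P :=
  fand (fex fun O => meets (A O))
    (fall fun O => fall fun O' => fimp (fand (meets (A O)) (meets (A O'))) (fground (O = O')))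

/-- The named family `A` covers `X`. -/
def fCovers (A : Set X → Set P) : Set P :=
  fall fun x : X => fex fun O : Set X => fex fun _ : x ∈ O => meets (A O)

variable [TopologicalSpace X]

/-- All members of the named family `A` are ground model open sets. -/
def fOpenFam (A : Set X → Set P) : Set P := fall fun O => fimp (meets (A O)) (fground (IsOpen O))

/-- The named family `A` is a cover of `X` by ground model open sets. -/
def fOpenCover (A : Set X → Set P) : Set P := fand (fOpenFam A) (fCovers A)

/-- The named subset `K` of `X` is compact, for the topology with the ground model topology as a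
base: every family of ground model open sets that covers `K` has a finite subfamily that
covers `K`. -/
def fCompact (K : X → Set P) : Set P :=
  fall fun A : Set X → Set P =>
    fimp
      (fand (fOpenFam A)
        (fall fun x => fimp (meets (K x)) (fex fun O : Set X => fex fun _ : x ∈ O => meets (A O))))
      (fex fun F : Finset (Set X) =>
        fand (fall fun O : Set X => fall fun _ : O ∈ F => meets (A O))
          (fall fun x => fimp (meets (K x)) (fground (∃ O ∈ F, x ∈ O))))

/-- The named family `A` of ground model open sets is a `k`-cover in the extension. -/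
def fKCover (A : Set X → Set P) : Set P :=
  fand (fOpenFam A)
    (fall fun K : X → Set P => fimp (fCompact K)
      (fex fun O : Set X => fand (meets (A O)) (fall fun x => fimp (meets (K x)) (fground (x ∈ O)))))

end

section

variable {P : Type u} [Preorder P] {X : Type v}

/-- `S` names a winning strategy of II in a game of length `ω` in which I plays families with the
property `𝒜`, II answers with subfamilies with the property `𝒞`, and wins if the union of the
answers has the property `ℬ`. Here `S n A` is a name for the answer of II in round `n` when I has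
played the named families `A 0, …, A n`; the first clause says that it depends only on the
families played and not on their names. -/
def fWinning (𝒜 𝒞 ℬ : (Set X → Set P) → Set P)
    (S : (n : ℕ) → (Fin (n + 1) → Set X → Set P) → Set X → Set P) : Set P :=
  fand
    (fall fun n => fall fun A : Fin (n + 1) → Set X → Set P =>
      fall fun B : Fin (n + 1) → Set X → Set P =>
        fimp (fall fun i => fSame (A i) (B i)) (fSame (S n A) (S n B)))
    (fand
      (fall fun n => fall fun A : Fin (n + 1) → Set X → Set P =>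
        fimp (fall fun i => 𝒜 (A i)) (fand (𝒞 (S n A)) (fSub (S n A) (A (Fin.last n)))))
      (fall fun A : ℕ → Set X → Set P =>
        fimp (fall fun n => 𝒜 (A n)) (ℬ fun O => ⋃ n, S n (fun i => A i) O)))

/-- In the extension, II has a winning strategy in `G_fin(𝒜,ℬ)`. -/
def fIIWinsFin (𝒜 ℬ : (Set X → Set P) → Set P) : Set P :=
  fex fun S : (n : ℕ) → (Fin (n + 1) → Set X → Set P) → Set X → Set P =>
    fWinning 𝒜 fFinite ℬ S

/-- In the extension, II has a winning strategy in `G_1(𝒜,ℬ)`. -/
def fIIWinsOne (𝒜 ℬ : (Set X → Set P) → Set P) : Set P :=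
  fex fun S : (n : ℕ) → (Fin (n + 1) → Set X → Set P) → Set X → Set P =>
    fWinning 𝒜 fSingle ℬ S

end

/-! ### Compact spaces -/

theorem wins_of_compact {X : Type v} [TopologicalSpace X] [CompactSpace X] :
    IIWinsFin (OpenCovers X) (OpenCovers X) := by
  classical
  have h1 : ∀ 𝒰 : Set (Set X), 𝒰 ∈ OpenCovers X → ∃ F ⊆ 𝒰, F.Finite ∧ ∀ x, ∃ O ∈ F, x ∈ O := by
    rintro 𝒰 ⟨h1, h2⟩
    obtain ⟨F, hF, hF', h3⟩ := isCompact_univ.elim_finite_subcover_image (b := 𝒰) (c := id) h1
      (fun x _ => by
        obtain ⟨O, hO, hx⟩ := h2 x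
        exact mem_iUnion₂.2 ⟨O, hO, hx⟩)
    refine ⟨F, hF, hF', fun x => ?_⟩
    obtain ⟨O, hO, hx⟩ := mem_iUnion₂.1 (h3 (mem_univ x))
    exact ⟨O, hO, hx⟩
  refine ⟨fun n A => if h : A (Fin.last n) ∈ OpenCovers X then (h1 _ h).choose else ∅,
    fun n A hA => ?_, fun A hA => ?_⟩
  · dsimp only
    rw [dif_pos (hA _)]
    exact ⟨(h1 _ (hA _)).choose_spec.2.1, (h1 _ (hA _)).choose_spec.1⟩
  · have h2 : ∀ n : ℕ, A ((Fin.last n : Fin (n + 1)) : ℕ) ∈ OpenCovers X := fun n => hA _
    refine ⟨fun O hO => ?_, fun x => ?_⟩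
    · obtain ⟨n, hn⟩ := mem_iUnion.1 hO
      dsimp only at hn
      rw [dif_pos (h2 n)] at hn
      exact (h2 n).1 O ((h1 _ (h2 n)).choose_spec.1 hn)
    · obtain ⟨O, hO, hx⟩ := (h1 _ (h2 0)).choose_spec.2.2 x
      refine ⟨O, mem_iUnion.2 ⟨0, ?_⟩, hx⟩
      dsimp only
      rw [dif_pos (h2 0)]
      exact hO

theorem winsOne_of_compact {X : Type v} [TopologicalSpace X] [CompactSpace X] :
    IIWinsOne (KCovers X) (KCovers X) := by
  have h1 : ∀ 𝒰 : Set (Set X), 𝒰 ∈ KCovers X → univ ∈ 𝒰 := by
    rintro 𝒰 ⟨-, h2⟩
    obtain ⟨O, hO, h3⟩ := h2 univ isCompact_univ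
    rwa [univ_subset_iff.1 h3] at hO
  refine ⟨fun n A => univ, fun n A hA => h1 _ (hA _), fun A hA => ⟨?_, fun K hK => ?_⟩⟩
  · rintro O ⟨n, rfl⟩
    exact isOpen_univ
  · exact ⟨univ, ⟨0, rfl⟩, subset_univ K⟩

theorem winsFin_of_winsOne {X : Type v} {𝒜 ℬ : Set (Set (Set X))} (h : IIWinsOne 𝒜 ℬ) :
    IIWinsFin 𝒜 ℬ := by
  obtain ⟨σ, h1, h2⟩ := h
  refine ⟨fun n A => {σ n A}, fun n A hA => ⟨finite_singleton _, ?_⟩, fun A hA => ?_⟩
  · rw [singleton_subset_iff]
    exact h1 n A hA
  · have h3 : (⋃ n, ({σ n fun i : Fin (n + 1) => A i} : Set (Set X))) =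
        {O | ∃ n, O = σ n (fun i => A i)} := by
      ext O
      simp [eq_comm]
    rw [h3]
    exact h2 A hA

/-! ### Countable forcings are strongly proper -/

theorem countable_image_lists {Z : Type u} {S : Set Z} (h : S.Countable) (F : List Z → Z) :
    (F '' {l | ∀ z ∈ l, z ∈ S}).Countable := by
  refine Countable.image ?_ F
  have hct : Countable S := h.to_subtype
  have h1 : (range fun l : List S => l.map (fun z : S => (z : Z))).Countable := countable_range _
  refine h1.mono fun l hl => ?_
  lift l to List S using hl with l'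
  exact ⟨l', rfl⟩

theorem stronglyProper_of_countable {P : Type u} [Preorder P] [Countable P] :
    StronglyProper P := by
  intro Z e F he
  -- the closure of the conditions
  let C : ℕ → Set Z := fun n => Nat.rec (range e) (fun _ S => S ∪ F '' {l | ∀ z ∈ l, z ∈ S}) n
  have hC : ∀ n, C (n + 1) = C n ∪ F '' {l | ∀ z ∈ l, z ∈ C n} := fun n => rfl
  have hmono : ∀ {m n}, m ≤ n → C m ⊆ C n := by
    intro m n h
    induction n, h using Nat.le_induction with
    | base => exact subset_rfl
    | succ n _ ih => rw [hC]; exact ih.trans subset_union_left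
  have hcount : ∀ n, (C n).Countable := by
    intro n
    induction n with
    | zero => exact countable_range e
    | succ n ih =>
      rw [hC]
      exact ih.union (countable_image_lists ih F)
  refine ⟨⋃ n, C n, countable_iUnion hcount, fun l hl => ?_, fun p _ => ⟨p, le_rfl, ?_⟩⟩
  · have h1 : ∃ n, ∀ z ∈ l, z ∈ C n := by
      clear * - hl hmono
      induction l with
      | nil => exact ⟨0, by simp⟩
      | cons a l ih =>
        obtain ⟨n, hn⟩ := ih fun z hz => hl z (List.mem_cons_of_mem _ hz)
        obtain ⟨m, hm⟩ := mem_iUnion.1 (hl a List.mem_cons_self)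
        refine ⟨max m n, fun z hz => ?_⟩
        rcases List.mem_cons.1 hz with rfl | hz
        · exact hmono (le_max_left _ _) hm
        · exact hmono (le_max_right _ _) (hn z hz)
    obtain ⟨n, hn⟩ := h1
    refine mem_iUnion.2 ⟨n + 1, ?_⟩
    rw [hC]
    exact Or.inr ⟨l, hn, rfl⟩
  · intro r _
    exact ⟨r, mem_iUnion.2 ⟨0, r, rfl⟩, fun s _ hs => ⟨s, le_rfl, hs⟩⟩

end Pool.Agent.V11244.CohGame
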