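import Pool.Agent.Y588.Fnl

/-!
# The universe and the constructible universe are models of ZFC
-/

set_option autoImplicit false

namespace Pool.Agent.V11244.ConstrL

open Pool.Agent.W868 Pool.Agent.Y588
open ZFSet (pair)

/-- The constructible universe: the union of the levels `LA ∅ α` of the constructible
hierarchy. -/
def L : Set ZFSet.{0} := {x | ∃ α : Ordinal.{0}, x ∈ LA ∅ α}

theorem isZF_univ : IsZF (Set.univ : Set ZFSet.{0}) where
  trans := fun _ _ _ _ => trivial
  pairing := fun _ _ _ _ => trivial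
  union := fun _ _ => trivial
  infinity := trivial
  power := fun x _ => ⟨ZFSet.powerset x, trivial, fun z => by simp⟩
  separation := fun φ _ x _ => ⟨ZFSet.sep (fun z => Sat Set.univ id φ ![z]) x, trivial,
    fun z => ZFSet.mem_sep⟩
  replacement := by
    intro φ _ x _ h
    classical
    let f : ZFSet.{0} → ZFSet.{0} := fun z =>
      if hz : ∃! w, w ∈ Set.univ ∧ Sat Set.univ id φ ![z, w] then hz.choose else ∅
    have hf : ∀ z ∈ x, Sat Set.univ id φ ![z, f z] ∧
        ∀ w, Sat Set.univ id φ ![z, w] → w = f z := by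
      intro z hz
      have h1 := h z hz
      have h2 := h1.choose_spec
      simp only [f, h1, dif_pos]
      exact ⟨h2.1.2, fun w hw => h2.2 w ⟨trivial, hw⟩⟩
    refine ⟨im f x, trivial, fun w => ?_⟩
    rw [mem_im]
    constructor
    · rintro ⟨z, hz, rfl⟩
      exact ⟨trivial, z, hz, (hf z hz).1⟩
    · rintro ⟨-, z, hz, h1⟩
      exact ⟨z, hz, (hf z hz).2 w h1⟩

theorem isZFC_univ : IsZFC (Set.univ : Set ZFSet.{0}) where
  toIsZF := isZF_univ
  choice := by
    intro x _ hne hdis
    classical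
    let f : ZFSet.{0} → ZFSet.{0} := fun y => if h : ∃ z, z ∈ y then h.choose else ∅
    have hf : ∀ y ∈ x, f y ∈ y := by
      intro y hy
      have h1 := hne y hy
      simp only [f, h1, dif_pos]
      exact h1.choose_spec
    refine ⟨im f x, trivial, fun y hy => ⟨f y, ⟨hf y hy, mem_im.2 ⟨y, hy, rfl⟩⟩, ?_⟩⟩
    rintro z ⟨hz, hz'⟩
    obtain ⟨y', hy', rfl⟩ := mem_im.1 hz'
    rw [hdis y hy y' hy' _ hz (hf y' hy')]

theorem isZFC_L : IsZFC L := by
  have h0 : IsLA ∅ (LC Set.univ ∅) :=
    isLA_LC isZF_univ trivial (δ := ∅) trivial ZFSet.isOrdinal_empty (ZFSet.empty_subset _)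
  have h1 : LC Set.univ ∅ = {x | ∃ α : Ordinal.{0}, α.toZFSet ∈ Set.univ ∧ x ∈ LA ∅ α} :=
    L_eq h0 fun x hx => ⟨fun _ => trivial, fun _ => ord_LC isZF_univ trivial trivial hx⟩
  have h2 : L = LC Set.univ ∅ := by
    rw [h1]
    ext x
    simp [L]
  rw [h2]
  exact isZFC_of_gc h0.zf h0.gc

end Pool.Agent.V11244.ConstrL
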