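import Mathlib

/-! # Forcing axioms: definitions -/

namespace Pool.Agent.V11244.FAxioms

open Cardinal Set

universe u

/-- `D` is dense in `P` (smaller conditions are stronger). -/
def IsDenseIn {P : Type u} [Preorder P] (D : Set P) : Prop := ∀ p, ∃ q ∈ D, q ≤ p

/-- `p` and `q` are compatible. -/
def Compat {P : Type u} [Preorder P] (p q : P) : Prop := ∃ r, r ≤ p ∧ r ≤ q

/-- `G` is a filter on `P`. -/
structure IsPosetFilter {P : Type u} [Preorder P] (G : Set P) : Prop where
  nonempty : G.Nonempty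
  up : ∀ p ∈ G, ∀ q, p ≤ q → q ∈ G
  dir : ∀ p ∈ G, ∀ q ∈ G, ∃ r ∈ G, r ≤ p ∧ r ≤ q

/-- `P` is proper: there is a club (the sets closed under an operation `F`) of countable sets `N`
of conditions and sets of conditions, such that every `p ∈ N` has an `(N, P)`-generic extension
`q`, that is, for every dense set `D ∈ N`, the set `D ∩ N` is predense below `q`. -/
def IsProper (P : Type u) [Preorder P] : Prop :=
  ∃ F : List (P ⊕ Set P) → P ⊕ Set P, ∀ N : Set (P ⊕ Set P), N.Countable →
    (∀ l : List (P ⊕ Set P), (∀ z ∈ l, z ∈ N) → F l ∈ N) →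
    ∀ p, Sum.inl p ∈ N → ∃ q ≤ p, ∀ D : Set P, Sum.inr D ∈ N → IsDenseIn D →
      ∀ r ≤ q, ∃ d ∈ D, Sum.inl d ∈ N ∧ Compat r d

/-- The proper forcing axiom: for every proper poset and every family of (at most) `ℵ₁` dense
sets there is a filter which meets all of them. -/
def PFA : Prop :=
  ∀ (P : Type) [Preorder P] [Nonempty P], IsProper P →
    ∀ (I : Type), #I ≤ ℵ₁ → ∀ D : I → Set P, (∀ i, IsDenseIn (D i)) →
      ∃ G : Set P, IsPosetFilter G ∧ ∀ i, (G ∩ D i).Nonempty

/-- The forcing axiom for countable posets and `ℵ₁` dense sets. -/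
def MACountable : Prop :=
  ∀ (P : Type) [Preorder P] [Nonempty P], Countable P →
    ∀ (I : Type), #I ≤ ℵ₁ → ∀ D : I → Set P, (∀ i, IsDenseIn (D i)) →
      ∃ G : Set P, IsPosetFilter G ∧ ∀ i, (G ∩ D i).Nonempty

theorem isProper_of_countable (P : Type u) [Preorder P] [Nonempty P] [Countable P] :
    IsProper P := by
  obtain ⟨e, he⟩ := exists_surjective_nat P
  refine ⟨fun l => Sum.inl (e l.length), fun N _ hF p _ => ⟨p, le_rfl, fun D _ hD r _ => ?_⟩⟩
  have h0 : Sum.inl (e 0) ∈ N := hF [] (by simp)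
  have hall : ∀ q : P, Sum.inl q ∈ N := by
    intro q
    obtain ⟨n, rfl⟩ := he q
    have := hF (List.replicate n (Sum.inl (e 0))) (by
      intro z hz
      rw [List.eq_of_mem_replicate hz]
      exact h0)
    simpa using this
  obtain ⟨d, hd, hdr⟩ := hD r
  exact ⟨d, hd, hall d, d, hdr, le_rfl⟩

theorem PFA.maCountable (h : PFA) : MACountable := fun P _ _ _ I hI D hD =>
  h P (isProper_of_countable P) I hI D hD

/-- Finite binary sequences. -/
structure CStr : Type where
  /-- the sequence -/
  l : List Bool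

instance : Preorder CStr where
  le := fun s t => t.l <+: s.l
  le_refl := fun s => List.prefix_refl s.l
  le_trans := fun _ _ _ h h' => List.IsPrefix.trans h' h

instance : Nonempty CStr := ⟨⟨[]⟩⟩

instance : Countable CStr := by
  have : Function.Injective CStr.l := fun a b h => by cases a; cases b; simp_all
  exact this.countable

/-- The axiom gives new elements of the Cantor space. -/
theorem MACountable.exists_new (h : MACountable) {I : Type} (hI : #I ≤ ℵ₁) (x : I → ℕ → Bool) :
    ∃ c : ℕ → Bool, ∀ i, c ≠ x i := by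
  obtain ⟨G, hG, hGD⟩ := h CStr inferInstance (I ⊕ ℕ) (by
    rw [mk_sum]
    simp only [Cardinal.lift_id, mk_nat]
    refine (add_le_add hI (aleph0_le_aleph 1)).trans ?_
    rw [add_eq_self (aleph0_le_aleph 1)]) (fun j => match j with
      | Sum.inl i => {p : CStr | ∃ n, ∃ h : n < p.l.length, p.l[n] ≠ x i n}
      | Sum.inr n => {p : CStr | n < p.l.length}) (by
    rintro (i | n) p
    · exact ⟨⟨p.l ++ [!(x i p.l.length)]⟩, ⟨p.l.length, by simp, by simp⟩,
        List.prefix_append _ _⟩
    · refine ⟨⟨p.l ++ List.replicate (n + 1) true⟩, ?_, List.prefix_append _ _⟩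
      show n < (p.l ++ List.replicate (n + 1) true).length
      simp only [List.length_append, List.length_replicate]
      omega)
  have hlong : ∀ n, ∃ p ∈ G, n < p.l.length := fun n => by
    obtain ⟨p, hp, hp'⟩ := hGD (Sum.inr n)
    exact ⟨p, hp, hp'⟩
  choose p hp hlen using hlong
  have hagree : ∀ q ∈ G, ∀ q' ∈ G, ∀ n (h : n < q.l.length) (h' : n < q'.l.length),
      q.l[n] = q'.l[n] := by
    intro q hq q' hq' n h h'
    obtain ⟨r, hr, h1, h2⟩ := hG.dir q hq q' hq'
    have h1' : q.l <+: r.l := h1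
    have h2' : q'.l <+: r.l := h2
    rw [h1'.getElem h, h2'.getElem h']
  refine ⟨fun n => (p n).l[n]'(hlen n), fun i hi => ?_⟩
  obtain ⟨q, hq, n, hn, hne⟩ := hGD (Sum.inl i)
  apply hne
  rw [← hi]
  exact hagree q hq (p n) (hp n) n hn (hlen n)

end Pool.Agent.V11244.FAxioms
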