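import Pool.Agent.Helper669.Forcing

/-!
# Wide Aronszajn trees: definitions, and a special one not embeddable into an `ω₁`-tree
-/

namespace Pool.Agent.V11244.WideTree

open Ordinal Cardinal Set
open Pool.Agent.Helper669.Forcing

universe u

/-! ### Definitions -/

/-- A tree: a partial order in which the predecessors of each node form a well-order. -/
class SetTree (T : Type u) extends PartialOrder T where
  pred_wo : ∀ t : T, IsWellOrder {s : T // s < t} (fun a b => a.1 < b.1)

/-- The height of a node: the order type of the set of its predecessors. -/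
noncomputable def ht {T : Type u} [SetTree T] (t : T) : Ordinal.{u} :=
  @Ordinal.type {s : T // s < t} (fun a b => a.1 < b.1) (SetTree.pred_wo t)

/-- The level `T_α`. -/
def level (T : Type u) [SetTree T] (α : Ordinal.{u}) : Set T := {t | ht t = α}

/-- The tree has height `ω₁`: the first empty level is the level `ω₁` (and then all nodes have
countable height). -/
def HasHeightOmega1 (T : Type u) [SetTree T] : Prop :=
  (∀ α < ω₁, (level T α).Nonempty) ∧ level T ω₁ = ∅ ∧ ∀ t : T, ht t < ω₁

/-- The tree (of height `ω₁`) is normal: it has one node on level `0`; every node is comparable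
with some node on every level below `ω₁`; and two distinct nodes on a limit level `α` have
different projections to some level `β < α`. -/
def IsNormal (T : Type u) [SetTree T] : Prop :=
  (∃! t : T, t ∈ level T 0) ∧
  (∀ t : T, ∀ α < ω₁, ∃ s ∈ level T α, s ≤ t ∨ t ≤ s) ∧
  (∀ α : Ordinal.{u}, Order.IsSuccLimit α → ∀ s ∈ level T α, ∀ t ∈ level T α, s ≠ t →
    ∃ β < α, ∃ s' ∈ level T β, ∃ t' ∈ level T β, s' < s ∧ t' < t ∧ s' ≠ t')

/-- An `(ω₁, ≤ ℵ₁)`-Aronszajn tree: a normal tree of height `ω₁` with all levels of size at most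
`ℵ₁` and without a branch (maximal chain) of size `ℵ₁`. -/
def IsWideAronszajn (T : Type u) [SetTree T] : Prop :=
  HasHeightOmega1 T ∧ IsNormal T ∧ (∀ α, #(level T α) ≤ ℵ₁) ∧
    ¬ ∃ C : Set T, IsMaxChain (· ≤ ·) C ∧ ℵ₁ ≤ #C

/-- An `ω₁`-tree: a normal tree of height `ω₁` with all levels countable. -/
def IsOmega1Tree (T : Type u) [SetTree T] : Prop :=
  HasHeightOmega1 T ∧ IsNormal T ∧ ∀ α, (level T α).Countable

/-- The tree is the union of countably many antichains. -/
def IsSpecial (T : Type u) [SetTree T] : Prop :=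
  ∃ c : T → ℕ, ∀ s t, s < t → c s ≠ c t

/-- `S` embeds into `T`. -/
def Embeds (S : Type u) (T : Type u) [SetTree S] [SetTree T] : Prop :=
  ∃ e : S → T, Function.Injective e ∧ ∀ s s', s < s' ↔ e s < e s'

/-- The forcing notion `P` adds no reals: for every name `x` of a subset of `ℕ`, densely many
conditions `q` force that `x` is equal to some ground model set `a`. -/
def AddsNoReals (P : Type) [Preorder P] : Prop :=
  ∀ x : ℕ → Set P, ∀ p : P, ∃ q ≤ p, ∃ a : Set ℕ, ∀ n,
    (n ∈ a → q ∈ meets (x n)) ∧ (n ∉ a → q ∈ fnot (meets (x n)))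

/-- The forcing notion `P` forces that `S` is the union of countably many antichains: every
condition forces that there is a function `R` from `S` to `ℕ` which takes different values at
comparable nodes. -/
def ForcesSpecial (P : Type) [Preorder P] (S : Type u) [SetTree S] : Prop :=
  ∀ p : P, p ∈ fex fun R : S → ℕ → Set P => fand (IsFun R)
    (fall fun s => fall fun t => fall fun _ : s < t => fall fun n =>
      fnot (fand (meets (R s n)) (meets (R t n))))

/-- `S` can be specialized without adding reals. -/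
def SpecializableWithoutReals (S : Type u) [SetTree S] : Prop :=
  ∃ (P : Type) (_ : Preorder P) (_ : Nonempty P), AddsNoReals P ∧ ForcesSpecial P S

/-! ### General facts -/

/-- A special tree can be specialized without adding reals, by the trivial forcing. -/
theorem IsSpecial.specializable {S : Type u} [SetTree S] (h : IsSpecial S) :
    SpecializableWithoutReals S := by
  obtain ⟨c, hc⟩ := h
  refine ⟨Unit, inferInstance, inferInstance, ?_, ?_⟩
  · intro x p
    refine ⟨p, le_rfl, {n | p ∈ meets (x n)}, fun n => ⟨fun h => h, fun h q hq hq' => h ?_⟩⟩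
    exact hq'
  · intro p
    have hm : ∀ (s : S) (n : ℕ) (q : Unit), q ∈ meets ({_q : Unit | c s = n}) ↔ c s = n := by
      intro s n q
      constructor
      · intro h
        obtain ⟨r, -, t, ht, -⟩ := h q le_rfl
        exact ht
      · intro h
        exact meets_of_mem h
    refine mem_fex_of_mem (fun s n => {_q : Unit | c s = n}) ?_ ⟨⟨?_, ?_⟩, ?_⟩
    · exact down_fand (down_IsFun _) (down_fall fun _ => down_fall fun _ => down_fall fun _ =>
        down_fall fun _ => down_fnot _)
    · intro s
      exact mem_fex_of_mem (c s) (down_meets _) ((hm s _ _).2 rfl)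
    · intro s n m
      refine mem_fimp.2 fun q _ hq => ⟨q, le_rfl, ?_⟩
      have h1 := (hm s n q).1 hq.1
      have h2 := (hm s m q).1 hq.2
      exact h1.symm.trans h2
    · intro s t hst n q _ hq
      have h1 := (hm s n q).1 hq.1
      have h2 := (hm t n q).1 hq.2
      exact hc s t hst (h1.trans h2.symm)

theorem wo_of {T : Type u} [PartialOrder T] (h : T → Ordinal.{u})
    (mono : ∀ s t, s < t → h s < h t) (lin : ∀ t a b : T, a < t → b < t → a < b ∨ a = b ∨ b < a)
    (t : T) : IsWellOrder {s : T // s < t} (fun a b => a.1 < b.1) where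
  wf := by
    refine Subrelation.wf (r := InvImage (· < ·) fun a : {s : T // s < t} => h a.1) ?_
      (InvImage.wf _ wellFounded_lt)
    intro a b hab
    exact mono _ _ hab
  trichotomous := by
    intro a b h1 h2
    rcases lin t a.1 b.1 a.2 b.2 with h3 | h3 | h3
    · exact absurd h3 h1
    · exact Subtype.ext h3
    · exact absurd h3 h2

theorem ht_eq {T : Type u} [SetTree T] (h : T → Ordinal.{u})
    (mono : ∀ s t, s < t → h s < h t) (surj : ∀ t, ∀ β < h t, ∃ s < t, h s = β) (t : T) :
    ht t = h t := by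
  have := SetTree.pred_wo t
  rw [ht, ← type_toType (h t), type_eq]
  refine ⟨RelIso.ofSurjective (RelEmbedding.ofMonotone
    (fun a : {s : T // s < t} => ToType.mk (⟨h a.1, mono _ _ a.2⟩ : Set.Iio (h t))) ?_) ?_⟩
  · intro a b hab
    exact ToType.mk.lt_iff_lt.2 (mono _ _ hab)
  · intro y
    obtain ⟨s, hs, hs'⟩ := surj t (ToType.mk.symm y).1 (ToType.mk.symm y).2
    refine ⟨⟨s, hs⟩, ?_⟩
    have : (⟨h s, mono _ _ hs⟩ : Set.Iio (h t)) = ToType.mk.symm y := Subtype.ext hs'
    rw [RelEmbedding.ofMonotone_coe, this, OrderIso.apply_symm_apply]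

theorem ht_lt_ht {T : Type u} [SetTree T] {s t : T} (h : s < t) : ht s < ht t := by
  have := SetTree.pred_wo t
  have := SetTree.pred_wo s
  rw [ht, ht, type_lt_iff]
  refine ⟨⟨RelEmbedding.ofMonotone (fun a => ⟨a.1, a.2.trans h⟩) fun a b hab => hab, ⟨s, h⟩, ?_⟩⟩
  intro b
  constructor
  · rintro ⟨a, rfl⟩
    exact a.2
  · intro hb
    exact ⟨⟨b.1, hb⟩, rfl⟩

theorem ht_le_of_embeds {S T : Type u} [SetTree S] [SetTree T] {e : S → T}
    (he : ∀ s s', s < s' → e s < e s') (s : S) : ht s ≤ ht (e s) := by
  have := SetTree.pred_wo s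
  have := SetTree.pred_wo (e s)
  rw [ht, ht, type_le_iff']
  exact ⟨RelEmbedding.ofMonotone (fun a => ⟨e a.1, he _ _ a.2⟩) fun a b hab => he _ _ hab⟩

theorem exists_pred {T : Type u} [SetTree T] {t : T} {β : Ordinal.{u}} (h : β < ht t) :
    ∃ s < t, ht s = β := by
  have := SetTree.pred_wo t
  obtain ⟨a, ha⟩ := typein_surj (fun a b : {s : T // s < t} => a.1 < b.1) h
  refine ⟨a.1, a.2, ?_⟩
  have := SetTree.pred_wo a.1
  rw [← ha, ← type_subrel, ht, type_eq]
  refine ⟨RelIso.ofSurjective (RelEmbedding.ofMonotone (fun b => ⟨⟨b.1, b.2.trans a.2⟩, b.2⟩)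
    fun b c hbc => hbc) ?_⟩
  rintro ⟨⟨b, hb⟩, hb'⟩
  exact ⟨⟨b, hb'⟩, rfl⟩

theorem pred_linear {T : Type u} [SetTree T] {t a b : T} (ha : a ≤ t) (hb : b ≤ t) :
    a ≤ b ∨ b ≤ a := by
  rcases ha.eq_or_lt with rfl | ha
  · exact Or.inr hb
  rcases hb.eq_or_lt with rfl | hb
  · exact Or.inl ha.le
  have := SetTree.pred_wo t
  rcases trichotomous_of (fun a b : {s : T // s < t} => a.1 < b.1) ⟨a, ha⟩ ⟨b, hb⟩ with h | h | h
  · exact Or.inl (le_of_lt h)
  · exact Or.inl (le_of_eq (congrArg Subtype.val h))
  · exact Or.inr (le_of_lt h)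

/-! ### The wide part -/

/-- A well-ordered set of order type `ω₁`. -/
abbrev A : Type := (ℵ₁ : Cardinal.{0}).ord.ToType

/-- The ordinal of an element of `A`. -/
noncomputable def o (a : A) : Ordinal.{0} := (ToType.mk.symm a).1

theorem o_lt (a : A) : o a < ω₁ := by
  have h : (ToType.mk.symm a).1 < (ℵ₁ : Cardinal.{0}).ord := (ToType.mk.symm a).2
  exact h.trans_eq (ord_aleph 1)

theorem o_lt_o {a b : A} : o a < o b ↔ a < b :=
  (ToType.mk (o := (ℵ₁ : Cardinal.{0}).ord)).symm.lt_iff_lt

theorem o_le_o {a b : A} : o a ≤ o b ↔ a ≤ b :=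
  (ToType.mk (o := (ℵ₁ : Cardinal.{0}).ord)).symm.le_iff_le

theorem o_inj {a b : A} (h : o a = o b) : a = b := by
  have h1 := o_le_o.1 h.le
  have h2 := o_le_o.1 h.ge
  exact le_antisymm h1 h2

theorem exists_o {β : Ordinal.{0}} (h : β < ω₁) : ∃ a : A, o a = β := by
  have h' : β ∈ Set.Iio (ℵ₁ : Cardinal.{0}).ord := by rw [ord_aleph]; exact h
  exact ⟨ToType.mk ⟨β, h'⟩, by simp [o]⟩

theorem mk_A : #A = ℵ₁ := by simp [A]

/-- The pairs `(α, ξ)` with `ξ < α`. -/
abbrev Pr : Type := {p : A × A // p.2 < p.1}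

/-- The nodes of the wide part: finite sequences of pairs, the last pair first. -/
abbrev W : Type := List Pr

/-- The set of the nodes below a node. -/
def dn : W → Set W
  | [] => {[]}
  | p :: r => dn r ∪ {u | ∃ q : Pr, q.1.1 = p.1.1 ∧ q.1.2 ≤ p.1.2 ∧ u = q :: r}

/-- The height of a node. -/
noncomputable def hW : W → Ordinal.{0}
  | [] => 0
  | p :: r => hW r + (1 + o p.1.2)

theorem self_mem_dn : ∀ w : W, w ∈ dn w
  | [] => rfl
  | p :: r => Or.inr ⟨p, rfl, le_rfl, rfl⟩

theorem dn_trans {u : W} : ∀ {w : W}, u ∈ dn w → dn u ⊆ dn w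
  | [], h => by
    have h' : u = [] := h
    rw [h']
  | p :: r, h => by
    rcases h with h | ⟨q, h1, h2, rfl⟩
    · exact fun x hx => Or.inl (dn_trans h hx)
    · rintro x (hx | ⟨q', h3, h4, rfl⟩)
      · exact Or.inl hx
      · exact Or.inr ⟨q', h3.trans h1, h4.trans h2, rfl⟩

theorem hW_lt {u : W} : ∀ {w : W}, u ∈ dn w → u = w ∨ hW u < hW w
  | [], h => Or.inl h
  | p :: r, h => by
    rcases h with h | ⟨q, h1, h2, rfl⟩
    · right
      have h3 : hW u ≤ hW r := by
        rcases hW_lt h with rfl | h4
        · exact le_rfl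
        · exact h4.le
      refine h3.trans_lt ?_
      show hW r < hW r + (1 + o p.1.2)
      exact lt_add_of_pos_right _ (lt_of_lt_of_le zero_lt_one le_self_add)
    · rcases h2.eq_or_lt with h3 | h3
      · left
        have : q = p := Subtype.ext (Prod.ext h1 h3)
        rw [this]
      · right
        show hW r + (1 + o q.1.2) < hW r + (1 + o p.1.2)
        exact add_lt_add_right (add_lt_add_right (o_lt_o.2 h3) 1) (hW r)

theorem dn_linear {u v : W} : ∀ {w : W}, u ∈ dn w → v ∈ dn w → u ∈ dn v ∨ v ∈ dn u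
  | [], h, h' => by
    have h1 : u = [] := h
    have h2 : v = [] := h'
    rw [h1, h2]; exact Or.inl rfl
  | p :: r, h, h' => by
    rcases h with h | ⟨q, h1, h2, rfl⟩
    · rcases h' with h' | ⟨q', h3, h4, rfl⟩
      · exact dn_linear h h'
      · exact Or.inl (Or.inl h)
    · rcases h' with h' | ⟨q', h3, h4, rfl⟩
      · exact Or.inr (Or.inl h')
      · rcases le_total q.1.2 q'.1.2 with h5 | h5
        · exact Or.inl (Or.inr ⟨q, h1.trans h3.symm, h5, rfl⟩)
        · exact Or.inr (Or.inr ⟨q', h3.trans h1.symm, h5, rfl⟩)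

/-- A node in the last block. -/
theorem exists_block {p : Pr} {r : W} {β : Ordinal.{0}} (h1 : hW r < β) (h2 : β ≤ hW (p :: r)) :
    ∃ q : Pr, q.1.1 = p.1.1 ∧ q.1.2 ≤ p.1.2 ∧ hW (q :: r) = β := by
  have h3 : hW r + 1 ≤ β := Order.add_one_le_of_lt h1
  set δ := β - (hW r + 1) with hδ
  have h4 : hW r + 1 + δ = β := Ordinal.add_sub_cancel_of_le h3
  have h5 : δ ≤ o p.1.2 := by
    have h6 : hW r + 1 + δ ≤ hW r + 1 + o p.1.2 := by
      rw [h4, add_assoc]
      exact h2
    exact (add_le_add_iff_left _).1 h6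
  obtain ⟨a, ha⟩ := exists_o (h5.trans_lt (o_lt _))
  have h7 : a ≤ p.1.2 := by rw [← o_le_o, ha]; exact h5
  refine ⟨⟨(p.1.1, a), h7.trans_lt p.2⟩, rfl, h7, ?_⟩
  show hW r + (1 + o a) = β
  rw [ha, ← add_assoc, h4]

theorem exists_dn : ∀ {w : W} {β : Ordinal.{0}}, β ≤ hW w → ∃ u ∈ dn w, hW u = β
  | [], β, h => ⟨[], rfl, by
      have : β = 0 := le_antisymm h (bot_le (α := Ordinal.{0}))
      rw [this]; rfl⟩
  | p :: r, β, h => by
    rcases le_or_gt β (hW r) with h1 | h1
    · obtain ⟨u, hu, hu'⟩ := exists_dn h1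
      exact ⟨u, Or.inl hu, hu'⟩
    · obtain ⟨q, h2, h3, h4⟩ := exists_block h1 h
      exact ⟨q :: r, Or.inr ⟨q, h2, h3, rfl⟩, h4⟩

theorem omega1_add {a b : Ordinal.{0}} (ha : a < ω₁) (hb : b < ω₁) : a + b < ω₁ :=
  isPrincipal_add_omega 1 ha hb

theorem one_lt_omega1 : (1 : Ordinal.{0}) < ω₁ := one_lt_omega0.trans omega0_lt_omega_one

theorem hW_lt_omega1 : ∀ w : W, hW w < ω₁
  | [] => omega_pos 1
  | p :: r => omega1_add (hW_lt_omega1 r) (omega1_add one_lt_omega1 (o_lt _))

theorem exists_up {w : W} {β : Ordinal.{0}} (h : hW w ≤ β) (hβ : β < ω₁) :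
    ∃ u, w ∈ dn u ∧ hW u = β := by
  rcases h.eq_or_lt with rfl | h
  · exact ⟨w, self_mem_dn w, rfl⟩
  have h3 : hW w + 1 ≤ β := Order.add_one_le_of_lt h
  set δ := β - (hW w + 1) with hδ
  have h4 : hW w + 1 + δ = β := Ordinal.add_sub_cancel_of_le h3
  have h5 : δ < ω₁ := (Ordinal.sub_le_self β _).trans_lt hβ
  obtain ⟨a, ha⟩ := exists_o h5
  obtain ⟨b, hb⟩ := exists_o (omega1_add h5 one_lt_omega1)
  have hab : a < b := by
    rw [← o_lt_o, ha, hb]
    exact lt_add_of_pos_right _ zero_lt_one
  refine ⟨⟨(b, a), hab⟩ :: w, Or.inl (self_mem_dn w), ?_⟩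
  show hW w + (1 + o a) = β
  rw [ha, ← add_assoc, h4]

/-- Distinct nodes on a limit level have different projections. -/
theorem exists_diff {w w' : W} {γ : Ordinal.{0}} (hγ : Order.IsSuccLimit γ) (hw : hW w = γ)
    (hw' : hW w' = γ) (hne : w ≠ w') :
    ∃ u ∈ dn w, ∃ u' ∈ dn w', hW u = hW u' ∧ hW u < γ ∧ u ≠ u' := by
  have hpos : γ ≠ 0 := hγ.ne_bot
  cases w with
  | nil => exact absurd hw.symm hpos
  | cons p r =>
  cases w' with
  | nil => exact absurd hw'.symm hpos
  | cons p' r' =>
  have h1 : hW r < γ := by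
    rw [← hw]; exact lt_add_of_pos_right _ (lt_of_lt_of_le zero_lt_one le_self_add)
  have h2 : hW r' < γ := by
    rw [← hw']; exact lt_add_of_pos_right _ (lt_of_lt_of_le zero_lt_one le_self_add)
  set β := max (hW r) (hW r') + 1 with hβ
  have h3 : β < γ := hγ.add_one_lt (max_lt h1 h2)
  obtain ⟨q, hq1, hq2, hq3⟩ := exists_block (p := p) (r := r) (β := β)
    ((le_max_left _ _).trans_lt (lt_add_of_pos_right _ zero_lt_one)) (hw ▸ h3.le)
  obtain ⟨q', hq1', hq2', hq3'⟩ := exists_block (p := p') (r := r') (β := β)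
    ((le_max_right _ _).trans_lt (lt_add_of_pos_right _ zero_lt_one)) (hw' ▸ h3.le)
  refine ⟨q :: r, Or.inr ⟨q, hq1, hq2, rfl⟩, q' :: r', Or.inr ⟨q', hq1', hq2', rfl⟩,
    hq3.trans hq3'.symm, hq3 ▸ h3, fun heq => hne ?_⟩
  simp only [List.cons.injEq] at heq
  obtain ⟨h4, h5⟩ := heq
  subst h5
  have h6 : p.1.1 = p'.1.1 := by rw [← hq1, ← hq1', h4]
  have h7 : o p.1.2 = o p'.1.2 := by
    have h8 : hW r + (1 + o p.1.2) = hW r + (1 + o p'.1.2) := hw.trans hw'.symm
    exact add_left_cancel (add_left_cancel h8)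
  have h9 : p = p' := Subtype.ext (Prod.ext h6 (o_inj h7))
  rw [h9]

/-! ### The colouring -/

theorem countable_Iio (a : A) : (Set.Iio a).Countable := by
  have h := mk_Iio_toType_ord_lt a
  rw [← le_aleph0_iff_set_countable]
  exact Order.lt_succ_iff.1 (by rwa [succ_aleph0])

/-- Injections of the countable ordinals into the natural numbers. -/
noncomputable def inj (a : A) : A → ℕ := (countable_iff_exists_injOn.1 (countable_Iio a)).choose

theorem inj_injOn (a : A) : InjOn (inj a) (Set.Iio a) :=
  (countable_iff_exists_injOn.1 (countable_Iio a)).choose_spec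

/-- The colour of a node. -/
noncomputable def col (w : W) : List ℕ := w.map fun p => inj p.1.1 p.1.2

theorem length_le {u : W} : ∀ {w : W}, u ∈ dn w → u.length ≤ w.length
  | [], h => by
    have h' : u = [] := h
    rw [h']
  | p :: r, h => by
    rcases h with h | ⟨q, h1, h2, rfl⟩
    · exact (length_le h).trans (Nat.le_succ _)
    · simp

theorem col_ne {u w : W} (h : u ∈ dn w) (hne : u ≠ w) : col u ≠ col w := by
  intro hc
  have hlen : u.length = w.length := by
    have := congrArg List.length hc
    simpa [col] using this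
  cases w with
  | nil => exact hne h
  | cons p r =>
    rcases h with h | ⟨q, h1, h2, rfl⟩
    · have := length_le h
      simp only [List.length_cons] at hlen
      omega
    · simp only [col, List.map_cons, List.cons.injEq] at hc
      have h3 := hc.1
      rw [h1] at h3
      have h4 : q.1.2 < p.1.1 := h1 ▸ q.2
      have h5 := inj_injOn p.1.1 h4 p.2 h3
      exact hne (by rw [Subtype.ext (Prod.ext h1 h5)])

/-! ### The base -/

theorem exists_jj : ∃ f : A → (ℕ → Bool), Function.Injective f := by
  have h : #A ≤ #(ℕ → Bool) := by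
    rw [mk_A]
    simpa using aleph_one_le_continuum
  obtain ⟨f⟩ := (Cardinal.le_def _ _).1 h
  exact ⟨f, f.injective⟩

/-- An injection of `A` into the Cantor space. -/
noncomputable def jj : A → (ℕ → Bool) := exists_jj.choose

theorem jj_injective : Function.Injective jj := exists_jj.choose_spec

/-- The infinite sequence that agrees with `s` and then with `x`. -/
def glue (s : List Bool) (x : ℕ → Bool) : ℕ → Bool := fun n => (s[n]?).getD (x n)

/-- A dense set of `ℵ₁` branches. -/
def Bs : Set (ℕ → Bool) := range fun p : List Bool × A => glue p.1 (jj p.2)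

/-- The initial segment of length `n`. -/
def ini (x : ℕ → Bool) (n : ℕ) : List Bool := (List.range n).map x

theorem ini_length (x : ℕ → Bool) (n : ℕ) : (ini x n).length = n := by simp [ini]

theorem ini_prefix (x : ℕ → Bool) {n m : ℕ} (h : n ≤ m) : ini x n <+: ini x m := by
  obtain ⟨k, rfl⟩ := Nat.exists_eq_add_of_le h
  refine ⟨(List.range k).map fun i => x (n + i), ?_⟩
  simp [ini, List.range_add, Function.comp_def]

theorem ini_ne {x y : ℕ → Bool} {n : ℕ} (h : x n ≠ y n) : ini x (n + 1) ≠ ini y (n + 1) := by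
  intro he
  apply h
  have h1 := congrArg (fun l => l[n]?) he
  simpa [ini] using h1

theorem ini_glue (s : List Bool) (x : ℕ → Bool) : ini (glue s x) s.length = s := by
  apply List.ext_getElem
  · simp [ini]
  · intro i h1 h2
    simp [ini, glue, h2]

/-- The nodes: finite binary sequences, and pairs of a branch in `Bs` and a node of the wide
part. -/
inductive S : Type
  | inl (s : List Bool)
  | inr (p : Bs × W)

/-- The order of the tree. -/
def le : S → S → Prop
  | .inl s, .inl t => s <+: t
  | .inl s, .inr p => s = ini p.1.1 s.length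
  | .inr _, .inl _ => False
  | .inr p, .inr q => p.1 = q.1 ∧ p.2 ∈ dn q.2

/-- The heights. -/
noncomputable def hS : S → Ordinal.{0}
  | .inl s => s.length
  | .inr p => ω + hW p.2

theorem hS_lt {a b : S} (h : le a b) : a = b ∨ hS a < hS b := by
  rcases a with s | p <;> rcases b with t | q
  · rcases (List.IsPrefix.length_le h).eq_or_lt with h1 | h1
    · left
      rw [List.IsPrefix.eq_of_length h h1]
    · right
      show (s.length : Ordinal.{0}) < t.length
      exact_mod_cast h1
  · right
    show (s.length : Ordinal.{0}) < ω + hW q.2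
    exact (natCast_lt_omega0 _).trans_le le_self_add
  · exact absurd h (by simp [le])
  · obtain ⟨h1, h2⟩ := h
    rcases hW_lt h2 with h3 | h3
    · left; rw [Prod.ext h1 h3]
    · right
      exact add_lt_add_right h3 ω

theorem le_trans' {a b c : S} (h : le a b) (h' : le b c) : le a c := by
  rcases a with s | p <;> rcases b with t | q <;> rcases c with u | r
  · exact List.IsPrefix.trans h h'
  · have h1 : s <+: t := h
    have h2 : t = ini r.1.1 t.length := h'
    show s = ini r.1.1 s.length
    have h3 : s <+: ini r.1.1 t.length := h2 ▸ h1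
    have h4 := ini_prefix r.1.1 h1.length_le
    exact (List.prefix_of_prefix_length_le h3 h4 (by rw [ini_length])).eq_of_length
      (by rw [ini_length])
  · exact absurd h' (by simp [le])
  · have h1 : s = ini q.1.1 s.length := h
    show s = ini r.1.1 s.length
    rw [← h'.1]
    exact h1
  · exact absurd h (by simp [le])
  · exact absurd h (by simp [le])
  · exact absurd h' (by simp [le])
  · exact ⟨h.1.trans h'.1, dn_trans h'.2 h.2⟩

noncomputable instance : PartialOrder S where
  le := le
  le_refl := by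
    rintro (s | p)
    · exact List.prefix_refl s
    · exact ⟨rfl, self_mem_dn _⟩
  le_trans := fun _ _ _ => le_trans'
  le_antisymm := by
    intro a b h h'
    rcases hS_lt h with h1 | h1
    · exact h1
    · rcases hS_lt h' with h2 | h2
      · exact h2.symm
      · exact absurd h1 h2.asymm

theorem le_linear {t a b : S} (h : a ≤ t) (h' : b ≤ t) : a ≤ b ∨ b ≤ a := by
  change le a t at h
  change le b t at h'
  show le a b ∨ le b a
  rcases t with t | r <;> rcases a with s | p <;> rcases b with u | q
  · exact List.prefix_or_prefix_of_prefix h h'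
  · exact absurd h' (by simp [le])
  · exact absurd h (by simp [le])
  · exact absurd h (by simp [le])
  · have h1 : s = ini r.1.1 s.length := h
    have h2 : u = ini r.1.1 u.length := h'
    rcases le_total s.length u.length with h3 | h3
    · left
      show s <+: u
      rw [h1, h2]
      exact ini_prefix _ (by simpa [ini_length] using h3)
    · right
      show u <+: s
      rw [h1, h2]
      exact ini_prefix _ (by simpa [ini_length] using h3)
  · left
    have h1 : s = ini r.1.1 s.length := h
    show s = ini q.1.1 s.length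
    rw [h'.1]; exact h1
  · right
    have h1 : u = ini r.1.1 u.length := h'
    show u = ini p.1.1 u.length
    rw [h.1]; exact h1
  · rcases dn_linear h.2 h'.2 with h3 | h3
    · exact Or.inl ⟨h.1.trans h'.1.symm, h3⟩
    · exact Or.inr ⟨h'.1.trans h.1.symm, h3⟩

theorem hS_mono (a b : S) (h : a < b) : hS a < hS b := by
  rcases hS_lt h.le with h1 | h1
  · exact absurd h1 h.ne
  · exact h1

noncomputable instance : SetTree S where
  pred_wo := wo_of hS hS_mono (by
    intro t a b ha hb
    rcases le_linear ha.le hb.le with h | h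
    · rcases h.eq_or_lt with h1 | h1
      · exact Or.inr (Or.inl h1)
      · exact Or.inl h1
    · rcases h.eq_or_lt with h1 | h1
      · exact Or.inr (Or.inl h1.symm)
      · exact Or.inr (Or.inr h1))

theorem exists_le {t : S} {β : Ordinal.{0}} (h : β ≤ hS t) : ∃ s ≤ t, hS s = β := by
  rcases t with t | ⟨x, w⟩
  · have h' : β ≤ (t.length : Ordinal.{0}) := h
    obtain ⟨n, rfl⟩ := lt_omega0.1 (h'.trans_lt (natCast_lt_omega0 _))
    have h1 : n ≤ t.length := by exact_mod_cast h'
    refine ⟨S.inl (t.take n), List.take_prefix n t, ?_⟩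
    show ((t.take n).length : Ordinal.{0}) = n
    rw [List.length_take, min_eq_left h1]
  · rcases lt_or_ge β ω with h1 | h1
    · obtain ⟨n, rfl⟩ := lt_omega0.1 h1
      refine ⟨S.inl (ini x.1 n), ?_, ?_⟩
      · show ini x.1 n = ini x.1 (ini x.1 n).length
        rw [ini_length]
      · show ((ini x.1 n).length : Ordinal.{0}) = n
        rw [ini_length]
    · have h2 : ω + (β - ω) = β := Ordinal.add_sub_cancel_of_le h1
      have h' : β ≤ ω + hW w := h
      have h3 : β - ω ≤ hW w := by
        rw [← h2] at h'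
        exact (add_le_add_iff_left _).1 h'
      obtain ⟨u, hu, hu'⟩ := exists_dn h3
      refine ⟨S.inr (x, u), ⟨rfl, hu⟩, ?_⟩
      show ω + hW u = β
      rw [hu', h2]

theorem ht_S (t : S) : ht t = hS t := by
  refine ht_eq hS hS_mono ?_ t
  intro t β hβ
  obtain ⟨s, hs, hs'⟩ := exists_le hβ.le
  refine ⟨s, lt_of_le_of_ne hs ?_, hs'⟩
  rintro rfl
  exact absurd hs' hβ.ne'

theorem hS_lt_omega1 (t : S) : hS t < ω₁ := by
  rcases t with t | ⟨x, w⟩
  · exact (natCast_lt_omega0 _).trans omega0_lt_omega_one
  · exact omega1_add omega0_lt_omega_one (hW_lt_omega1 w)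

/-- Every node has extensions on all higher levels. -/
theorem exists_ge {t : S} {β : Ordinal.{0}} (h : hS t ≤ β) (hβ : β < ω₁) :
    ∃ s, t ≤ s ∧ hS s = β := by
  have hup : ∀ (x : Bs) (w : W), ω + hW w ≤ β → ∃ s, (S.inr (x, w) : S) ≤ s ∧ hS s = β := by
    intro x w h
    have h1 : ω ≤ β := le_self_add.trans h
    have h2 : ω + (β - ω) = β := Ordinal.add_sub_cancel_of_le h1
    have h3 : hW w ≤ β - ω := by
      rw [← h2] at h
      exact (add_le_add_iff_left _).1 h
    obtain ⟨u, hu, hu'⟩ := exists_up h3 ((Ordinal.sub_le_self β _).trans_lt hβ)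
    refine ⟨S.inr (x, u), ⟨rfl, hu⟩, ?_⟩
    show ω + hW u = β
    rw [hu', h2]
  rcases t with t | ⟨x, w⟩
  · have h' : (t.length : Ordinal.{0}) ≤ β := h
    rcases lt_or_ge β ω with h1 | h1
    · obtain ⟨n, rfl⟩ := lt_omega0.1 h1
      have h2 : t.length ≤ n := by exact_mod_cast h'
      refine ⟨S.inl (t ++ List.replicate (n - t.length) false), List.prefix_append _ _, ?_⟩
      show ((t ++ List.replicate (n - t.length) false).length : Ordinal.{0}) = n
      congr 1
      simp only [List.length_append, List.length_replicate]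
      omega
    · have hA : Nonempty A := by
        rw [← mk_ne_zero_iff, mk_A]
        exact aleph_pos 1 |>.ne'
      let a : A := hA.some
      let x : Bs := ⟨glue t (jj a), ⟨(t, a), rfl⟩⟩
      obtain ⟨s, hs, hs'⟩ := hup x [] (by
        show ω + 0 ≤ β
        rwa [add_zero])
      refine ⟨s, le_trans ?_ hs, hs'⟩
      show t = ini (glue t (jj a)) t.length
      rw [ini_glue]
  · exact hup x w h

/-! ### The properties of the tree -/

theorem mem_level {t : S} {α : Ordinal.{0}} : t ∈ level S α ↔ hS t = α := by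
  rw [level, mem_ofPred_eq, ht_S]

theorem hasHeight_S : HasHeightOmega1 S := by
  refine ⟨fun α hα => ?_, ?_, fun t => ?_⟩
  · obtain ⟨s, -, hs⟩ := exists_ge (t := S.inl []) (β := α) (by
      show ((([] : List Bool).length : ℕ) : Ordinal.{0}) ≤ α
      simp) hα
    exact ⟨s, mem_level.2 hs⟩
  · rw [eq_empty_iff_forall_notMem]
    intro t ht
    exact (hS_lt_omega1 t).ne (mem_level.1 ht)
  · rw [ht_S]; exact hS_lt_omega1 t

theorem normal_S : IsNormal S := by
  refine ⟨⟨S.inl [], ?_, ?_⟩, ?_, ?_⟩
  · show (S.inl []) ∈ level S 0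
    rw [mem_level]; show ((([] : List Bool).length : ℕ) : Ordinal.{0}) = 0; simp
  · rintro (t | ⟨x, w⟩) ht
    · rw [mem_level] at ht
      have h : ((t.length : ℕ) : Ordinal.{0}) = 0 := ht
      have h1 : t.length = 0 := by exact_mod_cast h
      rw [List.length_eq_zero_iff.1 h1]
    · rw [mem_level] at ht
      have h : ω + hW w = 0 := ht
      have h1 : ω ≤ ω + hW w := le_self_add
      rw [h] at h1
      exact absurd h1 (not_le.2 omega0_pos)
  · intro t α hα
    rcases le_total α (hS t) with h | h
    · obtain ⟨s, hs, hs'⟩ := exists_le h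
      exact ⟨s, mem_level.2 hs', Or.inl hs⟩
    · obtain ⟨s, hs, hs'⟩ := exists_ge h hα
      exact ⟨s, mem_level.2 hs', Or.inr hs⟩
  · intro α hα s hs t ht hne
    rw [mem_level] at hs ht
    have hω : ω ≤ α := omega0_le_of_isSuccLimit hα
    rcases s with s | ⟨x, w⟩
    · have h : ((s.length : ℕ) : Ordinal.{0}) = α := hs
      exact absurd hω (not_le.2 (h ▸ natCast_lt_omega0 _))
    rcases t with t | ⟨y, w'⟩
    · have h : ((t.length : ℕ) : Ordinal.{0}) = α := ht
      exact absurd hω (not_le.2 (h ▸ natCast_lt_omega0 _))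
    have hw : ω + hW w = α := hs
    have hw' : ω + hW w' = α := ht
    by_cases hxy : x = y
    · subst hxy
      have hne' : w ≠ w' := fun h => hne (by rw [h])
      have heq : hW w = hW w' := add_left_cancel (hw.trans hw'.symm)
      have hγ : Order.IsSuccLimit (hW w) := by
        have h0 : hW w ≠ 0 := by
          intro h0
          rcases w with _ | ⟨p, r⟩
          · rcases w' with _ | ⟨p', r'⟩
            · exact hne' rfl
            · have h1 : (0 : Ordinal.{0}) < hW (p' :: r') := by
                show (0 : Ordinal.{0}) < hW r' + (1 + o p'.1.2)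
                exact lt_of_lt_of_le zero_lt_one (le_self_add.trans le_add_self)
              rw [← heq, h0] at h1
              exact lt_irrefl _ h1
          · have h1 : (0 : Ordinal.{0}) < hW (p :: r) := by
              show (0 : Ordinal.{0}) < hW r + (1 + o p.1.2)
              exact lt_of_lt_of_le zero_lt_one (le_self_add.trans le_add_self)
            rw [h0] at h1
            exact lt_irrefl _ h1
        refine isSuccLimit_iff.2 ⟨h0, ?_⟩
        rw [Order.isSuccPrelimit_iff_succ_lt]
        intro δ hδ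
        rw [Order.succ_eq_add_one]
        have h2 : ω + δ < α := by rw [← hw]; exact add_lt_add_right hδ ω
        have h3 := hα.add_one_lt h2
        rw [← hw, add_assoc] at h3
        exact (add_lt_add_iff_left _).1 h3
      obtain ⟨u, hu, u', hu', h1, h2, h3⟩ := exists_diff hγ rfl heq.symm hne'
      refine ⟨ω + hW u, ?_, S.inr (x, u), mem_level.2 rfl, S.inr (x, u'), mem_level.2 ?_, ?_, ?_, ?_⟩
      · rw [← hw]; exact add_lt_add_right h2 ω
      · show ω + hW u' = ω + hW u
        rw [h1]
      · refine lt_of_le_of_ne ⟨rfl, hu⟩ ?_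
        intro he
        simp only [S.inr.injEq, Prod.mk.injEq, true_and] at he
        rw [he] at h2
        exact lt_irrefl _ h2
      · refine lt_of_le_of_ne ⟨rfl, hu'⟩ ?_
        intro he
        simp only [S.inr.injEq, Prod.mk.injEq, true_and] at he
        rw [h1, he, heq] at h2
        exact lt_irrefl _ h2
      · intro he
        simp only [S.inr.injEq, Prod.mk.injEq, true_and] at he
        exact h3 he
    · have h1 : (x.1 : ℕ → Bool) ≠ y.1 := fun h => hxy (Subtype.ext h)
      obtain ⟨n, hn⟩ := Function.ne_iff.1 h1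
      have key : ∀ (z : Bs) (v : W), (S.inl (ini z.1 (n + 1)) : S) < S.inr (z, v) := by
        intro z v
        refine lt_of_le_of_ne ?_ (by simp)
        show ini z.1 (n + 1) = ini z.1 (ini z.1 (n + 1)).length
        rw [ini_length]
      refine ⟨((n + 1 : ℕ) : Ordinal.{0}), (natCast_lt_omega0 _).trans_le hω,
        S.inl (ini x.1 (n + 1)), mem_level.2 ?_, S.inl (ini y.1 (n + 1)), mem_level.2 ?_,
        key x w, key y w', ?_⟩
      · show ((ini x.1 (n + 1)).length : Ordinal.{0}) = ((n + 1 : ℕ) : Ordinal.{0})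
        rw [ini_length]
      · show ((ini y.1 (n + 1)).length : Ordinal.{0}) = ((n + 1 : ℕ) : Ordinal.{0})
        rw [ini_length]
      · intro he
        simp only [S.inl.injEq] at he
        exact ini_ne hn he

theorem special_S : IsSpecial S := by
  refine ⟨fun t => match t with
    | .inl s => 2 * Encodable.encode s
    | .inr p => 2 * Encodable.encode (col p.2) + 1, ?_⟩
  rintro (s | ⟨x, u⟩) (t | ⟨y, w⟩) hst
  · intro h
    have h1 : Encodable.encode s = Encodable.encode t := by simpa using h
    exact hst.ne (by rw [Encodable.encode_injective h1])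
  · intro h
    simp only at h
    omega
  · intro h
    simp only at h
    omega
  · intro h
    have h1 : Encodable.encode (col u) = Encodable.encode (col w) := by simpa using h
    have h2 : le (S.inr (x, u)) (S.inr (y, w)) := hst.le
    have h3 : x = y := h2.1
    subst h3
    refine col_ne (u := u) (w := w) h2.2 ?_ (Encodable.encode_injective h1)
    rintro rfl
    exact hst.ne rfl

theorem mk_Pr_le : #Pr ≤ ℵ₁ := by
  refine (mk_subtype_le _).trans ?_
  rw [mk_prod]
  simp

theorem mk_W_le : #W ≤ ℵ₁ := (mk_list_le_max _).trans (max_le (aleph0_le_aleph 1) mk_Pr_le)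

theorem mk_Bs_le : #Bs ≤ ℵ₁ := by
  refine mk_range_le.trans ?_
  rw [mk_prod, mk_A]
  simp

theorem mk_S_le : #S ≤ ℵ₁ := by
  have hinj : Function.Injective (fun t : S => match t with
    | .inl s => (Sum.inl s : List Bool ⊕ (Bs × W))
    | .inr p => Sum.inr p) := by
    rintro (s | p) (t | q) h
    · simpa using h
    · simp at h
    · simp at h
    · simpa using h
  refine (mk_le_of_injective hinj).trans ?_
  rw [mk_sum, mk_prod]
  simp only [Cardinal.lift_id]
  have h1 : #(List Bool) ≤ ℵ₁ := (mk_le_aleph0).trans (aleph0_le_aleph 1)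
  have h2 : #Bs * #W ≤ ℵ₁ := (mul_le_mul' mk_Bs_le mk_W_le).trans (mul_eq_self (aleph0_le_aleph 1)).le
  exact (add_le_add h1 h2).trans (add_eq_self (aleph0_le_aleph 1)).le

theorem chain_countable {C : Set S} (hC : IsChain (· ≤ ·) C) : C.Countable := by
  obtain ⟨c, hc⟩ := special_S
  refine MapsTo.countable_of_injOn (f := c) (t := univ) (fun _ _ => mem_univ _) ?_
    (Set.to_countable _)
  intro a ha b hb hab
  by_contra hne
  rcases hC ha hb hne with h | h
  · exact hc a b (lt_of_le_of_ne h hne) hab
  · exact hc b a (lt_of_le_of_ne h (Ne.symm hne)) hab.symm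

theorem aronszajn_S : IsWideAronszajn S := by
  refine ⟨hasHeight_S, normal_S, fun α => (mk_set_le _).trans mk_S_le, ?_⟩
  rintro ⟨C, hC, hC'⟩
  have h1 := (le_aleph0_iff_set_countable).2 (chain_countable hC.isChain)
  exact absurd (hC'.trans h1) (not_le.2 aleph0_lt_aleph_one)

theorem Bs_uncountable : ¬ Bs.Countable := by
  intro h
  have h1 : range (fun a : A => glue [] (jj a)) ⊆ Bs := by
    rintro _ ⟨a, rfl⟩
    exact ⟨([], a), rfl⟩
  have h2 : Function.Injective (fun a : A => glue [] (jj a)) := by
    intro a b hab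
    apply jj_injective
    funext n
    have := congrFun hab n
    simpa [glue] using this
  have h3 := h.mono h1
  have h4 : (univ : Set A).Countable := by
    have := h3.preimage_of_injOn (f := fun a : A => glue [] (jj a)) h2.injOn
    simpa using this
  have h5 : #A ≤ ℵ₀ := by
    rw [← mk_univ]
    exact (le_aleph0_iff_set_countable).2 h4
  rw [mk_A] at h5
  exact absurd h5 (not_le.2 aleph0_lt_aleph_one)

theorem wide_S : ¬ (level S ω).Countable := by
  intro h
  apply Bs_uncountable
  have h1 : Function.Injective (fun x : Bs => (S.inr (x, []) : S)) := by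
    intro x y hxy
    simpa using hxy
  have h2 : range (fun x : Bs => (S.inr (x, []) : S)) ⊆ level S ω := by
    rintro _ ⟨x, rfl⟩
    rw [mem_level]
    show ω + hW [] = ω
    rw [hW, add_zero]
  have h3 := (h.mono h2).preimage_of_injOn (f := fun x : Bs => (S.inr (x, []) : S)) h1.injOn
  have h4 : (univ : Set Bs).Countable := by simpa using h3
  exact countable_univ_iff.1 h4 |>.to_set

theorem not_embeds {T : Type} [SetTree T] (hT : IsOmega1Tree T) : ¬ Embeds S T := by
  rintro ⟨e, hinj, he⟩
  obtain ⟨⟨-, -, hTh⟩, -, hTc⟩ := hT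
  -- the images of the finite sequences are on bounded levels
  set δ : Ordinal.{0} := ⨆ s : List Bool, (ht (e (S.inl s)) + 1) with hδ
  have hδ1 : δ < ω₁ := iSup_lt_omega_one fun s => omega1_add (hTh _) one_lt_omega1
  have hδ2 : ∀ s : List Bool, ht (e (S.inl s)) < δ := by
    intro s
    have h1 : ht (e (S.inl s)) + 1 ≤ δ := Ordinal.le_iSup (fun s : List Bool =>
      (ht (e (S.inl s)) + 1)) s
    exact (lt_add_of_pos_right _ zero_lt_one).trans_le h1
  -- nodes above
  have h1 : ∀ x : Bs, ∃ (w : W) (t : T), t ∈ level T δ ∧ t ≤ e (S.inr (x, w)) := by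
    intro x
    obtain ⟨w, -, hw⟩ := exists_up (w := []) (β := δ) (bot_le (α := Ordinal.{0})) hδ1
    have h2 : δ ≤ ht (e (S.inr (x, w))) := by
      refine le_trans ?_ (ht_le_of_embeds (fun s s' h => (he s s').1 h) _)
      rw [ht_S]
      show δ ≤ ω + hW w
      rw [hw]
      exact le_add_self
    rcases h2.eq_or_lt with h3 | h3
    · exact ⟨w, _, h3.symm, le_rfl⟩
    · obtain ⟨s, hs, hs'⟩ := exists_pred h3
      exact ⟨w, s, hs', hs.le⟩
  choose w t ht1 ht2 using h1
  -- two branches with the same projection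
  have h2 : ∃ x y : Bs, x ≠ y ∧ t x = t y := by
    by_contra hcon
    push Not at hcon
    apply Bs_uncountable
    have hinj' : Function.Injective t := fun x y h => by
      by_contra hne
      exact hcon x y hne h
    have h3 : (range t).Countable := (hTc δ).mono (by rintro _ ⟨x, rfl⟩; exact ht1 x)
    have h4 := h3.preimage_of_injOn (f := t) hinj'.injOn
    have h5 : (univ : Set Bs).Countable := by simpa using h4
    exact countable_univ_iff.1 h5 |>.to_set
  obtain ⟨x, y, hxy, hteq⟩ := h2
  have h3 : (x.1 : ℕ → Bool) ≠ y.1 := fun h => hxy (Subtype.ext h)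
  obtain ⟨n, hn⟩ := Function.ne_iff.1 h3
  have key : ∀ z : Bs, e (S.inl (ini z.1 (n + 1))) ≤ t z := by
    intro z
    have h4 : (S.inl (ini z.1 (n + 1)) : S) < S.inr (z, w z) := by
      refine lt_of_le_of_ne ?_ (by simp)
      show ini z.1 (n + 1) = ini z.1 (ini z.1 (n + 1)).length
      rw [ini_length]
    have h5 := (he _ _).1 h4
    rcases pred_linear h5.le (ht2 z) with h6 | h6
    · exact h6
    · rcases h6.eq_or_lt with h7 | h7
      · exact h7.ge
      · have h8 := ht_lt_ht h7
        have h9 : ht (t z) = δ := ht1 z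
        rw [h9] at h8
        exact absurd (hδ2 _) h8.asymm
  have hx := key x
  have hy := key y
  rw [← hteq] at hy
  have hlen : ∀ s s' : List Bool, s.length = s'.length → s ≠ s' →
      ¬ (e (S.inl s) ≤ e (S.inl s')) := by
    intro s s' hl hne h
    rcases h.eq_or_lt with h4 | h4
    · exact hne (by simpa using hinj h4)
    · have h5 := (he _ _).2 h4
      have h6 : s <+: s' := h5.le
      exact hne (h6.eq_of_length hl)
  rcases pred_linear hx hy with h4 | h4
  · exact hlen _ _ (by rw [ini_length, ini_length]) (ini_ne hn) h4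
  · exact hlen _ _ (by rw [ini_length, ini_length]) (Ne.symm (ini_ne hn)) h4

end Pool.Agent.V11244.WideTree
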