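import Pool.Agent.V11244.PlasticDefs
import Pool.Agent.V11244.WideTree

/-! # An `ℵ₁`-dense plastic set -/

namespace Pool.Agent.V11244.Plastic

open Cardinal Set Topology
open Pool.Agent.V11244.PlasticDefs
open Pool.Agent.V11244.WideTree (A mk_A countable_Iio)

/-! ### A criterion -/

/-- A relation which is strictly contracting. -/
def Contracting (R : ℝ → ℝ → Prop) : Prop :=
  ∀ x y x' y', R x y → R x' y' → x ≠ x' → |y - y'| < |x - x'|

theorem plastic_of {X : Set ℝ} {I : Type*} [LinearOrder I] [WellFoundedLT I] (r : X → I)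
    (hr : Function.Injective r) {H : Type*} [Countable H] (R : H → ℝ → ℝ → Prop)
    (hR : ∀ h, Contracting (R h)) (hX : ∀ x y : X, r x < r y → ∃ h, R h y x)
    (hd : ∀ U : Set ℝ, IsOpen U → U.Nonempty → ¬ (X ∩ U).Countable) : Plastic X := by
  intro f hf hne
  -- the bad points
  set Bad : Set X := {x | r x < r (f x)} with hBad
  have hcount : Bad.Countable := by
    have hch : ∀ x : X, ∃ h : H, x ∈ Bad → R h (f x) x := by
      intro x
      by_cases hx : x ∈ Bad
      · obtain ⟨h, hh⟩ := hX _ _ hx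
        exact ⟨h, fun _ => hh⟩
      · by_cases hH : Nonempty H
        · exact ⟨hH.some, fun h => absurd h hx⟩
        · by_cases hall : ∃ x y : X, r x < r y
          · obtain ⟨x', y', hxy⟩ := hall
            exact absurd ⟨(hX x' y' hxy).choose⟩ hH
          · -- then `X` has at most one point
            exfalso
            have h1 : X.Countable := by
              have hsub : X.Subsingleton := by
                intro a ha b hb
                by_contra hab
                have : r ⟨a, ha⟩ ≠ r ⟨b, hb⟩ := fun h => hab (congrArg Subtype.val (hr h))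
                rcases lt_or_gt_of_ne this with h | h
                · exact hall ⟨_, _, h⟩
                · exact hall ⟨_, _, h⟩
              exact hsub.countable
            exact hd univ isOpen_univ ⟨0, trivial⟩ (h1.mono inter_subset_left)
    choose h hh using hch
    refine MapsTo.countable_of_injOn (f := h) (t := univ) (fun _ _ => mem_univ _) ?_
      (Set.to_countable _)
    intro x hx y hy hxy
    by_contra hne'
    have h1 := hh x hx
    have h2 := hh y hy
    rw [hxy] at h1
    have hfne : ((f x : ℝ)) ≠ f y := fun h => hne' (hf.1 (Subtype.ext h))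
    have h3 := hR _ _ _ _ _ h1 h2 hfne
    have h4 := hne x y
    rw [Subtype.dist_eq, Subtype.dist_eq, Real.dist_eq, Real.dist_eq] at h4
    exact absurd h4 (not_le.2 h3)
  set C : Set X := ⋃ n : ℕ, (f^[n]) ⁻¹' Bad with hC
  have hCc : C.Countable := by
    refine countable_iUnion fun n => ?_
    exact hcount.preimage_of_injOn ((hf.1.iterate n).injOn)
  have hfix : ∀ i : I, ∀ x : X, r x = i → x ∉ C → f x = x := by
    intro i
    induction i using WellFoundedLT.induction with
    | _ i ih =>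
    intro x hx hxC
    by_contra hfx
    have hxB : x ∉ Bad := fun h => hxC (mem_iUnion.2 ⟨0, h⟩)
    have h1 : r (f x) < i := by
      rw [← hx]
      exact lt_of_le_of_ne (not_lt.1 hxB) fun h => hfx (hr h)
    have h2 : f x ∉ C := by
      intro h
      obtain ⟨n, hn⟩ := mem_iUnion.1 h
      refine hxC (mem_iUnion.2 ⟨n + 1, ?_⟩)
      show f^[n + 1] x ∈ Bad
      rw [Function.iterate_succ_apply]
      exact hn
    exact hfx (hf.1 (ih _ h1 (f x) rfl h2))
  have hid : f = id := by
    have hcont : Continuous f := by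
      have : LipschitzWith 1 f := LipschitzWith.of_dist_le_mul fun x y => by simpa using hne x y
      exact this.continuous
    have hdense : Dense (Cᶜ : Set X) := by
      rw [dense_iff_inter_open]
      intro V hV hVne
      obtain ⟨U, hU, rfl⟩ := isOpen_induced_iff.1 hV
      obtain ⟨x, hx⟩ := hVne
      by_contra hcon
      rw [not_nonempty_iff_eq_empty] at hcon
      apply hd U hU ⟨x, hx⟩
      have h1 : X ∩ U ⊆ Subtype.val '' C := by
        rintro y ⟨hy, hyU⟩
        refine ⟨⟨y, hy⟩, ?_, rfl⟩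
        by_contra hyC
        have : (⟨y, hy⟩ : X) ∈ (Subtype.val ⁻¹' U ∩ Cᶜ : Set X) := ⟨hyU, hyC⟩
        rw [hcon] at this
        exact this
      exact (hCc.image _).mono h1
    exact Continuous.ext_on hdense hcont continuous_id fun x hx => hfix _ x rfl hx
  rw [hid]
  exact isometry_id

/-! ### Slow functions and their reals -/

/-- The real number of a function `c` with `c i ≤ i`. -/
noncomputable def re (c : ℕ → ℕ) : ℝ := ∑' i : ℕ, (1 / 4 : ℝ) ^ (i * i + i - c i)

/-- The tail. -/
noncomputable def tl (c : ℕ → ℕ) (n : ℕ) : ℝ :=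
  ∑' i : ℕ, (1 / 4 : ℝ) ^ ((i + n) * (i + n) + (i + n) - c (i + n))

variable {c : ℕ → ℕ} (hc : ∀ i, c i ≤ i)

include hc

theorem summable_re : Summable fun i : ℕ => (1 / 4 : ℝ) ^ (i * i + i - c i) := by
  refine Summable.of_nonneg_of_le (fun i => by positivity) (fun i => ?_)
    (summable_geometric_of_lt_one (by norm_num : (0 : ℝ) ≤ 1 / 4) (by norm_num))
  refine pow_le_pow_of_le_one (by norm_num) (by norm_num) ?_
  have := hc i
  have h2 : i ≤ i * i := Nat.le_mul_self i
  omega

theorem re_eq (n : ℕ) :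
    re c = ∑ i ∈ Finset.range n, (1 / 4 : ℝ) ^ (i * i + i - c i) + tl c n :=
  ((summable_re hc).sum_add_tsum_nat_add n).symm

theorem tl_ge (n : ℕ) : (1 / 4 : ℝ) ^ (n * n + n - c n) ≤ tl c n := by
  have hs : Summable fun i : ℕ => (1 / 4 : ℝ) ^ ((i + n) * (i + n) + (i + n) - c (i + n)) :=
    (summable_nat_add_iff (f := fun i : ℕ => (1 / 4 : ℝ) ^ (i * i + i - c i)) n).2 (summable_re hc)
  have := hs.le_tsum 0 (fun i _ => by positivity)
  simpa [tl] using this

theorem tl_le (n : ℕ) : tl c n ≤ 4 / 3 * (1 / 4 : ℝ) ^ (n * n + n - c n) := by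
  have hs : Summable fun i : ℕ => (1 / 4 : ℝ) ^ ((i + n) * (i + n) + (i + n) - c (i + n)) :=
    (summable_nat_add_iff (f := fun i : ℕ => (1 / 4 : ℝ) ^ (i * i + i - c i)) n).2 (summable_re hc)
  have hg : Summable fun i : ℕ => (1 / 4 : ℝ) ^ (n * n + n - c n) * (1 / 4 : ℝ) ^ i :=
    (summable_geometric_of_lt_one (by norm_num : (0 : ℝ) ≤ 1 / 4) (by norm_num)).mul_left _
  have h1 : tl c n ≤ ∑' i : ℕ, (1 / 4 : ℝ) ^ (n * n + n - c n) * (1 / 4 : ℝ) ^ i := by
    refine hs.tsum_le_tsum (fun i => ?_) hg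
    rw [← pow_add]
    refine pow_le_pow_of_le_one (by norm_num) (by norm_num) ?_
    rcases Nat.eq_zero_or_pos i with rfl | hi
    · simp
    · have h2 := hc (i + n)
      have h3 := hc n
      have h4 : (i + n) * (i + n) = i * i + 2 * (i * n) + n * n := by ring
      have h5 : i ≤ i * i := Nat.le_mul_self i
      have h6 : n ≤ i * n := Nat.le_mul_of_pos_left n hi
      omega
  rw [tsum_mul_left, tsum_geometric_of_lt_one (by norm_num) (by norm_num)] at h1
  calc tl c n ≤ _ := h1
    _ = _ := by ring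

omit hc in
theorem re_sub {c c' : ℕ → ℕ} (hc : ∀ i, c i ≤ i) (hc' : ∀ i, c' i ≤ i) {n : ℕ}
    (h : ∀ i < n, c i = c' i) : re c - re c' = tl c n - tl c' n := by
  rw [re_eq hc n, re_eq hc' n]
  have : ∑ i ∈ Finset.range n, (1 / 4 : ℝ) ^ (i * i + i - c i) =
      ∑ i ∈ Finset.range n, (1 / 4 : ℝ) ^ (i * i + i - c' i) :=
    Finset.sum_congr rfl fun i hi => by rw [h i (Finset.mem_range.1 hi)]
  rw [this]; ring

omit hc in
/-- lower bound -/
theorem re_lower {c c' : ℕ → ℕ} (hc : ∀ i, c i ≤ i) (hc' : ∀ i, c' i ≤ i) {n : ℕ}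
    (h : ∀ i < n, c i = c' i) (hn : c n < c' n) :
    2 / 3 * (1 / 4 : ℝ) ^ (n * n + n - c' n) ≤ re c' - re c := by
  have h1 := re_sub hc' hc (n := n) fun i hi => (h i hi).symm
  rw [h1]
  have h2 := tl_ge hc' n
  have h3 := tl_le hc n
  have h4 : (1 / 4 : ℝ) ^ (n * n + n - c n) ≤ (1 / 4 : ℝ) ^ (n * n + n - c' n) * (1 / 4) := by
    rw [← pow_succ]
    refine pow_le_pow_of_le_one (by norm_num) (by norm_num) ?_
    have := hc' n
    omega
  linarith

omit hc in
/-- upper bound -/
theorem re_upper {z z' : ℕ → ℕ} (hz : ∀ i, z i ≤ i) (hz' : ∀ i, z' i ≤ i) {n M : ℕ}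
    (h : ∀ i < n, z i = z' i) (hM : M ≤ n) (h1 : z n < M) (h2 : z' n < M) :
    |re z - re z'| ≤ 1 / 3 * (1 / 4 : ℝ) ^ (n * n + n - M) := by
  rw [re_sub hz hz' h]
  have key : ∀ {z : ℕ → ℕ}, (∀ i, z i ≤ i) → z n < M →
      0 ≤ tl z n ∧ tl z n ≤ 1 / 3 * (1 / 4 : ℝ) ^ (n * n + n - M) := by
    intro z hz h1
    refine ⟨le_trans (by positivity) (tl_ge hz n), ?_⟩
    have h3 := tl_le hz n
    have h4 : (1 / 4 : ℝ) ^ (n * n + n - z n) ≤ (1 / 4 : ℝ) ^ (n * n + n - M) * (1 / 4) := by
      rw [← pow_succ]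
      refine pow_le_pow_of_le_one (by norm_num) (by norm_num) ?_
      have := hz n
      omega
    linarith
  obtain ⟨h3, h4⟩ := key hz h1
  obtain ⟨h5, h6⟩ := key hz' h2
  rw [abs_le]
  constructor <;> linarith

omit hc in
theorem re_injective {c c' : ℕ → ℕ} (hc : ∀ i, c i ≤ i) (hc' : ∀ i, c' i ≤ i)
    (h : re c = re c') : c = c' := by
  by_contra hne
  have hex : ∃ n, c n ≠ c' n := Function.ne_iff.1 hne
  classical
  have h1 := Nat.find_spec hex
  have h2 : ∀ i < Nat.find hex, c i = c' i := fun i hi => by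
    by_contra h'
    exact Nat.find_min hex hi h'
  have hpos : ∀ k : ℕ, (0 : ℝ) < 2 / 3 * (1 / 4 : ℝ) ^ k := fun k => by positivity
  rcases lt_or_gt_of_ne h1 with h3 | h3
  · have := re_lower hc hc' h2 h3
    rw [h, sub_self] at this
    exact absurd this (not_le.2 (hpos _))
  · have := re_lower hc' hc (fun i hi => (h2 i hi).symm) h3
    rw [h, sub_self] at this
    exact absurd this (not_le.2 (hpos _))

/-! ### Coding -/

/-- The `n`-th entry of the list coded by `c`, cut off below `c`. -/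
def get (n c : ℕ) : ℕ := min (c - 1) (((Encodable.decode (α := List ℕ) c).getD []).getD n 0)

omit hc in
theorem get_le (n c : ℕ) : get n c ≤ c - 1 := min_le_left _ _

omit hc in
theorem lt_encode {a : ℕ} : ∀ {l : List ℕ}, a ∈ l → a < Encodable.encode l
  | [], h => by simp at h
  | b :: l, h => by
    rw [Encodable.encode_list_cons]
    rcases List.mem_cons.1 h with rfl | h
    · exact Nat.lt_succ_of_le (by simpa using Nat.left_le_pair a (Encodable.encode l))
    · exact Nat.lt_succ_of_lt ((lt_encode h).trans_le (Nat.right_le_pair _ _))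

omit hc in
theorem get_encode {n : ℕ} {l : List ℕ} (h : n < l.length) :
    get n (Encodable.encode l) = l.getD n 0 := by
  have h1 : l.getD n 0 = l[n] := List.getD_eq_getElem _ _ h
  have h2 : l[n] < Encodable.encode l := lt_encode (List.getElem_mem h)
  rw [get, Encodable.encodek, Option.getD_some, h1, min_eq_right]
  omega

/-- A bound for the codes of lists of length `k` with entries at most `b`. -/
def bd (b : ℕ) : ℕ → ℕ
  | 0 => 0
  | k + 1 => (max b (bd b k) + 1) ^ 2 + 1

omit hc in
theorem encode_le {b : ℕ} : ∀ {l : List ℕ}, (∀ a ∈ l, a ≤ b) → Encodable.encode l ≤ bd b l.length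
  | [], _ => Nat.zero_le _
  | a :: l, h => by
    rw [Encodable.encode_list_cons, List.length_cons, bd]
    have h1 : Encodable.encode l ≤ bd b l.length := encode_le fun x hx => h x (by simp [hx])
    have h2 : a ≤ b := h a (by simp)
    have h3 := Nat.pair_lt_max_add_one_sq (Encodable.encode a) (Encodable.encode l)
    have h4 : Encodable.encode a = a := rfl
    rw [h4] at h3 ⊢
    have h5 : (max a (Encodable.encode l) + 1) ^ 2 ≤ (max b (bd b l.length) + 1) ^ 2 :=
      Nat.pow_le_pow_left (by omega) 2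
    omega

omit hc in
theorem bd_mono {b b' : ℕ} (hb : b ≤ b') : ∀ {k k' : ℕ}, k ≤ k' → bd b k ≤ bd b' k'
  | 0, _, _ => Nat.zero_le _
  | k + 1, 0, h => absurd h (by omega)
  | k + 1, k' + 1, h => by
    have h1 : bd b k ≤ bd b' k' := bd_mono hb (by omega)
    have h5 : (max b (bd b k) + 1) ^ 2 ≤ (max b' (bd b' k') + 1) ^ 2 :=
      Nat.pow_le_pow_left (by omega) 2
    simp only [bd]
    omega

/-- The growth function. -/
def F (b : ℕ) : ℕ := b + bd b (b + 1)

omit hc in
theorem F_mono : Monotone F := fun a b h => Nat.add_le_add h (bd_mono h (by omega))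

omit hc in
theorem le_F (b : ℕ) : b ≤ F b := Nat.le_add_right _ _

omit hc in
theorem iter_mono (k : ℕ) : Monotone F^[k] := F_mono.iterate k

omit hc in
theorem le_iter (k b : ℕ) : b ≤ F^[k] b := by
  induction k with
  | zero => exact le_rfl
  | succ k ih =>
    rw [Function.iterate_succ_apply']
    exact ih.trans (le_F _)

omit hc in
theorem iter_le_iter {j k : ℕ} (h : j ≤ k) (b : ℕ) : F^[j] b ≤ F^[k] b := by
  obtain ⟨i, rfl⟩ := Nat.exists_eq_add_of_le h
  rw [add_comm, Function.iterate_add_apply]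
  exact le_iter i _

/-- Slow functions. -/
def Slow (c : ℕ → ℕ) : Prop :=
  (∀ i, c i ≤ i) ∧ ∀ k, ∃ m0, ∀ m ≥ m0, F^[k] (c m) ≤ m

/-- `c` computes `z`. -/
def Comp (c z : ℕ → ℕ) : Prop := ∃ n m0, ∀ m ≥ m0, z m = get n (c m) ∧ z m < c m

omit hc in
theorem exists_slow (z : ℕ → ℕ → ℕ) (hz : ∀ n, Slow (z n)) :
    ∃ c, Slow c ∧ ∀ n, Comp c (z n) := by
  classical
  let P : ℕ → ℕ → Prop := fun m N => ∀ m' ≥ m, ∀ n ≤ N, F^[N + 1] (max N (z n m')) ≤ m'
  have hP : ∀ N, ∃ m0, ∀ m ≥ m0, P m N := by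
    intro N
    have h1 : ∀ n, ∃ m0, ∀ m ≥ m0, F^[N + 1] (z n m) ≤ m := fun n => (hz n).2 (N + 1)
    choose g hg using h1
    refine ⟨max (F^[N + 1] N) ((Finset.range (N + 1)).sup g), fun m hm m' hm' n hn => ?_⟩
    rw [(iter_mono (N + 1)).map_max]
    refine max_le ((le_max_left _ _).trans (hm.trans hm')) (hg n m' ?_)
    have : g n ≤ (Finset.range (N + 1)).sup g :=
      Finset.le_sup (f := g) (Finset.mem_range.2 (by omega))
    exact this.trans ((le_max_right _ _).trans (hm.trans hm'))
  choose t ht using hP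
  let N : ℕ → ℕ := fun m => Nat.findGreatest (P m) m
  let l : ℕ → List ℕ := fun m => (List.range (N m + 1)).map fun n => z n m
  let c : ℕ → ℕ := fun m => if P m 0 then Encodable.encode (l m) else 0
  have hN : ∀ K, ∃ m0, ∀ m ≥ m0, K ≤ N m := by
    intro K
    refine ⟨max K (t K), fun m hm => ?_⟩
    exact Nat.le_findGreatest ((le_max_left _ _).trans hm) (ht K m ((le_max_right _ _).trans hm))
  have hPN : ∀ m, P m 0 → P m (N m) := fun m h => Nat.findGreatest_spec (Nat.zero_le m) h
  have hkey : ∀ m, P m 0 → F^[N m] (Encodable.encode (l m)) ≤ m := by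
    intro m hm
    have h1 := hPN m hm
    -- the maximum is attained
    obtain ⟨n, hn, hmax⟩ := Finset.exists_max_image (Finset.range (N m + 1)) (fun n => z n m)
      ⟨0, by simp⟩
    have h2 := h1 m le_rfl n (by simpa [Nat.lt_succ_iff] using hn)
    have h3 : Encodable.encode (l m) ≤ F (max (N m) (z n m)) := by
      have h4 : Encodable.encode (l m) ≤ bd (max (N m) (z n m)) (l m).length := by
        refine encode_le fun a ha => ?_
        obtain ⟨i, hi, rfl⟩ := List.mem_map.1 ha
        exact (hmax i (by simpa using hi)).trans (le_max_right _ _)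
      refine h4.trans ((bd_mono le_rfl ?_).trans (Nat.le_add_left _ _))
      simp only [l, List.length_map, List.length_range]
      have := le_max_left (N m) (z n m)
      omega
    calc F^[N m] (Encodable.encode (l m)) ≤ F^[N m] (F (max (N m) (z n m))) := iter_mono _ h3
      _ = F^[N m + 1] (max (N m) (z n m)) := (Function.iterate_succ_apply _ _ _).symm
      _ ≤ m := h2
  refine ⟨c, ⟨fun m => ?_, fun k => ?_⟩, fun n => ?_⟩
  · by_cases hm : P m 0
    · simp only [c, if_pos hm]
      exact (le_iter _ _).trans (hkey m hm)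
    · simp only [c, if_neg hm]
      exact Nat.zero_le _
  · obtain ⟨m0, hm0⟩ := hN k
    refine ⟨max m0 (t 0), fun m hm => ?_⟩
    have h0 : P m 0 := ht 0 m ((le_max_right _ _).trans hm)
    simp only [c, if_pos h0]
    exact (iter_le_iter (hm0 m ((le_max_left _ _).trans hm)) _).trans (hkey m h0)
  · obtain ⟨m0, hm0⟩ := hN n
    refine ⟨n, max m0 (t 0), fun m hm => ?_⟩
    have h0 : P m 0 := ht 0 m ((le_max_right _ _).trans hm)
    have h1 : n ≤ N m := hm0 m ((le_max_left _ _).trans hm)
    simp only [c, if_pos h0]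
    have h2 : n < (l m).length := by simp [l]; omega
    have h3 : (l m)[n] = z n m := by simp [l]
    constructor
    · rw [get_encode h2, List.getD_eq_getElem _ _ h2, h3]
    · rw [← h3]
      exact lt_encode (List.getElem_mem h2)

omit hc in
theorem slow_zero : Slow fun _ => 0 := by
  refine ⟨fun i => Nat.zero_le i, fun k => ⟨F^[k] 0, fun m hm => hm⟩⟩

/-- The functions `cs i`. -/
noncomputable def cs : A → (ℕ → ℕ) :=
  (wellFounded_lt (α := A)).fix fun i g =>
    Classical.epsilon fun c : ℕ → ℕ => Slow c ∧ ∀ (j : A) (hj : j < i), Comp c (g j hj)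

omit hc in
theorem cs_spec (i : A) : Slow (cs i) ∧ ∀ j < i, Comp (cs i) (cs j) := by
  induction i using WellFoundedLT.induction with
  | _ i ih =>
  have h1 : ∃ c : ℕ → ℕ, Slow c ∧ ∀ (j : A) (_ : j < i), Comp c (cs j) := by
    rcases (Set.Iio i).eq_empty_or_nonempty with h | h
    · exact ⟨_, slow_zero, fun j hj => absurd (show j ∈ Set.Iio i from hj) (by simp [h])⟩
    · obtain ⟨e, he⟩ := (countable_Iio i).exists_eq_range h
      have hlt : ∀ n, e n < i := fun n => by
        have : e n ∈ Set.Iio i := he ▸ mem_range_self n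
        exact this
      obtain ⟨c, hc1, hc2⟩ := exists_slow (fun n => cs (e n)) fun n => (ih (e n) (hlt n)).1
      refine ⟨c, hc1, fun j hj => ?_⟩
      have : j ∈ range e := he ▸ hj
      obtain ⟨n, rfl⟩ := this
      exact hc2 n
  have h2 : cs i = Classical.epsilon fun c : ℕ → ℕ => Slow c ∧ ∀ (j : A) (_ : j < i),
      Comp c (cs j) := by
    rw [cs, WellFounded.fix_eq]
  rw [h2]
  exact Classical.epsilon_spec h1

omit hc in
theorem cs_injective : Function.Injective cs := by
  have key : ∀ i j, j < i → cs i ≠ cs j := by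
    intro i j hj h
    obtain ⟨n, m0, hm⟩ := (cs_spec i).2 j hj
    have := (hm m0 le_rfl).2
    rw [h] at this
    exact lt_irrefl _ this
  intro i j h
  rcases lt_trichotomy i j with h1 | h1 | h1
  · exact absurd h.symm (key _ _ h1)
  · exact h1
  · exact absurd h (key _ _ h1)

/-! ### The contracting relations -/

/-- Indices of the relations. -/
abbrev Ix : Type := (Σ m0 : ℕ, (Fin m0 → ℕ) × (Fin m0 → ℕ)) × ℕ × ℚ × ℚ

/-- The relations. -/
def R (h : Ix) (x y : ℝ) : Prop :=
  ∃ c z : ℕ → ℕ, (∀ i, c i ≤ i) ∧ (∀ i, z i ≤ i) ∧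
    (∀ i : Fin h.1.1, c i = h.1.2.1 i ∧ z i = h.1.2.2 i) ∧
    (∀ m ≥ h.1.1, z m = get h.2.1 (c m)) ∧ x = re c + h.2.2.1 ∧ y = re z + h.2.2.2

omit hc in
theorem contracting_R (h : Ix) : Contracting (R h) := by
  classical
  -- one case
  have key : ∀ {c z c' z' : ℕ → ℕ}, (∀ i, c i ≤ i) → (∀ i, z i ≤ i) → (∀ i, c' i ≤ i) →
      (∀ i, z' i ≤ i) → (∀ i : Fin h.1.1, c i = h.1.2.1 i ∧ z i = h.1.2.2 i) →
      (∀ i : Fin h.1.1, c' i = h.1.2.1 i ∧ z' i = h.1.2.2 i) →
      (∀ m ≥ h.1.1, z m = get h.2.1 (c m)) → (∀ m ≥ h.1.1, z' m = get h.2.1 (c' m)) →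
      ∀ n, (∀ i < n, c i = c' i) → c n < c' n → |re z - re z'| < |re c - re c'| := by
    intro c z c' z' hc hz hc' hz' h1 h2 h3 h4 n hn hlt
    have h5 : h.1.1 ≤ n := by
      by_contra h5
      push Not at h5
      have := (h1 ⟨n, h5⟩).1.trans (h2 ⟨n, h5⟩).1.symm
      exact hlt.ne this
    have h6 : ∀ i < n, z i = z' i := by
      intro i hi
      rcases lt_or_ge i h.1.1 with h7 | h7
      · exact (h1 ⟨i, h7⟩).2.trans (h2 ⟨i, h7⟩).2.symm
      · rw [h3 i h7, h4 i h7, hn i hi]
    have h7 : z n < c' n := by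
      rw [h3 n h5]
      have := get_le h.2.1 (c n)
      omega
    have h8 : z' n < c' n := by
      rw [h4 n h5]
      have := get_le h.2.1 (c' n)
      omega
    have h9 := re_upper hz hz' h6 (hc' n) h7 h8
    have h10 := re_lower hc hc' hn hlt
    have h11 : (0 : ℝ) < (1 / 4 : ℝ) ^ (n * n + n - c' n) := by positivity
    rw [abs_sub_comm (re c)]
    have h12 := le_abs_self (re c' - re c)
    linarith
  rintro x y x' y' ⟨c, z, hc, hz, h1, h3, rfl, rfl⟩ ⟨c', z', hc', hz', h2, h4, rfl, rfl⟩ hne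
  have e1 : re z + h.2.2.2 - (re z' + h.2.2.2) = re z - re z' := by ring
  have e2 : re c + h.2.2.1 - (re c' + h.2.2.1) = re c - re c' := by ring
  rw [e1, e2]
  have hcc : c ≠ c' := fun h' => hne (by rw [h'])
  have hex : ∃ n, c n ≠ c' n := Function.ne_iff.1 hcc
  have h5 := Nat.find_spec hex
  have h6 : ∀ i < Nat.find hex, c i = c' i := fun i hi => by
    by_contra h'
    exact Nat.find_min hex hi h'
  rcases lt_or_gt_of_ne h5 with h7 | h7
  · exact key hc hz hc' hz' h1 h2 h3 h4 _ h6 h7
  · rw [abs_sub_comm (re z), abs_sub_comm (re c)]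
    exact key hc' hz' hc hz h2 h1 h4 h3 _ (fun i hi => (h6 i hi).symm) h7

/-! ### The set -/

omit hc in
theorem exists_phi : Nonempty (A ≃ A × (ℚ × ℚ)) := by
  apply Cardinal.eq.1
  rw [mk_prod, mk_A]
  simp

/-- A bijection. -/
noncomputable def phi : A ≃ A × (ℚ × ℚ) := exists_phi.some

/-- The rational translation. -/
noncomputable def qq (i : A) : ℚ :=
  Classical.epsilon fun q : ℚ => ((phi i).2.1 : ℝ) < re (cs i) + q ∧ re (cs i) + q < (phi i).2.2

/-- The points. -/
noncomputable def pt (i : A) : ℝ := re (cs i) + qq i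

omit hc in
theorem pt_mem {i : A} {a b : ℚ} (h : (phi i).2 = (a, b)) (hab : a < b) : (a : ℝ) < pt i ∧ pt i < b := by
  have hab' : (a : ℝ) < b := by exact_mod_cast hab
  obtain ⟨q, hq1, hq2⟩ := exists_rat_btwn (sub_lt_sub_right hab' (re (cs i)))
  have hex : ∃ q : ℚ, ((phi i).2.1 : ℝ) < re (cs i) + q ∧ re (cs i) + q < (phi i).2.2 := by
    rw [h]
    exact ⟨q, by simp only; linarith, by simp only; linarith⟩
  have h1 := Classical.epsilon_spec hex
  have ha : (phi i).2.1 = a := by rw [h]
  have hb : (phi i).2.2 = b := by rw [h]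
  rw [← ha, ← hb]
  exact h1

/-- The set. -/
def X : Set ℝ := range pt

omit hc in
theorem not_countable {U : Set ℝ} (hU : IsOpen U) (hne : U.Nonempty) : ¬ (X ∩ U).Countable := by
  intro hcount
  obtain ⟨x, hx⟩ := hne
  obtain ⟨ε, hε, hball⟩ := Metric.isOpen_iff.1 hU x hx
  obtain ⟨a, ha1, ha2⟩ := exists_rat_btwn (show x - ε < x by linarith)
  obtain ⟨b, hb1, hb2⟩ := exists_rat_btwn (show x < x + ε by linarith)
  have hab : a < b := by exact_mod_cast ha2.trans hb1
  have hsub : ∀ y : ℝ, (a : ℝ) < y → y < b → y ∈ U := by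
    intro y h1 h2
    apply hball
    rw [Metric.mem_ball, Real.dist_eq, abs_lt]
    constructor <;> linarith
  let f : A → ℝ × ℚ := fun i => (pt (phi.symm (i, (a, b))), qq (phi.symm (i, (a, b))))
  have hf : Function.Injective f := by
    intro i j hij
    simp only [f, Prod.mk.injEq] at hij
    obtain ⟨h1, h2⟩ := hij
    rw [pt, pt, h2] at h1
    have h3 := re_injective (cs_spec _).1.1 (cs_spec _).1.1 (add_right_cancel h1)
    have h4 := phi.symm.injective (cs_injective h3)
    exact (Prod.mk.injEq _ _ _ _ ▸ h4).1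
  have hrange : range f ⊆ (X ∩ U) ×ˢ (univ : Set ℚ) := by
    rintro _ ⟨i, rfl⟩
    have h1 := pt_mem (i := phi.symm (i, (a, b))) (a := a) (b := b) (by simp) hab
    exact ⟨⟨⟨_, rfl⟩, hsub _ h1.1 h1.2⟩, trivial⟩
  have h1 : (range f).Countable := (hcount.prod (Set.to_countable _)).mono hrange
  have h2 : (univ : Set A).Countable := by
    have := h1.preimage_of_injOn (f := f) hf.injOn
    simpa using this
  have h3 : #A ≤ ℵ₀ := by
    rw [← mk_univ]
    exact (le_aleph0_iff_set_countable).2 h2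
  rw [mk_A] at h3
  exact absurd h3 (not_le.2 aleph0_lt_aleph_one)

omit hc in
theorem alephOneDense_X : AlephOneDense X := by
  intro U hU hne
  apply le_antisymm
  · refine (mk_le_mk_of_subset inter_subset_left).trans ?_
    refine mk_range_le.trans ?_
    rw [mk_A]
  · rw [← succ_aleph0]
    refine Order.succ_le_of_lt ?_
    rw [← not_le, le_aleph0_iff_set_countable]
    exact not_countable hU hne

omit hc in
theorem plastic_X : Plastic X := by
  have hr : ∀ x : X, ∃ i, pt i = x := fun x => x.2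
  choose r hr using hr
  refine plastic_of r ?_ R contracting_R ?_ fun U hU hne => not_countable hU hne
  · intro x y h
    exact Subtype.ext (by rw [← hr x, ← hr y, h])
  · intro x y hxy
    obtain ⟨n, m0, hm⟩ := (cs_spec (r y)).2 _ hxy
    refine ⟨(⟨m0, (fun i => cs (r y) i, fun i => cs (r x) i)⟩, n, qq (r y), qq (r x)),
      cs (r y), cs (r x), (cs_spec _).1.1, (cs_spec _).1.1, fun i => ⟨rfl, rfl⟩,
      fun m h => (hm m h).1, ?_, ?_⟩
    · exact (hr y).symm
    · exact (hr x).symm

end Pool.Agent.V11244.Plastic
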