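import Mathlib

/-! # Plastic subsets of the real line: definitions -/

namespace Pool.Agent.V11244.PlasticDefs

open Cardinal Set

/-- A set of reals is plastic if every non-expansive bijection of it is an isometry. -/
def Plastic (X : Set ℝ) : Prop :=
  ∀ f : X → X, Function.Bijective f → (∀ x y, dist (f x) (f y) ≤ dist x y) → Isometry f

/-- A set of reals is `ℵ₁`-dense if it has exactly `ℵ₁` elements in every nonempty open set. -/
def AlephOneDense (X : Set ℝ) : Prop :=
  ∀ U : Set ℝ, IsOpen U → U.Nonempty → #(X ∩ U : Set ℝ) = ℵ₁

end Pool.Agent.V11244.PlasticDefs
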