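import Pool.Agent.V11244.PlasticDefs
import Pool.Agent.V11244.FAxioms

/-! # Under Martin's axiom for countable posets no `ℵ₁`-dense subgroup of `ℝ` is plastic -/

namespace Pool.Agent.V11244.PlasticGroup

open Cardinal Set Topology
open Pool.Agent.V11244.PlasticDefs Pool.Agent.V11244.FAxioms

/-- Codes of elements of the dense countable set. -/
abbrev K : Type := ℚ × ℚ

/-- Codes of triples: an interval and a value. -/
abbrev Tr : Type := K × K × K

/-! ### Finite combinatorics -/

theorem between (A B : Finset ℝ) (h : ∀ a ∈ A, ∀ b ∈ B, a < b) :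
    ∃ α β : ℝ, α < β ∧ (∀ a ∈ A, a ≤ α) ∧ ∀ b ∈ B, β ≤ b := by
  rcases A.eq_empty_or_nonempty with rfl | hA
  · rcases B.eq_empty_or_nonempty with rfl | hB
    · exact ⟨0, 1, by norm_num, by simp, by simp⟩
    · exact ⟨B.min' hB - 1, B.min' hB, by linarith, by simp, fun b hb => B.min'_le b hb⟩
  · rcases B.eq_empty_or_nonempty with rfl | hB
    · exact ⟨A.max' hA, A.max' hA + 1, by linarith, fun a ha => A.le_max' a ha, by simp⟩
    · exact ⟨A.max' hA, B.min' hB, h _ (A.max'_mem hA) _ (B.min'_mem hB),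
        fun a ha => A.le_max' a ha, fun b hb => B.min'_le b hb⟩

section

variable {g : K → ℝ} {s : ℝ}

variable (g s) in
/-- left endpoint -/
def lo (t : Tr) : ℝ := s + g t.1
variable (g s) in
/-- right endpoint -/
def hi (t : Tr) : ℝ := s + g t.2.1
variable (g) in
/-- value -/
def vl (t : Tr) : ℝ := g t.2.2

variable (g s) in
/-- The relation between two triples. -/
def Prec (t t' : Tr) : Prop :=
  hi g s t < lo g s t' ∧ vl g t < vl g t' ∧ vl g t' - vl g t < lo g s t' - hi g s t

variable (g s) in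
/-- The good finite sets of triples. -/
def Good (p : Finset Tr) : Prop :=
  (∀ t ∈ p, lo g s t < hi g s t) ∧ ∀ t ∈ p, ∀ t' ∈ p, t ≠ t' → Prec g s t t' ∨ Prec g s t' t

variable (g) in
/-- The values of `g` are dense. -/
def DenseRange' : Prop := ∀ a b : ℝ, a < b → ∃ k, a < g k ∧ g k < b

/-- Adding a triple. -/
theorem extend (hg : DenseRange' g) {p : Finset Tr} (hp : Good g s p) {x : ℝ} {k : K}
    (h : ∀ t ∈ p, (hi g s t < x ∧ vl g t < g k ∧ g k - vl g t < x - hi g s t) ∨
      (x < lo g s t ∧ g k < vl g t ∧ vl g t - g k < lo g s t - x)) :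
    ∃ t0 : Tr, lo g s t0 < x ∧ x < hi g s t0 ∧ vl g t0 = g k ∧ Good g s (insert t0 p) := by
  classical
  -- left bound
  have h1 : ∃ m < x, ∀ t ∈ p, hi g s t < x → hi g s t + (g k - vl g t) ≤ m ∧ hi g s t ≤ m := by
    obtain ⟨α, β, hαβ, hα, hβ⟩ := between
      ((p.filter fun t => hi g s t < x).image (fun t => hi g s t + (g k - vl g t)) ∪
        (p.filter fun t => hi g s t < x).image (fun t => hi g s t)) {x} (by
      intro a ha b hb
      rw [Finset.mem_singleton.1 hb]
      rcases Finset.mem_union.1 ha with ha | ha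
      · obtain ⟨t, ht, rfl⟩ := Finset.mem_image.1 ha
        obtain ⟨ht, htx⟩ := Finset.mem_filter.1 ht
        rcases h t ht with h2 | h2
        · linarith [h2.2.2]
        · have := hp.1 t ht
          linarith [h2.1]
      · obtain ⟨t, ht, rfl⟩ := Finset.mem_image.1 ha
        exact (Finset.mem_filter.1 ht).2)
    refine ⟨α, hαβ.trans_le (hβ x (by simp)), fun t ht htx => ⟨hα _ ?_, hα _ ?_⟩⟩
    · exact Finset.mem_union_left _ (Finset.mem_image.2 ⟨t, Finset.mem_filter.2 ⟨ht, htx⟩, rfl⟩)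
    · exact Finset.mem_union_right _ (Finset.mem_image.2 ⟨t, Finset.mem_filter.2 ⟨ht, htx⟩, rfl⟩)
  have h2 : ∃ m, x < m ∧ ∀ t ∈ p, x < lo g s t → m ≤ lo g s t - (vl g t - g k) ∧ m ≤ lo g s t := by
    obtain ⟨α, β, hαβ, hα, hβ⟩ := between {x}
      ((p.filter fun t => x < lo g s t).image (fun t => lo g s t - (vl g t - g k)) ∪
        (p.filter fun t => x < lo g s t).image (fun t => lo g s t)) (by
      intro b hb a ha
      rw [Finset.mem_singleton.1 hb]
      rcases Finset.mem_union.1 ha with ha | ha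
      · obtain ⟨t, ht, rfl⟩ := Finset.mem_image.1 ha
        obtain ⟨ht, htx⟩ := Finset.mem_filter.1 ht
        rcases h t ht with h2 | h2
        · have := hp.1 t ht
          linarith [h2.1]
        · linarith [h2.2.2]
      · obtain ⟨t, ht, rfl⟩ := Finset.mem_image.1 ha
        exact (Finset.mem_filter.1 ht).2)
    refine ⟨β, lt_of_le_of_lt (hα x (by simp)) hαβ, fun t ht htx => ⟨hβ _ ?_, hβ _ ?_⟩⟩
    · exact Finset.mem_union_left _ (Finset.mem_image.2 ⟨t, Finset.mem_filter.2 ⟨ht, htx⟩, rfl⟩)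
    · exact Finset.mem_union_right _ (Finset.mem_image.2 ⟨t, Finset.mem_filter.2 ⟨ht, htx⟩, rfl⟩)
  obtain ⟨m, hm, hm'⟩ := h1
  obtain ⟨M, hM, hM'⟩ := h2
  obtain ⟨i, hi1, hi2⟩ := hg (m - s) (x - s) (by linarith)
  obtain ⟨j, hj1, hj2⟩ := hg (x - s) (M - s) (by linarith)
  have e1 : lo g s (i, j, k) = s + g i := rfl
  have e2 : hi g s (i, j, k) = s + g j := rfl
  have e3 : vl g (i, j, k) = g k := rfl
  refine ⟨(i, j, k), by rw [e1]; linarith, by rw [e2]; linarith, rfl, ?_, ?_⟩
  · intro t ht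
    rcases Finset.mem_insert.1 ht with rfl | ht
    · rw [e1, e2]; linarith
    · exact hp.1 t ht
  · have key : ∀ t ∈ p, Prec g s t (i, j, k) ∨ Prec g s (i, j, k) t := by
      intro t ht
      rcases h t ht with ⟨a1, a2, a3⟩ | ⟨a1, a2, a3⟩
      · left
        obtain ⟨b1, b2⟩ := hm' t ht a1
        refine ⟨?_, ?_, ?_⟩
        · rw [e1]; linarith
        · rw [e3]; exact a2
        · rw [e1, e3]; linarith
      · right
        obtain ⟨b1, b2⟩ := hM' t ht a1
        refine ⟨?_, ?_, ?_⟩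
        · rw [e2]; linarith
        · rw [e3]; exact a2
        · rw [e2, e3]; linarith
    intro t ht t' ht' hne
    rcases Finset.mem_insert.1 ht with rfl | ht
    · rcases Finset.mem_insert.1 ht' with rfl | ht'
      · exact absurd rfl hne
      · exact (key t' ht').symm
    · rcases Finset.mem_insert.1 ht' with rfl | ht'
      · exact key t ht
      · exact hp.2 t ht t' ht' hne

/-- Covering a point of the domain. -/
theorem cover_dom (hg : DenseRange' g) {p : Finset Tr} (hp : Good g s p) {x : ℝ}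
    (hx : ∀ t ∈ p, hi g s t < x ∨ x < lo g s t) :
    ∃ t0 : Tr, lo g s t0 < x ∧ x < hi g s t0 ∧ Good g s (insert t0 p) := by
  classical
  obtain ⟨α, β, hαβ, hα, hβ⟩ := between
    (p.image fun t => if hi g s t < x then vl g t else vl g t - (lo g s t - x))
    (p.image fun t => if hi g s t < x then vl g t + (x - hi g s t) else vl g t) (by
    intro a ha b hb
    obtain ⟨t, ht, rfl⟩ := Finset.mem_image.1 ha
    obtain ⟨t', ht', rfl⟩ := Finset.mem_image.1 hb
    have o1 := hp.1 t ht
    have o2 := hp.1 t' ht'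
    have o3 := hx t ht
    have o4 := hx t' ht'
    by_cases hne : t = t'
    · subst hne
      by_cases h1 : hi g s t < x
      · simp only [h1, if_true]; linarith
      · have h2 : x < lo g s t := o3.resolve_left h1
        simp only [h1, if_false]; linarith
    · have h3 := hp.2 t ht t' ht' hne
      unfold Prec at h3
      by_cases h1 : hi g s t < x
      · by_cases h2 : hi g s t' < x
        · simp only [h1, h2, if_true]
          rcases h3 with h3 | h3 <;> linarith [h3.1, h3.2.1, h3.2.2]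
        · have h2' := o4.resolve_left h2
          simp only [h1, h2, if_true, if_false]
          rcases h3 with h3 | h3 <;> linarith [h3.1, h3.2.1, h3.2.2]
      · have h1' := o3.resolve_left h1
        by_cases h2 : hi g s t' < x
        · simp only [h1, h2, if_true, if_false]
          rcases h3 with h3 | h3 <;> linarith [h3.1, h3.2.1, h3.2.2]
        · have h2' := o4.resolve_left h2
          simp only [h1, h2, if_false]
          rcases h3 with h3 | h3 <;> linarith [h3.1, h3.2.1, h3.2.2])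
  obtain ⟨k, hk1, hk2⟩ := hg α β hαβ
  obtain ⟨t0, h1, h2, -, h3⟩ := extend (x := x) (k := k) hg hp (by
    intro t ht
    have a1 := hα _ (Finset.mem_image.2 ⟨t, ht, rfl⟩)
    have a2 := hβ _ (Finset.mem_image.2 ⟨t, ht, rfl⟩)
    by_cases h1 : hi g s t < x
    · simp only [h1, if_true] at a1 a2
      exact Or.inl ⟨h1, by linarith, by linarith⟩
    · have h1' := (hx t ht).resolve_left h1
      simp only [h1, if_false] at a1 a2
      exact Or.inr ⟨h1', by linarith, by linarith⟩)
  exact ⟨t0, h1, h2, h3⟩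

/-- Covering a point of the range. -/
theorem cover_ran (hg : DenseRange' g) {p : Finset Tr} (hp : Good g s p) {y : ℝ}
    (hy : ∀ t ∈ p, hi g s t - vl g t < y ∨ y < lo g s t - vl g t) :
    ∃ t0 : Tr, lo g s t0 - vl g t0 < y ∧ y < hi g s t0 - vl g t0 ∧ Good g s (insert t0 p) := by
  classical
  obtain ⟨α, β, hαβ, hα, hβ⟩ := between
    ((p.filter fun t => hi g s t - vl g t < y).image fun t => vl g t)
    ((p.filter fun t => y < lo g s t - vl g t).image fun t => vl g t) (by
    intro a ha b hb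
    obtain ⟨t, ht, rfl⟩ := Finset.mem_image.1 ha
    obtain ⟨t', ht', rfl⟩ := Finset.mem_image.1 hb
    obtain ⟨ht, h1⟩ := Finset.mem_filter.1 ht
    obtain ⟨ht', h2⟩ := Finset.mem_filter.1 ht'
    have o1 := hp.1 t ht
    have o2 := hp.1 t' ht'
    by_cases hne : t = t'
    · subst hne
      linarith
    · have h3 := hp.2 t ht t' ht' hne
      unfold Prec at h3
      rcases h3 with h3 | h3
      · exact h3.2.1
      · linarith [h3.1, h3.2.1, h3.2.2])
  obtain ⟨k, hk1, hk2⟩ := hg α β hαβ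
  obtain ⟨t0, h1, h2, h4, h3⟩ := extend (x := y + g k) (k := k) hg hp (by
    intro t ht
    rcases hy t ht with h1 | h1
    · have a1 := hα _ (Finset.mem_image.2 ⟨t, Finset.mem_filter.2 ⟨ht, h1⟩, rfl⟩)
      exact Or.inl ⟨by linarith, by linarith, by linarith⟩
    · have a1 := hβ _ (Finset.mem_image.2 ⟨t, Finset.mem_filter.2 ⟨ht, h1⟩, rfl⟩)
      exact Or.inr ⟨by linarith, by linarith, by linarith⟩)
  exact ⟨t0, by linarith, by linarith, h3⟩

/-- Two comparable triples. -/
theorem two_triples (hg : DenseRange' g) {p : Finset Tr} (hp : Good g s p) :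
    ∃ q : Finset Tr, p ⊆ q ∧ Good g s q ∧ ∃ t ∈ q, ∃ t' ∈ q, Prec g s t t' := by
  classical
  -- a triple above all the others
  have key2 : ∀ {p : Finset Tr}, Good g s p → ∃ t0 : Tr, Good g s (insert t0 p) ∧ t0 ∉ p := by
    intro p hp
    obtain ⟨α, β, hαβ, hα, -⟩ := between (p.image fun t => hi g s t) ∅ (by simp)
    obtain ⟨t0, h1, h2, h3⟩ := cover_dom (x := β) hg hp fun t ht =>
      Or.inl ((hα _ (Finset.mem_image.2 ⟨t, ht, rfl⟩)).trans_lt hαβ)
    refine ⟨t0, h3, fun h => ?_⟩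
    have := hα _ (Finset.mem_image.2 ⟨t0, h, rfl⟩)
    linarith
  obtain ⟨t0, h1, h2⟩ := key2 hp
  obtain ⟨t1, h3, h4⟩ := key2 h1
  refine ⟨insert t1 (insert t0 p), fun t ht => by simp [ht], h3, ?_⟩
  have hne : t1 ≠ t0 := fun h => h4 (by simp [h])
  rcases h3.2 t1 (by simp) t0 (by simp) hne with h5 | h5
  · exact ⟨t1, by simp, t0, by simp, h5⟩
  · exact ⟨t0, by simp, t1, by simp, h5⟩

/-! ### The poset -/

variable (g s) in
/-- The conditions. -/
structure Cond : Type where
  /-- the finite set -/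
  p : Finset Tr
  good : Good g s p

instance : Preorder (Cond g s) where
  le := fun a b => b.p ⊆ a.p
  le_refl := fun a => Finset.Subset.refl _
  le_trans := fun _ _ _ h h' => Finset.Subset.trans h' h

instance : Nonempty (Cond g s) := ⟨⟨∅, by simp, by simp⟩⟩

instance : Countable (Cond g s) := by
  have : Function.Injective (Cond.p : Cond g s → Finset Tr) := fun a b h => by
    cases a; cases b; simp_all
  exact this.countable

end

/-- **Main theorem.** -/
theorem main (hMA : MACountable) (G : AddSubgroup ℝ) (hG : AlephOneDense (G : Set ℝ)) :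
    ¬ Plastic (G : Set ℝ) := by
  classical
  have hcard : #(G : Set ℝ) = ℵ₁ := by
    have := hG Set.univ isOpen_univ ⟨0, trivial⟩
    rwa [inter_univ] at this
  -- the group is not everything
  obtain ⟨s, hs⟩ : ∃ s : ℝ, s ∉ G := by
    by_contra hcon
    push Not at hcon
    have h1 : (G : Set ℝ) = Set.univ := eq_univ_of_forall hcon
    rw [h1, mk_univ, mk_real] at hcard
    obtain ⟨c, hc⟩ := hMA.exists_new (I := ℕ → Bool) (by
      rw [← hcard]; simp) (fun x => x)
    exact hc c rfl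
  -- a countable dense subset
  have hdense : ∀ a b : ℝ, a < b → ∃ x ∈ G, a < x ∧ x < b := by
    intro a b hab
    have h1 := hG (Ioo a b) isOpen_Ioo (nonempty_Ioo.2 hab)
    have h2 : ((G : Set ℝ) ∩ Ioo a b).Nonempty := by
      rw [nonempty_iff_ne_empty]
      intro h
      rw [h] at h1
      simp at h1
      exact absurd h1.symm (aleph_pos 1).ne'
    obtain ⟨x, hx, hx'⟩ := h2
    exact ⟨x, hx, hx'⟩
  have hgex : ∀ k : K, ∃ x ∈ G, k.1 < k.2 → (k.1 : ℝ) < x ∧ x < k.2 := by
    intro k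
    by_cases hk : k.1 < k.2
    · obtain ⟨x, hx, h⟩ := hdense k.1 k.2 (by exact_mod_cast hk)
      exact ⟨x, hx, fun _ => h⟩
    · exact ⟨0, G.zero_mem, fun h => absurd h hk⟩
  choose g hgG hg' using hgex
  have hg : DenseRange' g := by
    intro a b hab
    obtain ⟨q, hq1, hq2⟩ := exists_rat_btwn hab
    obtain ⟨q', hq1', hq2'⟩ := exists_rat_btwn hq2
    have h := hg' (q, q') (by exact_mod_cast hq1')
    exact ⟨(q, q'), hq1.trans h.1, h.2.trans hq2'⟩
  -- points of `G` are not endpoints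
  have hend : ∀ (k : K) (x : ℝ), x ∈ G → x ≠ s + g k := by
    intro k x hx h
    apply hs
    have : s = x - g k := by linarith
    rw [this]
    exact G.sub_mem hx (hgG k)
  -- the filter
  obtain ⟨F, hF, hFD⟩ := hMA (Cond g s) inferInstance ((G : Set ℝ) ⊕ (G : Set ℝ) ⊕ Unit) (by
    rw [mk_sum, mk_sum]
    simp only [Cardinal.lift_id, hcard]
    have h1 : (ℵ₁ : Cardinal.{0}) + #Unit ≤ ℵ₁ := by
      refine (add_le_add le_rfl (show #Unit ≤ ℵ₁ from ?_)).trans
        (add_eq_self (aleph0_le_aleph 1)).le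
      exact (mk_le_aleph0).trans (aleph0_le_aleph 1)
    exact (add_le_add le_rfl h1).trans (add_eq_self (aleph0_le_aleph 1)).le)
    (fun j => match j with
      | Sum.inl x => {p | ∃ t ∈ p.p, lo g s t < x.1 ∧ x.1 < hi g s t}
      | Sum.inr (Sum.inl y) => {p | ∃ t ∈ p.p, lo g s t - vl g t < y.1 ∧ y.1 < hi g s t - vl g t}
      | Sum.inr (Sum.inr _) => {p | ∃ t ∈ p.p, ∃ t' ∈ p.p, Prec g s t t'}) (by
    rintro (⟨x, hx⟩ | ⟨y, hy⟩ | _) p
    · by_cases h : ∃ t ∈ p.p, lo g s t < x ∧ x < hi g s t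
      · exact ⟨p, h, le_rfl⟩
      · push Not at h
        obtain ⟨t0, h1, h2, h3⟩ := cover_dom (x := x) hg p.good fun t ht => by
          rcases lt_trichotomy x (lo g s t) with h4 | h4 | h4
          · exact Or.inr h4
          · exact absurd h4 (hend _ _ hx)
          · rcases (h t ht h4).lt_or_eq with h5 | h5
            · exact Or.inl h5
            · exact absurd h5.symm (hend _ _ hx)
        exact ⟨⟨insert t0 p.p, h3⟩, ⟨t0, Finset.mem_insert_self _ _, h1, h2⟩,
          Finset.subset_insert _ _⟩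
    · by_cases h : ∃ t ∈ p.p, lo g s t - vl g t < y ∧ y < hi g s t - vl g t
      · exact ⟨p, h, le_rfl⟩
      · push Not at h
        obtain ⟨t0, h1, h2, h3⟩ := cover_ran (y := y) hg p.good fun t ht => by
          have hyt : y + vl g t ∈ G := G.add_mem hy (hgG _)
          rcases lt_trichotomy y (lo g s t - vl g t) with h4 | h4 | h4
          · exact Or.inr h4
          · refine absurd ?_ (hend t.1 _ hyt)
            show y + vl g t = lo g s t
            linarith
          · rcases (h t ht h4).lt_or_eq with h5 | h5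
            · exact Or.inl h5
            · refine absurd ?_ (hend t.2.1 _ hyt)
              show y + vl g t = hi g s t
              linarith
        exact ⟨⟨insert t0 p.p, h3⟩, ⟨t0, Finset.mem_insert_self _ _, h1, h2⟩,
          Finset.subset_insert _ _⟩
    · obtain ⟨q, h1, h2, h3⟩ := two_triples hg p.good
      exact ⟨⟨q, h2⟩, h3, h1⟩)
  -- triples in the filter
  have hpair : ∀ p ∈ F, ∀ q ∈ F, ∀ t ∈ p.p, ∀ t' ∈ q.p, lo g s t < hi g s t ∧
      lo g s t' < hi g s t' ∧ (t = t' ∨ Prec g s t t' ∨ Prec g s t' t) := by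
    intro p hp q hq t ht t' ht'
    obtain ⟨r, hr, h1, h2⟩ := hF.dir p hp q hq
    have h1' := h1 ht
    have h2' := h2 ht'
    refine ⟨r.good.1 t h1', r.good.1 t' h2', ?_⟩
    by_cases h : t = t'
    · exact Or.inl h
    · exact Or.inr (r.good.2 t h1' t' h2' h)
  have hcov : ∀ x : (G : Set ℝ), ∃ t : Tr, (∃ p ∈ F, t ∈ p.p) ∧ lo g s t < x.1 ∧ x.1 < hi g s t := by
    intro x
    obtain ⟨p, hp, t, ht, h⟩ := hFD (Sum.inl x)
    exact ⟨t, ⟨p, hp, ht⟩, h⟩
  choose T hT hT1 hT2 using hcov
  have hTG : ∀ x : (G : Set ℝ), x.1 - vl g (T x) ∈ (G : Set ℝ) := fun x =>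
    G.sub_mem x.2 (hgG _)
  let f : ↥(G : Set ℝ) → ↥(G : Set ℝ) := fun x => ⟨x.1 - vl g (T x), hTG x⟩
  -- monotonicity
  have hmono : ∀ x y : (G : Set ℝ), x.1 < y.1 → 0 < (f y).1 - (f x).1 ∧
      (f y).1 - (f x).1 ≤ y.1 - x.1 := by
    intro x y hxy
    obtain ⟨p, hp, hpt⟩ := hT x
    obtain ⟨q, hq, hqt⟩ := hT y
    obtain ⟨o1, o2, o3⟩ := hpair p hp q hq _ hpt _ hqt
    have e : (f y).1 - (f x).1 = y.1 - x.1 - (vl g (T y) - vl g (T x)) := by
      show y.1 - vl g (T y) - (x.1 - vl g (T x)) = _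
      ring
    rw [e]
    have a1 := hT1 x
    have a2 := hT2 x
    have a3 := hT1 y
    have a4 := hT2 y
    rcases o3 with o3 | o3 | o3
    · rw [o3]
      constructor <;> linarith
    · obtain ⟨o4, o5, o6⟩ := o3
      constructor <;> linarith
    · obtain ⟨o4, o5, o6⟩ := o3
      linarith
  have hval : ∀ (x : (G : Set ℝ)) (t : Tr), (∃ p ∈ F, t ∈ p.p) → lo g s t < x.1 →
      x.1 < hi g s t → T x = t := by
    rintro x t ⟨q, hq, hqt⟩ h1 h2
    obtain ⟨p, hp, hpt⟩ := hT x
    obtain ⟨o1, o2, o3⟩ := hpair p hp q hq _ hpt _ hqt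
    have a1 := hT1 x
    have a2 := hT2 x
    rcases o3 with o3 | ⟨o4, -, -⟩ | ⟨o4, -, -⟩
    · exact o3
    · linarith
    · linarith
  intro hpl
  have hiso := hpl f ⟨?_, ?_⟩ ?_
  · -- not an isometry
    obtain ⟨p, hp, t, ht, t', ht', hprec⟩ := hFD (Sum.inr (Sum.inr ()))
    obtain ⟨o1, o2, -⟩ := hpair p hp p hp t ht t' ht'
    obtain ⟨x, hx, hx1, hx2⟩ := hdense _ _ o1
    obtain ⟨y, hy, hy1, hy2⟩ := hdense _ _ o2
    have h1 := hval ⟨x, hx⟩ t ⟨p, hp, ht⟩ hx1 hx2
    have h2 := hval ⟨y, hy⟩ t' ⟨p, hp, ht'⟩ hy1 hy2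
    have hxy : x < y := hx2.trans (hprec.1.trans hy1)
    have h3 := hiso.dist_eq ⟨x, hx⟩ ⟨y, hy⟩
    rw [Subtype.dist_eq, Subtype.dist_eq, Real.dist_eq, Real.dist_eq] at h3
    have h4 := hmono ⟨x, hx⟩ ⟨y, hy⟩ hxy
    rw [abs_sub_comm, abs_of_pos h4.1, abs_sub_comm x y, abs_of_pos (sub_pos.2 hxy)] at h3
    have e : (f ⟨y, hy⟩).1 - (f ⟨x, hx⟩).1 = y - x - (vl g t' - vl g t) := by
      show y - vl g (T ⟨y, hy⟩) - (x - vl g (T ⟨x, hx⟩)) = _
      rw [h1, h2]
      ring
    rw [e] at h3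
    have := hprec.2.1
    linarith
  · -- injective
    intro x y hxy
    by_contra hne
    rcases lt_or_gt_of_ne (fun h => hne (Subtype.ext h) : x.1 ≠ y.1) with h | h
    · have := (hmono x y h).1
      rw [hxy, sub_self] at this
      exact lt_irrefl _ this
    · have := (hmono y x h).1
      rw [hxy, sub_self] at this
      exact lt_irrefl _ this
  · -- surjective
    intro y
    obtain ⟨p, hp, t, ht, h1, h2⟩ := hFD (Sum.inr (Sum.inl y))
    have hx : y.1 + vl g t ∈ (G : Set ℝ) := G.add_mem y.2 (hgG _)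
    refine ⟨⟨y.1 + vl g t, hx⟩, ?_⟩
    have h3 := hval ⟨y.1 + vl g t, hx⟩ t ⟨p, hp, ht⟩ (by show _ < y.1 + vl g t; linarith)
      (by show y.1 + vl g t < _; linarith)
    apply Subtype.ext
    show y.1 + vl g t - vl g (T ⟨y.1 + vl g t, hx⟩) = y.1
    rw [h3]
    ring
  · -- non-expansive
    intro x y
    rw [Subtype.dist_eq, Subtype.dist_eq, Real.dist_eq, Real.dist_eq]
    rcases lt_trichotomy x.1 y.1 with h | h | h
    · have := hmono x y h
      rw [abs_sub_comm, abs_of_pos this.1, abs_sub_comm x.1, abs_of_pos (sub_pos.2 h)]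
      exact this.2
    · rw [Subtype.ext h]
      simp
    · have := hmono y x h
      rw [abs_of_pos this.1, abs_of_pos (sub_pos.2 h)]
      exact this.2

end Pool.Agent.V11244.PlasticGroup
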