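import Pool.Agent.Helper669.Forcing

/-!
# The strong countable fan tightness game, in the ground model and in the extension

Sentences of the forcing language are sets of conditions (see `Helper669.Forcing`). A name for a
subset of a ground model set `X` is a map `X → Set P`, the sentence `y ∈ A` is `meets (A y)`.
-/

namespace Pool.Agent.V11244.SCFT

set_option linter.unusedSectionVars false

open Pool.Agent.Helper669.Forcing
open Set

universe u v

/-! ### The ground model -/

/-- `Ω_x`: the sets with `x` in the closure. -/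
def Omega {X : Type v} [TopologicalSpace X] (x : X) : Set (Set X) := {A | x ∈ closure A}

/-- `σ` is a winning strategy of II in `G_1(Ω_x,Ω_x)`. The value `σ n A` is the answer of II in
round `n`, when I has played the sets `A 0, …, A n`. -/
def IsWinning {X : Type v} [TopologicalSpace X] (x : X)
    (σ : (n : ℕ) → (Fin (n + 1) → Set X) → X) : Prop :=
  (∀ (n : ℕ) (A : Fin (n + 1) → Set X), (∀ i, A i ∈ Omega x) → σ n A ∈ A (Fin.last n)) ∧
  ∀ A : ℕ → Set X, (∀ n, A n ∈ Omega x) →
    x ∈ closure {y | ∃ n, y = σ n (fun i => A i)}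

/-- II has a winning strategy in `G_1(Ω_x,Ω_x)` at every point `x` of `X`. -/
def IIWins (X : Type v) [TopologicalSpace X] : Prop :=
  ∀ x : X, ∃ σ : (n : ℕ) → (Fin (n + 1) → Set X) → X, IsWinning x σ

/-! ### The extension -/

section

variable {P : Type u} [Preorder P] {X : Type v}

/-- The named subsets `A` and `B` of `X` are equal. -/
def SameSet (A B : X → Set P) : Set P :=
  fall fun y => fand (fimp (meets (A y)) (meets (B y))) (fimp (meets (B y)) (meets (A y)))

/-- The named subset `A` of `X` has exactly one element. -/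
def IsSingleton (A : X → Set P) : Set P :=
  fand (fex fun y => meets (A y))
    (fall fun y => fall fun z => fimp (fand (meets (A y)) (meets (A z))) (fground (y = z)))

/-- The named set `A` is contained in the named set `B`. -/
def SubsetOf (A B : X → Set P) : Set P :=
  fall fun y => fimp (meets (A y)) (meets (B y))

variable [TopologicalSpace X]

/-- The point `x` is in the closure of the named set `A`, for the topology of the extension
which has the ground model topology of `X` as a base. -/
def fOmega (x : X) (A : X → Set P) : Set P :=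
  fall fun U : Set X => fall fun _ : IsOpen U ∧ x ∈ U => fex fun y => fex fun _ : y ∈ U =>
    meets (A y)

/-- `S` names a winning strategy of II in `G_1(Ω_x,Ω_x)` (computed in the extension, for the
topology with the ground model topology as a base). Here `S n A` is a name for the singleton of
the answer of II in round `n` when I has played the named sets `A 0, …, A n`. The clauses: the
answer depends only on the sets played and not on their names; to legal moves the answer is a
point, and it belongs to the last set played; and for all sequences of legal moves, `x` is in the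
closure of the set of the answers. -/
def fIsWinning (x : X) (S : (n : ℕ) → (Fin (n + 1) → X → Set P) → X → Set P) : Set P :=
  fand
    (fall fun n => fall fun A : Fin (n + 1) → X → Set P => fall fun B : Fin (n + 1) → X → Set P =>
      fimp (fall fun i => SameSet (A i) (B i)) (SameSet (S n A) (S n B)))
    (fand
      (fall fun n => fall fun A : Fin (n + 1) → X → Set P =>
        fimp (fall fun i => fOmega x (A i))
          (fand (IsSingleton (S n A)) (SubsetOf (S n A) (A (Fin.last n)))))
      (fall fun A : ℕ → X → Set P =>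
        fimp (fall fun n => fOmega x (A n))
          (fall fun U : Set X => fall fun _ : IsOpen U ∧ x ∈ U =>
            fex fun n => fex fun y => fex fun _ : y ∈ U => meets (S n (fun i => A i) y))))

variable (P X) in
/-- In the extension, II has a winning strategy in `G_1(Ω_x,Ω_x)` at every point `x` of `X`, for
the topology with the ground model topology as a base. -/
def fIIWins : Set P :=
  fall fun x : X => fex fun S : (n : ℕ) → (Fin (n + 1) → X → Set P) → X → Set P =>
    fIsWinning x S

end

/-! ### Strategies choosing neighbourhoods -/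

section

variable {X : Type v} [TopologicalSpace X]

/-- The list of the first `n` values, latest first. -/
def hist (y : ℕ → X) : ℕ → List X
  | 0 => []
  | n + 1 => y n :: hist y n

/-- The strategy `s` answers a list of points with a neighbourhood of `x`; every play
consistent with it clusters at `x`. -/
def IsNbhdStrategy (x : X) (s : List X → Set X) : Prop :=
  (∀ l, IsOpen (s l) ∧ x ∈ s l) ∧
  ∀ y : ℕ → X, (∀ n, y n ∈ s (hist y n)) → x ∈ closure (range y)

/-- sets played by I, as a function of the list (latest first) -/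
def toFin (l : List (Set X)) (A : Set X) : Fin (l.length + 1) → Set X :=
  fun i => if h : (i : ℕ) < l.length then l[l.length - 1 - i]'(by omega) else A

theorem exists_nbhd {x : X} {σ : (n : ℕ) → (Fin (n + 1) → Set X) → X} (hσ : IsWinning x σ)
    (l : List (Set X)) (hl : ∀ A ∈ l, A ∈ Omega x) :
    ∃ U : Set X, IsOpen U ∧ x ∈ U ∧ ∀ y ∈ U, ∃ A ∈ Omega x, σ l.length (toFin l A) = y := by
  set D : Set X := {y | ¬ ∃ A ∈ Omega x, σ l.length (toFin l A) = y} with hD
  have hx : x ∉ closure D := by
    intro hx
    have h1 : σ l.length (toFin l D) ∈ D := by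
      have := hσ.1 l.length (toFin l D) (by
        intro i
        unfold toFin
        split_ifs with h
        · exact hl _ (List.getElem_mem _)
        · exact hx)
      simpa [toFin] using this
    exact h1 ⟨D, hx, rfl⟩
  refine ⟨(closure D)ᶜ, isClosed_closure.isOpen_compl, hx, fun y hy => ?_⟩
  by_contra hcon
  exact hy (subset_closure hcon)

theorem hist_length {Y : Type v} (A : ℕ → Y) (n : ℕ) : (hist A n).length = n := by
  induction n with
  | zero => rfl
  | succ n ih => simp [hist, ih]

theorem hist_get {Y : Type v} (A : ℕ → Y) (n k : ℕ) (hk : k < (hist A n).length) :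
    (hist A n)[k] = A (n - 1 - k) := by
  induction n generalizing k with
  | zero => simp [hist] at hk
  | succ n ih =>
    cases k with
    | zero => simp [hist]
    | succ k =>
      simp only [hist, List.getElem_cons_succ]
      rw [ih]
      congr 1
      omega

theorem toFin_hist (σ : (n : ℕ) → (Fin (n + 1) → Set X) → X) (A : ℕ → Set X) (n : ℕ) :
    σ (hist A n).length (toFin (hist A n) (A n)) = σ n (fun i => A i) := by
  have key : ∀ m (f : Fin (m + 1) → Set X), m = n → (∀ i : Fin (m + 1), f i = A i) →
      σ m f = σ n (fun i => A i) := by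
    rintro m f rfl h
    congr 1
    funext i
    exact h i
  refine key _ _ (hist_length A n) fun i => ?_
  unfold toFin
  have hlen := hist_length A n
  split_ifs with h
  · rw [hist_get]
    congr 1
    omega
  · congr 1
    have := i.2
    omega

theorem exists_nbhdStrategy {x : X} {σ : (n : ℕ) → (Fin (n + 1) → Set X) → X}
    (hσ : IsWinning x σ) : ∃ s, IsNbhdStrategy x s := by
  classical
  have h1 : ∀ l : List (Set X), ∃ (U : Set X) (F : X → Set X), IsOpen U ∧ x ∈ U ∧
      ((∀ A ∈ l, A ∈ Omega x) → ∀ y ∈ U, F y ∈ Omega x ∧ σ l.length (toFin l (F y)) = y) := by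
    intro l
    by_cases hl : ∀ A ∈ l, A ∈ Omega x
    · obtain ⟨U, hU, hx, h⟩ := exists_nbhd hσ l hl
      refine ⟨U, fun y => if hy : y ∈ U then (h y hy).choose else univ, hU, hx, fun _ y hy => ?_⟩
      simp only [hy, dif_pos]
      exact (h y hy).choose_spec
    · exact ⟨univ, fun _ => univ, isOpen_univ, mem_univ _, fun h => absurd h hl⟩
  choose U F hU hxU hF using h1
  let sets : List X → List (Set X) := fun l => l.foldr (fun y m => F m y :: m) []
  refine ⟨fun l => U (sets l), fun l => ⟨hU _, hxU _⟩, fun y hy => ?_⟩
  set A : ℕ → Set X := fun n => F (sets (hist y n)) (y n) with hA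
  have hsets : ∀ n, sets (hist y n) = hist A n := by
    intro n
    induction n with
    | zero => rfl
    | succ n ih =>
      show F (sets (hist y n)) (y n) :: sets (hist y n) = A n :: hist A n
      have h0 : A n = F (sets (hist y n)) (y n) := rfl
      rw [h0, ih]
  have hleg : ∀ n, ∀ B ∈ hist A n, B ∈ Omega x := by
    intro n
    induction n with
    | zero => intro B hB; simp [hist] at hB
    | succ n ih =>
      intro B hB
      simp only [hist, List.mem_cons] at hB
      rcases hB with rfl | hB
      · rw [← hsets n] at ih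
        exact (hF _ ih (y n) (hy n)).1
      · exact ih B hB
  have hAO : ∀ n, A n ∈ Omega x := fun n => hleg (n + 1) (A n) (by simp [hist])
  have hval : ∀ n, σ n (fun i => A i) = y n := by
    intro n
    rw [← toFin_hist σ A n]
    have h := hleg n
    rw [← hsets n] at h ⊢
    exact (hF _ h (y n) (hy n)).2
  have := hσ.2 A hAO
  have hset : {z | ∃ n, z = σ n (fun i => A i)} = range y := by
    ext z
    simp only [hval, mem_ofPred_eq, mem_range]
    exact ⟨fun ⟨n, h⟩ => ⟨n, h.symm⟩, fun ⟨n, h⟩ => ⟨n, h.symm⟩⟩
  rwa [hset] at this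

end

/-! ### The strategy in the extension -/

section

variable {P : Type u} [Preorder P] {X : Type v} [TopologicalSpace X]

/-- `y` is the least element (for the well-order `r`) of the intersection of the named set `B`
with the ground model set `U`. -/
def leastIn (r : X → X → Prop) (B : X → Set P) (U : Set X) (y : X) : Set P :=
  {p | y ∈ U ∧ p ∈ meets (B y) ∧ ∀ z ∈ U, r z y → ∀ q ≤ p, q ∉ meets (B z)}

/-- The list `l` (latest first) is the list of the first answers. -/
def histName (r : X → X → Prop) (s : List X → Set X) (A : ℕ → X → Set P) : List X → Set P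
  | [] => univ
  | y :: l => {p | p ∈ histName r s A l ∧ p ∈ leastIn r (A l.length) (s l) y}

theorem down_leastIn (r : X → X → Prop) (B : X → Set P) (U : Set X) (y : X) :
    Down (leastIn r B U y) := fun _ hp _ hq =>
  ⟨hp.1, down_meets _ _ hp.2.1 _ hq, fun z hz hzy q' hq' => hp.2.2 z hz hzy q' (hq'.trans hq)⟩

theorem down_histName (r : X → X → Prop) (s : List X → Set X) (A : ℕ → X → Set P) (l : List X) :
    Down (histName r s A l) := by
  induction l with
  | nil => exact fun _ _ _ _ => mem_univ _
  | cons y l ih => exact fun p hp q hq => ⟨ih p hp.1 q hq, down_leastIn _ _ _ _ p hp.2 q hq⟩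

theorem meets_iff {φ : Set P} (hφ : Down φ) {p : P} : p ∈ meets φ ↔ ∀ q ≤ p, ∃ r ≤ q, r ∈ φ := by
  constructor
  · intro h q hq
    obtain ⟨r, hr, s, hs, hrs⟩ := h q hq
    exact ⟨r, hr, hφ s hs r hrs⟩
  · intro h q hq
    obtain ⟨r, hr, hs⟩ := h q hq
    exact ⟨r, hr, r, hs, le_rfl⟩

variable {r : X → X → Prop} [IsWellOrder X r] {x : X} {s : List X → Set X}

theorem exists_least {B : X → Set P} {U : Set X} (hU : IsOpen U) (hx : x ∈ U) {p : P}
    (hp : p ∈ fOmega x B) : ∃ q ≤ p, ∃ y, q ∈ leastIn r B U y := by
  have h1 := mem_fex.1 (hp U ⟨hU, hx⟩) p le_rfl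
  obtain ⟨q, hq, y, hy⟩ := h1
  obtain ⟨q', hq', hyU, hy'⟩ := mem_fex.1 hy q le_rfl
  have hne : {z : X | z ∈ U ∧ ∃ t ≤ p, t ∈ meets (B z)}.Nonempty :=
    ⟨y, hyU, q', hq'.trans hq, hy'⟩
  set z := (IsWellFounded.wf (r := r)).min _ hne with hz
  have hzm : z ∈ U ∧ ∃ t ≤ p, t ∈ meets (B z) := (IsWellFounded.wf (r := r)).min_mem _ hne
  obtain ⟨hzU, t, ht, htz⟩ := hzm
  refine ⟨t, ht, z, hzU, htz, fun w hw hwz t' ht' hcon => ?_⟩
  have hw' : w ∈ {z : X | z ∈ U ∧ ∃ t ≤ p, t ∈ meets (B z)} := ⟨hw, t', ht'.trans ht, hcon⟩
  exact (IsWellFounded.wf (r := r)).not_lt_min _ hw' hwz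

theorem exists_hist (hs : ∀ l, IsOpen (s l) ∧ x ∈ s l) {A : ℕ → X → Set P} {n : ℕ} {p : P}
    (hp : ∀ i < n, p ∈ fOmega x (A i)) :
    ∃ q ≤ p, ∃ l : List X, l.length = n ∧ q ∈ histName r s A l := by
  induction n with
  | zero => exact ⟨p, le_rfl, [], rfl, mem_univ _⟩
  | succ n ih =>
    obtain ⟨q, hq, l, hl, hql⟩ := ih fun i hi => hp i (hi.trans (Nat.lt_succ_self n))
    have h1 : q ∈ fOmega x (A n) := by
      intro U hU
      exact down_fex _ _ (hp n (Nat.lt_succ_self n) U hU) q hq
    obtain ⟨t, ht, y, hy⟩ := exists_least (r := r) (hs l).1 (hs l).2 h1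
    exact ⟨t, ht.trans hq, y :: l, by simp [hl], down_histName _ _ _ _ _ hql t ht, by rwa [hl]⟩

theorem hist_unique {A : ℕ → X → Set P} {p : P} : ∀ {l m : List X}, l.length = m.length →
    p ∈ histName r s A l → p ∈ histName r s A m → l = m
  | [], [], _, _, _ => rfl
  | y :: l, z :: m, hlen, hl, hm => by
    have hlen' : l.length = m.length := by simpa using hlen
    have := hist_unique hlen' hl.1 hm.1
    subst this
    have h1 := hl.2
    have h2 := hm.2
    rcases trichotomous_of r y z with h | h | h
    · exact absurd h1.2.1 (h2.2.2 y h1.1 h p le_rfl)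
    · rw [h]
    · exact absurd h2.2.1 (h1.2.2 z h2.1 h p le_rfl)

/-- extension of a finite sequence of names -/
def extName {n : ℕ} (A : Fin (n + 1) → X → Set P) : ℕ → X → Set P :=
  fun i => if h : i < n + 1 then A ⟨i, h⟩ else fun _ => ∅

/-- The name for the strategy. -/
def stratName (r : X → X → Prop) (s : List X → Set X) (n : ℕ) (A : Fin (n + 1) → X → Set P) :
    X → Set P :=
  fun y => {p | ∃ l : List X, l.length = n ∧ p ∈ histName r s (extName A) (y :: l)}

theorem down_stratName (n : ℕ) (A : Fin (n + 1) → X → Set P) (y : X) :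
    Down (stratName r s n A y) := by
  rintro p ⟨l, hl, hp⟩ q hq
  exact ⟨l, hl, down_histName _ _ _ _ p hp q hq⟩

theorem sameSet_iff {A B : X → Set P} {p : P} (h : p ∈ SameSet A B) {q : P} (hq : q ≤ p) (y : X) :
    q ∈ meets (A y) ↔ q ∈ meets (B y) := by
  have key : ∀ {A B : X → Set P}, p ∈ fimp (meets (A y)) (meets (B y)) → q ∈ meets (A y) →
      q ∈ meets (B y) := by
    intro A B h h1 t ht
    obtain ⟨t', ht', h'⟩ := mem_fimp.1 h t (ht.trans hq) (down_meets _ _ h1 _ ht)
    obtain ⟨t'', ht'', z, hz, hle⟩ := h' t' le_rfl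
    exact ⟨t'', ht''.trans ht', z, hz, hle⟩
  exact ⟨key (h y).1, key (h y).2⟩

theorem sameSet_symm {A B : X → Set P} {p : P} (h : p ∈ SameSet A B) : p ∈ SameSet B A :=
  fun y => ⟨(h y).2, (h y).1⟩

theorem histName_congr {A B : ℕ → X → Set P} {p : P} : ∀ (l : List X),
    (∀ i < l.length, ∀ q ≤ p, ∀ y, q ∈ meets (A i y) ↔ q ∈ meets (B i y)) →
    p ∈ histName r s A l → p ∈ histName r s B l
  | [], _, _ => mem_univ _
  | y :: l, h, hp => by
    refine ⟨histName_congr l (fun i hi => h i (by simp; omega)) hp.1, hp.2.1, ?_, ?_⟩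
    · exact (h l.length (by simp) p le_rfl y).1 hp.2.2.1
    · intro z hz hzy q hq hcon
      exact hp.2.2.2 z hz hzy q hq ((h l.length (by simp) q hq z).2 hcon)

theorem forced_wins (hr : IsWellOrder X r) (hs : IsNbhdStrategy x s) (p : P) :
    p ∈ fIsWinning x (stratName r s (P := P)) := by
  refine ⟨?_, ?_, ?_⟩
  · -- extensionality
    intro n A B
    refine mem_fimp.2 fun q _ hq => ⟨q, le_rfl, ?_⟩
    have key : ∀ {A B : Fin (n + 1) → X → Set P}, (∀ i, q ∈ SameSet (A i) (B i)) → ∀ y,
        q ∈ fimp (meets (stratName r s n A y)) (meets (stratName r s n B y)) := by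
      intro A B h y
      refine mem_fimp.2 fun t ht htA => ⟨t, le_rfl, ?_⟩
      rw [meets_iff (down_stratName _ _ _)] at htA ⊢
      intro u hu
      obtain ⟨v, hv, l, hl, hvl⟩ := htA u hu
      refine ⟨v, hv, l, hl, histName_congr _ ?_ hvl⟩
      intro i hi w hw z
      have hi' : i < n + 1 := by simpa [hl] using hi
      simp only [extName, hi', dif_pos]
      exact sameSet_iff (h ⟨i, hi'⟩) (hw.trans (hv.trans (hu.trans ht))) z
    exact fun y => ⟨key hq y, key (fun i => sameSet_symm (hq i)) y⟩
  · -- legality
    intro n A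
    refine mem_fimp.2 fun q _ hq => ⟨q, le_rfl, ⟨?_, ?_⟩, ?_⟩
    · refine mem_fex.2 fun t ht => ?_
      have h1 : ∀ i < n + 1, t ∈ fOmega x (extName A i) := by
        intro i hi U hU
        have := hq ⟨i, hi⟩
        simp only [extName, hi, dif_pos]
        exact down_fex _ _ (this U hU) t ht
      obtain ⟨u, hu, l, hl, hul⟩ := exists_hist (r := r) hs.1 h1
      cases l with
      | nil => simp at hl
      | cons y l =>
        exact ⟨u, hu, y, meets_of_mem ⟨l, by simpa using hl, hul⟩⟩
    · intro y z
      refine mem_fimp.2 fun t _ ht => ⟨t, le_rfl, ?_⟩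
      obtain ⟨u, hu, l, hl, hul⟩ := exists_of_meets (down_stratName _ _ _) ht.1
      obtain ⟨v, hv, m, hm, hvm⟩ := exists_of_meets (down_stratName _ _ _)
        (down_meets _ _ ht.2 u hu)
      have := hist_unique (by simp [hl, hm]) (down_histName _ _ _ _ _ hul v hv) hvm
      simp only [List.cons.injEq] at this
      exact this.1
    · intro y
      refine mem_fimp.2 fun t _ ht => ⟨t, le_rfl, ?_⟩
      intro u hu
      obtain ⟨v, hv, l, hl, hvl⟩ := exists_of_meets (down_stratName _ _ _)
        (down_meets _ _ ht u hu)
      have h1 := hvl.2.2.1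
      simp only [extName, hl, lt_add_iff_pos_right, zero_lt_one, dif_pos] at h1
      obtain ⟨w, hw, z, hz, hle⟩ := h1 v le_rfl
      exact ⟨w, hw.trans hv, z, hz, hle⟩
  · -- winning
    intro A
    refine mem_fimp.2 fun q _ hq => ⟨q, le_rfl, ?_⟩
    intro U hU
    refine mem_fex.2 fun t ht => ?_
    by_contra hcon
    push Not at hcon
    -- below `t`, all answers lie outside `U`
    have hout : ∀ u ≤ t, ∀ (l : List X) (y : X), u ∈ histName r s A (y :: l) → y ∉ U := by
      intro u hu l y huy hyU
      refine hcon u hu l.length ?_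
      refine mem_fex_of_mem y (down_fex _) ?_
      refine mem_fex_of_mem hyU (down_meets _) ?_
      refine meets_of_mem ⟨l, rfl, histName_congr _ ?_ huy⟩
      intro i hi w hw z
      have hi' : i < l.length + 1 := by simpa using hi
      simp only [extName, hi', dif_pos]
    -- build a play
    have hstep : ∀ (c : {c : P × List X // c.1 ≤ t ∧ c.1 ∈ histName r s A c.2}),
        ∃ d : {c : P × List X // c.1 ≤ t ∧ c.1 ∈ histName r s A c.2},
          ∃ y, d.1.2 = y :: c.1.2 := by
      rintro ⟨⟨u, l⟩, hu, hul⟩
      have h1 : u ∈ fOmega x (A l.length) := by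
        intro W hW
        exact down_fex _ _ (hq l.length W hW) u (hu.trans ht)
      obtain ⟨v, hv, y, hy⟩ := exists_least (r := r) (hs.1 l).1 (hs.1 l).2 h1
      exact ⟨⟨(v, y :: l), hv.trans hu, down_histName _ _ _ _ _ hul v hv, hy⟩, y, rfl⟩
    choose next pt hnext using hstep
    let c : ℕ → {c : P × List X // c.1 ≤ t ∧ c.1 ∈ histName r s A c.2} := fun n =>
      Nat.rec ⟨(t, []), le_rfl, mem_univ _⟩ (fun _ c => next c) n
    let y : ℕ → X := fun n => pt (c n)
    have hc : ∀ n, (c n).1.2 = hist y n := by
      intro n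
      induction n with
      | zero => rfl
      | succ n ih =>
        show (next (c n)).1.2 = y n :: hist y n
        rw [hnext, ih]
    have hin : ∀ n, (c (n + 1)).1.1 ∈ histName r s A (y n :: hist y n) := by
      intro n
      have := (c (n + 1)).2.2
      rw [hc (n + 1)] at this
      exact this
    have hplay : ∀ n, y n ∈ s (hist y n) := fun n => (hin n).2.1
    have hcl := hs.2 y hplay
    obtain ⟨z, hzU, n, rfl⟩ := mem_closure_iff.1 hcl U hU.1 hU.2
    exact hout _ (c (n + 1)).2.1 _ _ (hin n) hzU

end

/-- If II has a winning strategy in `G_1(Ω_x,Ω_x)` at every point of `X`, then every condition of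
every forcing notion forces this for the ground model space. -/
theorem preserved {P : Type u} [Preorder P] {X : Type v} [TopologicalSpace X] (h : IIWins X)
    (p : P) : p ∈ fIIWins P X := by
  classical
  intro x
  obtain ⟨σ, hσ⟩ := h x
  obtain ⟨s, hs⟩ := exists_nbhdStrategy hσ
  refine mem_fex_of_mem (stratName (WellOrderingRel (α := X)) s) ?_ (forced_wins inferInstance hs p)
  refine down_fand (down_fall fun _ => down_fall fun _ => down_fall fun _ => down_fimp _ _)
    (down_fand (down_fall fun _ => down_fall fun _ => down_fimp _ _)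
      (down_fall fun _ => down_fimp _ _))

end Pool.Agent.V11244.SCFT
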