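import Mathlib

/-! Shared tools on the Cantor group: an independent family `ev`, columns `col`,
an uncountable clique for the column relation, and the Baire argument showing that
there is no perfect clique. -/

namespace Pool.Agent.V11244.Translates

open Set Topology Classical

/-- Cantor space. -/
abbrev C := ℕ → Bool
/-- The index set of finite binary strings. -/
abbrev Str := Σ n : ℕ, (Fin n → Bool)
/-- The Cantor group indexed by finite strings. -/
abbrev G := Str → ZMod 2

/-- The indicator function of the branch `x`. -/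
def ev (x : C) : G := fun s => if (fun i : Fin s.1 => x i) = s.2 then 1 else 0

/-- The `n`-th column of `x`. -/
def col (n : ℕ) (x : C) : C := fun m => x (Nat.pair n m)

lemma continuous_ev : Continuous ev := by
  refine continuous_pi fun s => ?_
  have h1 : Continuous (fun x : C => (fun i : Fin s.1 => x i)) :=
    continuous_pi fun i => continuous_apply _
  have h2 : Continuous (fun t : Fin s.1 → Bool => (if t = s.2 then 1 else 0 : ZMod 2)) :=
    continuous_of_discreteTopology
  exact h2.comp h1

lemma continuous_col (n : ℕ) : Continuous (col n) :=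
  continuous_pi fun m => continuous_apply _

/-- A finite list of points is separated at some level. -/
lemma exists_level (l : List C) : ∃ n : ℕ, ∀ x ∈ l, ∀ y ∈ l,
    ev x ⟨n, fun i => y i⟩ = if x = y then 1 else 0 := by
  have key : ∀ x y : C, ∃ n : ℕ, ∀ k, n ≤ k → ((fun i : Fin k => x i) = (fun i : Fin k => y i) ↔ x = y) := by
    intro x y
    by_cases h : x = y
    · exact ⟨0, fun k _ => by simp [h]⟩
    · obtain ⟨m, hm⟩ := Function.ne_iff.1 h
      refine ⟨m + 1, fun k hk => ⟨fun h' => ?_, fun h' => absurd h' h⟩⟩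
      have := congrFun h' ⟨m, by omega⟩
      exact absurd this hm
  choose N hN using key
  let S : Finset C := l.toFinset
  refine ⟨(S ×ˢ S).sup (fun p => N p.1 p.2), fun x hx y hy => ?_⟩
  have hle : N x y ≤ (S ×ˢ S).sup (fun p => N p.1 p.2) :=
    Finset.le_sup (f := fun p : C × C => N p.1 p.2) (b := (x, y)) (by simp [S, hx, hy])
  have := hN x y _ hle
  simp only [ev]
  by_cases h : x = y
  · rw [if_pos h, if_pos (this.2 h)]
  · rw [if_neg h, if_neg (fun h' => h (this.1 h'))]

lemma ev_injective : Function.Injective ev := by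
  intro x y hxy
  obtain ⟨n, hn⟩ := exists_level [x, y]
  have h1 := hn x (by simp) y (by simp)
  have h2 := hn y (by simp) y (by simp)
  rw [hxy, h2] at h1
  by_contra h
  simp [h] at h1

/-- The set of sums `ev y + ev (col n y)`. -/
def En (n : ℕ) : Set G := range (fun y : C => ev y + ev (col n y))

/-- The set of nonzero sums. -/
def E : Set G := {z | ∃ n y, col n y ≠ y ∧ z = ev y + ev (col n y)}

lemma isCompact_En (n : ℕ) : IsCompact (En n) :=
  isCompact_range (continuous_ev.add (continuous_ev.comp (continuous_col n)))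

lemma zmod_add_self (a : ZMod 2) : a + a = 0 := by
  revert a; decide

lemma G_add_self (a : G) : a + a = 0 := by
  funext s; exact zmod_add_self _

lemma G_add_eq_zero {a b : G} : a + b = 0 ↔ a = b := by
  constructor
  · intro h
    have : a + b + b = 0 + b := by rw [h]
    rwa [add_assoc, G_add_self, add_zero, zero_add] at this
  · rintro rfl; exact G_add_self _

lemma zero_mem_En (n : ℕ) : (0 : G) ∈ En n := by
  refine ⟨fun _ => false, ?_⟩
  have : col n (fun _ => false) = fun _ => false := rfl
  simp only [this]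
  exact G_add_self _

lemma E_eq : E = (⋃ n, En n) \ {0} := by
  ext z
  constructor
  · rintro ⟨n, y, hy, rfl⟩
    refine ⟨mem_iUnion.2 ⟨n, y, rfl⟩, ?_⟩
    intro h
    have := G_add_eq_zero.1 h
    exact hy (ev_injective this).symm
  · rintro ⟨h1, h2⟩
    obtain ⟨n, y, rfl⟩ := mem_iUnion.1 h1
    refine ⟨n, y, ?_, rfl⟩
    intro h
    apply h2
    show ev y + ev (col n y) = 0
    rw [h]; exact G_add_self _

lemma zero_notMem_E : (0 : G) ∉ E := by
  rw [E_eq]; simp

lemma measurableSet_E : @MeasurableSet G (borel G) E := by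
  borelize G
  rw [E_eq]
  exact (MeasurableSet.iUnion fun n => (isCompact_En n).measurableSet).diff
    (measurableSet_singleton 0)

/-- The combinatorial heart. -/
lemma six {y1 y2 a b z1 z2 : C} (hz : y1 = y2 → z1 = z2) (hab : a ≠ b)
    (h : ev y1 + ev z1 + (ev y2 + ev z2) + (ev a + ev b) = 0) :
    y1 = a ∨ y1 = b ∨ y2 = a ∨ y2 = b := by
  by_contra hcon
  push Not at hcon
  obtain ⟨h1, h2, h3, h4⟩ := hcon
  obtain ⟨n, hn⟩ := exists_level [y1, z1, y2, z2, a, b]
  have ha := congrFun h ⟨n, fun i => a i⟩
  have hb := congrFun h ⟨n, fun i => b i⟩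
  have hy := congrFun h ⟨n, fun i => y1 i⟩
  simp only [Pi.add_apply, Pi.zero_apply] at ha hb hy
  rw [hn y1 (by simp) a (by simp), hn z1 (by simp) a (by simp), hn y2 (by simp) a (by simp),
    hn z2 (by simp) a (by simp), hn a (by simp) a (by simp), hn b (by simp) a (by simp)] at ha
  rw [hn y1 (by simp) b (by simp), hn z1 (by simp) b (by simp), hn y2 (by simp) b (by simp),
    hn z2 (by simp) b (by simp), hn a (by simp) b (by simp), hn b (by simp) b (by simp)] at hb
  rw [hn y1 (by simp) y1 (by simp), hn z1 (by simp) y1 (by simp), hn y2 (by simp) y1 (by simp),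
    hn z2 (by simp) y1 (by simp), hn a (by simp) y1 (by simp), hn b (by simp) y1 (by simp)] at hy
  simp only [h1, h3, hab.symm, if_false, if_true] at ha
  simp only [h2, h4, hab, if_false, if_true] at hb
  simp only [Ne.symm h1, Ne.symm h2, if_false, if_true] at hy
  by_cases c1 : z1 = a
  · by_cases c2 : z2 = b
    · have e1 : z1 ≠ y1 := by rw [c1]; exact h1.symm
      have e2 : z2 ≠ y1 := by rw [c2]; exact h2.symm
      simp only [e1, e2, if_false] at hy
      by_cases c3 : y2 = y1
      · have := hz c3.symm
        rw [c1, c2] at this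
        exact hab this
      · simp [c3] at hy
    · have e1 : z1 ≠ b := by rw [c1]; exact hab
      simp [e1, c2] at hb
  · by_cases c2 : z2 = a
    · by_cases c3 : z1 = b
      · have e1 : z1 ≠ y1 := by rw [c3]; exact h2.symm
        have e2 : z2 ≠ y1 := by rw [c2]; exact h1.symm
        simp only [e1, e2, if_false] at hy
        by_cases c4 : y2 = y1
        · have := hz c4.symm
          rw [c3, c2] at this
          exact hab this.symm
        · simp [c4] at hy
      · have e1 : z2 ≠ b := by rw [c2]; exact hab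
        simp [e1, c3] at hb
    · simp [c1, c2] at ha

/-- There is no perfect clique. -/
theorem no_perfect_clique {A : Type*} [TopologicalSpace A] [T2Space A] [CompactSpace A]
    (f : A → G) (hf : Continuous f) (P : Set A) (hP : Perfect P) (hne : P.Nonempty)
    (hinj : InjOn f P)
    (hE : ∀ x ∈ P, ∀ y ∈ P, x ≠ y → f x + f y ∈ E) : False := by
  have hcP : IsCompact P := hP.closed.isCompact
  have : CompactSpace P := isCompact_iff_compactSpace.1 hcP
  have : Nonempty P := hne.to_subtype
  have hclosed : ∀ n : ℕ, IsClosed {q : P × P | f q.1 + f q.2 ∈ En n} := by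
    intro n
    have : Continuous (fun q : P × P => f q.1 + f q.2) :=
      (hf.comp (continuous_subtype_val.comp continuous_fst)).add
        (hf.comp (continuous_subtype_val.comp continuous_snd))
    exact (isCompact_En n).isClosed.preimage this
  have hun : (⋃ n : ℕ, {q : P × P | f q.1 + f q.2 ∈ En n}) = univ := by
    refine eq_univ_of_forall fun q => ?_
    by_cases h : (q.1 : A) = q.2
    · refine mem_iUnion.2 ⟨0, ?_⟩
      show f q.1 + f q.2 ∈ En 0
      rw [h, G_add_self]
      exact zero_mem_En 0
    · have := hE q.1 q.1.2 q.2 q.2.2 h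
      obtain ⟨n, y, -, hy⟩ := this
      exact mem_iUnion.2 ⟨n, y, hy.symm⟩
  obtain ⟨n, hn⟩ := nonempty_interior_of_iUnion_of_closed hclosed hun
  obtain ⟨⟨u, v⟩, huv⟩ := hn
  have hnhds : interior {q : P × P | f q.1 + f q.2 ∈ En n} ∈ 𝓝 (u, v) :=
    isOpen_interior.mem_nhds huv
  rw [nhds_prod_eq, Filter.mem_prod_iff] at hnhds
  obtain ⟨U, hU, V, hV, hUV⟩ := hnhds
  have hUV' : ∀ x ∈ U, ∀ y ∈ V, f x + f y ∈ En n := by
    intro x hx y hy
    have h0 : (x, y) ∈ {q : P × P | f q.1 + f q.2 ∈ En n} :=
      interior_subset (hUV (mk_mem_prod hx hy))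
    exact h0
  -- neighbourhoods in `P` are infinite
  have hinf : ∀ (w : P) (W : Set P), W ∈ 𝓝 w → W.Infinite := by
    intro w W hW
    have hacc : AccPt (w : A) (Filter.principal P) := hP.acc w w.2
    obtain ⟨W', hW', hWW⟩ := (mem_nhds_subtype P w W).1 hW
    have : ((W' ∩ P) : Set A).Infinite := by
      have h1 := (accPt_iff_frequently.1 hacc)
      by_contra hfin
      rw [not_infinite] at hfin
      have h2 : ((W' ∩ P) \ {(w : A)})ᶜ ∈ 𝓝 (w : A) :=
        (hfin.subset sdiff_subset).isClosed.isOpen_compl.mem_nhds (by simp)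
      have h3 := h1.and_eventually (Filter.inter_mem h2 hW')
      obtain ⟨y, ⟨hy1, hy2⟩, hy3, hy4⟩ := h3.exists
      exact hy3 ⟨⟨hy4, hy2⟩, hy1⟩
    have h4 : ((W' ∩ P) : Set A) ⊆ Subtype.val '' W := by
      rintro y ⟨hy1, hy2⟩
      exact ⟨⟨y, hy2⟩, hWW hy1, rfl⟩
    intro hfin
    exact this ((hfin.image _).subset h4)
  -- two points in `U`
  obtain ⟨p1, hp1, p2, hp2, hp12⟩ := (hinf u U hU).nontrivial
  have hp12' : (p1 : A) ≠ p2 := fun h => hp12 (Subtype.ext h)
  obtain ⟨m, a, hma, hsum⟩ := hE p1 p1.2 p2 p2.2 hp12'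
  set b := col m a with hb
  let ι : C → G := fun y => ev y + ev (col n y)
  have hfinV : (f ∘ Subtype.val '' V) ⊆
      {f p1 + ι a, f p1 + ι b, f p2 + ι a, f p2 + ι b} := by
    rintro _ ⟨q, hq, rfl⟩
    obtain ⟨y1, hy1⟩ := hUV' p1 hp1 q hq
    obtain ⟨y2, hy2⟩ := hUV' p2 hp2 q hq
    simp only at hy1 hy2
    have hq1 : f q = f p1 + (ev y1 + ev (col n y1)) := by
      rw [hy1, ← add_assoc, G_add_self, zero_add]
    have hq2 : f q = f p2 + (ev y2 + ev (col n y2)) := by
      rw [hy2, ← add_assoc, G_add_self, zero_add]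
    have hz : ev y1 + ev (col n y1) + (ev y2 + ev (col n y2)) + (ev a + ev b) = 0 := by
      rw [hy1, hy2, ← hsum]
      have : f ↑p1 + f ↑q + (f ↑p2 + f ↑q) + (f ↑p1 + f ↑p2) =
          (f p1 + f p1) + (f p2 + f p2) + (f q + f q) := by abel
      rw [this, G_add_self (f p1), G_add_self (f p2), G_add_self (f q), add_zero, add_zero]
    have hab : a ≠ b := fun h => hma h.symm
    rcases six (fun h => by rw [h]) hab hz with h | h | h | h
    · left; show f q = _; rw [hq1, h]
    · right; left; show f q = _; rw [hq1, h]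
    · right; right; left; show f q = _; rw [hq2, h]
    · right; right; right; show f q = _; rw [hq2, h]
  have hVfin : (f ∘ (Subtype.val : P → A) '' V).Finite := (Set.toFinite _).subset hfinV
  have hinj' : InjOn (f ∘ (Subtype.val : P → A)) V := by
    intro x _ y _ hxy
    exact Subtype.ext (hinj x.2 y.2 hxy)
  exact hinf v V hV (Set.Finite.of_finite_image hVfin hinj')

/-- An uncountable clique of the column relation. -/
theorem exists_clique : ∃ H : Set C, ¬ H.Countable ∧
    ∀ x ∈ H, ∀ y ∈ H, x ≠ y → ∃ n, col n x = y ∨ col n y = x := by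
  let R : C → C → Prop := fun x y => ∃ n, col n x = y ∨ col n y = x
  obtain ⟨H, hH⟩ := zorn_subset {H : Set C | H.Pairwise R} (by
    intro c hc hchain
    refine ⟨⋃₀ c, ?_, fun s hs => subset_sUnion_of_mem hs⟩
    exact (pairwise_sUnion hchain.directedOn).2 hc)
  refine ⟨H, ?_, fun x hx y hy hxy => hH.prop hx hy hxy⟩
  intro hcount
  obtain ⟨g, hg⟩ := (countable_iff_exists_subset_range).1 hcount
  -- the point with column `0` equal to `c` and column `n+1` equal to `g n`
  let pt : C → C := fun c k =>
    if (Nat.unpair k).1 = 0 then c (Nat.unpair k).2 else g ((Nat.unpair k).1 - 1) (Nat.unpair k).2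
  have hpt0 : ∀ c, col 0 (pt c) = c := by
    intro c; funext m; simp [col, pt]
  have hptn : ∀ c n, col (n + 1) (pt c) = g n := by
    intro c n; funext m; simp [col, pt]
  have hptinj : Function.Injective pt := by
    intro c d h
    rw [← hpt0 c, ← hpt0 d, h]
  have huncount : ¬ (range pt).Countable := by
    intro h
    have h1 : (univ : Set C).Countable := by
      have := h.preimage_of_injOn (f := pt) (s := range pt) (hptinj.injOn)
      simpa using this
    obtain ⟨f, hf⟩ := (countable_iff_exists_subset_range).1 h1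
    obtain ⟨n, hn⟩ := hf (mem_univ (fun n => !(f n n)))
    have := congrFun hn n
    simp at this
  have : ∃ x ∈ range pt, x ∉ H := by
    by_contra hcon
    push Not at hcon
    exact huncount (hcount.mono hcon)
  obtain ⟨_, ⟨c, rfl⟩, hc⟩ := this
  have hnew : (insert (pt c) H).Pairwise R := by
    refine (hH.prop).insert ?_
    intro y hy _
    obtain ⟨n, hn⟩ := hg hy
    exact ⟨⟨n + 1, Or.inl ((hptn c n).trans hn)⟩, ⟨n + 1, Or.inr ((hptn c n).trans hn)⟩⟩
  exact hc (hH.le_of_ge hnew (subset_insert _ _) (mem_insert _ _))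

end Pool.Agent.V11244.Translates
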